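import Mathlib
import Pool.Agent.Q18.W.Mean6
import Pool.Agent.Q5.VA.Dat

/-!
# Euler products over number fields at the centre: means over one sequence of windows

`K` is a number field, `S` a finite set of finite places, and `α v j`, `v ∉ S`, are complex numbers of absolute value
at most `q_v^{i/2}` whose power sums `∑_j (α v j)^k` are real; the centre is `c = (i + 1)/2`. In the applications these
are the eigenvalues of the Frobenius, or the Satake parameters, of objects pure of weight `i`.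
-/

set_option autoImplicit false

namespace Pool.Agent.Q18.P

open Filter Topology Set Complex NumberField IsDedekindDomain MeasureTheory
open Pool.Agent.H921R2.TatePole (nm two_le_nm)
open Pool.Agent.TH942.ES (zv xv cv cP Sys nf_sys)
open Pool.Agent.TH270.MS (Pl LI BM Mc)
open Pool.Agent.Q5.MS (Pv)
open Pool.Agent.Q5.VA (NS aD zD_eq factorD cP_D)
open Pool.Agent.Q18.W (Dw Wm)

variable {K : Type} [Field K] [NumberField K] {N : ℕ}

/-- The norm `q_v`. -/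
noncomputable def norm (v : HeightOneSpectrum (𝓞 K)) : ℕ := Ideal.absNorm v.asIdeal

/-- The roots `α v j`, `v ∉ S`, have absolute value at most `q_v^{i/2}` and real power sums. -/
structure Pure (i : ℕ) (S : Finset (HeightOneSpectrum (𝓞 K))) (α : HeightOneSpectrum (𝓞 K) → Fin N → ℂ) : Prop where
  le : ∀ v, v ∉ S → ∀ j, ‖α v j‖ ≤ (norm v : ℝ) ^ ((i : ℝ) / 2)
  real : ∀ v, v ∉ S → ∀ k : ℕ, (∑ j, α v j ^ k).im = 0

/-- `F` is a continuation of the Euler product `∏_{v ∉ S} ∏_j (1 - α_{v,j} q_v^{-s})⁻¹`, `Re s > c + 1/2`,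
meromorphic at every point with `Re s > c` and at `c`. -/
def Continues (c : ℝ) (S : Finset (HeightOneSpectrum (𝓞 K))) (α : HeightOneSpectrum (𝓞 K) → Fin N → ℂ)
    (F : ℂ → ℂ) : Prop :=
  (∀ s : ℂ, c < s.re → MeromorphicAt F s) ∧ MeromorphicAt F c ∧
  ∀ s : ℂ, c + 1 / 2 < s.re →
    HasProd (fun v : {v : HeightOneSpectrum (𝓞 K) // v ∉ S} => (∏ j, (1 - α v.1 j * (norm v.1 : ℂ) ^ (-s)))⁻¹) (F s)

/-- `F` is a continuation of the Euler product to a half plane `Re s > c - η`: for some `k` the function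
`(s - c)^k F(s)` is analytic and of polynomial growth there. -/
def Tempered (c : ℝ) (S : Finset (HeightOneSpectrum (𝓞 K))) (α : HeightOneSpectrum (𝓞 K) → Fin N → ℂ)
    (F : ℂ → ℂ) : Prop :=
  (∃ (η C : ℝ) (k κ : ℕ) (G : ℂ → ℂ), 0 < η ∧
    (∀ s : ℂ, c - η < s.re → DifferentiableAt ℂ G s ∧ ‖G s‖ ≤ C * (1 + ‖s‖) ^ κ) ∧
    ∀ s : ℂ, c - η < s.re → s ≠ c → G s = (s - c) ^ k * F s) ∧
  ∀ s : ℂ, c + 1 / 2 < s.re →
    HasProd (fun v : {v : HeightOneSpectrum (𝓞 K) // v ∉ S} => (∏ j, (1 - α v.1 j * (norm v.1 : ℂ) ^ (-s)))⁻¹) (F s)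

/-- The places `v` outside of `S` with `q_v ≤ y`. -/
def upTo (S : Finset (HeightOneSpectrum (𝓞 K))) (y : ℝ) : Set (HeightOneSpectrum (𝓞 K)) :=
  {v | v ∉ S ∧ (norm v : ℝ) ≤ y}

/-- `P(y) = ∏_{v ∉ S, q_v ≤ y} |∏_j (1 - α_{v,j} q_v^{-c})|`, a finite product. -/
noncomputable def product (c : ℝ) (S : Finset (HeightOneSpectrum (𝓞 K))) (α : HeightOneSpectrum (𝓞 K) → Fin N → ℂ)
    (y : ℝ) : ℝ :=
  ∏ᶠ v ∈ upTo S y, ‖∏ j, (1 - α v j * (norm v : ℂ) ^ (-(c : ℂ)))‖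

/-- `P*(y) = exp (- ∑_{v ∉ S, q_v^k ≤ y} (∑_j α_{v,j}^k) / (k q_v^{ck}))`, the (finite) sum over the pairs `(v, k)`,
`v` a place outside of `S`, `k = p.2 + 1 ≥ 1`, with `q_v^k ≤ y`. -/
noncomputable def productStar (c : ℝ) (S : Finset (HeightOneSpectrum (𝓞 K)))
    (α : HeightOneSpectrum (𝓞 K) → Fin N → ℂ) (y : ℝ) : ℝ :=
  Real.exp (-∑ᶠ (p : {v : HeightOneSpectrum (𝓞 K) // v ∉ S} × ℕ) (_ : (norm p.1.1 : ℝ) ^ (p.2 + 1) ≤ y),
      (∑ j, α p.1.1 j ^ (p.2 + 1)).re / (((p.2 : ℝ) + 1) * ((norm p.1.1 : ℝ) ^ c) ^ (p.2 + 1)))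

/-- `F` has no zeros and no poles with `Re s > c`. -/
def Free (c : ℝ) (F : ℂ → ℂ) : Prop := ∀ s : ℂ, c < s.re → meromorphicOrderAt F s = 0

/-- `F` has no real poles `x > c`. -/
def NoRealPoles (c : ℝ) (F : ℂ → ℂ) : Prop := ∀ x : ℝ, c < x → 0 ≤ meromorphicOrderAt F (x : ℂ)

/-- `F` has no zeros with `Re s > c`. -/
def NoZeros (c : ℝ) (F : ℂ → ℂ) : Prop := ∀ s : ℂ, c < s.re → F s ≠ 0

/-- `a` is the coefficient of `(s - c)^e` in the expansion of `F` at `c`, where `e` is the order. -/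
def IsLeading (c : ℝ) (F : ℂ → ℂ) (e : ℤ) (a : ℂ) : Prop :=
  meromorphicOrderAt F c = e ∧ Tendsto (fun s : ℂ => F s / (s - c) ^ e) (𝓝[≠] (c : ℂ)) (𝓝 a)

/-- `∫_{Y^(1-δ)}^Y G(y) dy/y ≤ B log Y`. -/
def MeanBound (δ : ℝ) (G : ℝ → ℝ) (B Y : ℝ) : Prop := ∫ y in Y ^ (1 - δ)..Y, G y / y ≤ B * Real.log Y

/-- the positive part of `log P(y) - κ log log y` -/
noncomputable def excess (P : ℝ → ℝ) (κ y : ℝ) : ℝ := max (Real.log (P y) - κ * Real.log (Real.log y)) 0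

/-- `|log P(y) - ρ log log y|` -/
noncomputable def error (P : ℝ → ℝ) (ρ y : ℝ) : ℝ := |Real.log (P y) - ρ * Real.log (Real.log y)|

/-- `log (A P*(y) / (e^γ log y)^ρ)` -/
noncomputable def ratio (Q : ℝ → ℝ) (A ρ y : ℝ) : ℝ :=
  Real.log (A * Q y / (Real.exp Real.eulerMascheroniConstant * Real.log y) ^ ρ)

/-! ### translation -/

variable {i : ℕ} {c : ℝ} {S : Finset (HeightOneSpectrum (𝓞 K))} {α : HeightOneSpectrum (𝓞 K) → Fin N → ℂ} {F : ℂ → ℂ}

theorem norm_eq (v : HeightOneSpectrum (𝓞 K)) : norm v = nm v := rfl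

/-- real power sums give a real logarithm -/
theorem log_im {n : ℕ} {z : Fin n → ℂ} (hz : ∀ j, ‖z j‖ < 1) (h : ∀ k : ℕ, (∑ j, z j ^ k).im = 0) :
    (∑ j, log (1 - z j)).im = 0 := by
  have h1 : ∀ j, HasSum (fun k : ℕ => z j ^ k / (k : ℂ)) (-log (1 - z j)) := fun j =>
    Complex.hasSum_taylorSeries_neg_log (hz j)
  have h2 : HasSum (fun k : ℕ => ∑ j, z j ^ k / (k : ℂ)) (∑ j, -log (1 - z j)) := hasSum_sum fun j _ => h1 j
  have h3 := Complex.hasSum_im h2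
  have h4 : (fun k : ℕ => (∑ j, z j ^ k / (k : ℂ)).im) = fun _ => 0 := by
    funext k
    rw [← Finset.sum_div, ← Complex.ofReal_natCast, Complex.div_ofReal_im, h k, zero_div]
  rw [h4] at h3
  have h5 := h3.unique hasSum_zero
  rw [Finset.sum_neg_distrib, Complex.neg_im] at h5
  linarith

namespace Pure

theorem norm_le (h : Pure i S α) (v : {v : HeightOneSpectrum (𝓞 K) // v ∉ S}) (j : Fin N) :
    ‖aD i S α v j‖ ≤ 1 := by
  have hp2 : (2 : ℝ) ≤ nm v.1 := by exact_mod_cast two_le_nm v.1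
  have h0 : 0 < (nm v.1 : ℝ) ^ ((i : ℝ) / 2) := Real.rpow_pos_of_pos (by linarith) _
  unfold aD
  rw [norm_div, Complex.norm_real, Real.norm_of_nonneg h0.le, div_le_one h0]
  exact h.le v.1 v.2 j

theorem lt_one (h : Pure i S α) (v : {v : HeightOneSpectrum (𝓞 K) // v ∉ S}) (j : Fin N) :
    ‖α v.1 j * (((nm v.1 : ℝ) ^ (-(((i : ℝ) + 1) / 2)) : ℝ) : ℂ)‖ < 1 := by
  have hp2 : (2 : ℝ) ≤ nm v.1 := by exact_mod_cast two_le_nm v.1
  have hq : (0 : ℝ) < nm v.1 := by linarith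
  have h0 : 0 < (nm v.1 : ℝ) ^ (-(((i : ℝ) + 1) / 2)) := Real.rpow_pos_of_pos hq _
  rw [norm_mul, Complex.norm_real, Real.norm_of_nonneg h0.le]
  calc ‖α v.1 j‖ * (nm v.1 : ℝ) ^ (-(((i : ℝ) + 1) / 2))
      ≤ (nm v.1 : ℝ) ^ ((i : ℝ) / 2) * (nm v.1 : ℝ) ^ (-(((i : ℝ) + 1) / 2)) :=
        mul_le_mul_of_nonneg_right (h.le v.1 v.2 j) h0.le
    _ = (nm v.1 : ℝ) ^ ((i : ℝ) / 2 + -(((i : ℝ) + 1) / 2)) := (Real.rpow_add hq _ _).symm
    _ < 1 := Real.rpow_lt_one_of_one_lt_of_neg (by linarith) (by linarith)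

theorem real_z (h : Pure i S α) (v : {v : HeightOneSpectrum (𝓞 K) // v ∉ S}) (k : ℕ) :
    (∑ j, zv (NS S) (aD i S α) v j ^ k).im = 0 := by
  simp only [zD_eq, mul_pow]
  rw [← Finset.sum_mul, ← Complex.ofReal_pow, Complex.im_mul_ofReal, h.real v.1 v.2 k, zero_mul]

/-- **the Euler system** -/
theorem sys (h : Pure i S α) : Sys (NS S) (aD i S α) :=
  nf_sys (fun v => v ∉ S) (aD i S α) h.norm_le fun v => by
    refine log_im (z := zv (NS S) (aD i S α) v) (fun j => ?_) (h.real_z v)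
    rw [zD_eq]
    exact h.lt_one v j

theorem cv_eq (h : Pure i S α) (v : {v : HeightOneSpectrum (𝓞 K) // v ∉ S}) :
    cv (NS S) (aD i S α) v = Real.log ‖∏ j, (1 - α v.1 j *
      (((nm v.1 : ℝ) ^ (-(((i : ℝ) + 1) / 2)) : ℝ) : ℂ))‖ := by
  have hne : ∀ j, 1 - α v.1 j * (((nm v.1 : ℝ) ^ (-(((i : ℝ) + 1) / 2)) : ℝ) : ℂ) ≠ 0 := by
    intro j h0
    have h1 := h.lt_one v j
    rw [← sub_eq_zero.1 h0, norm_one] at h1
    exact lt_irrefl _ h1
  unfold cv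
  rw [norm_prod, Real.log_prod (fun j _ => norm_ne_zero_iff.2 (hne j)), Complex.re_sum]
  refine Finset.sum_congr rfl fun j _ => ?_
  rw [zD_eq, Complex.log_re]

end Pure

theorem cpow_c (hc : c = ((i : ℝ) + 1) / 2) (v : HeightOneSpectrum (𝓞 K)) :
    ((((nm v : ℝ) ^ (-(((i : ℝ) + 1) / 2)) : ℝ) : ℝ) : ℂ) = (norm v : ℂ) ^ (-(c : ℂ)) := by
  have hp2 : (2 : ℝ) ≤ nm v := by exact_mod_cast two_le_nm v
  have h1 : (norm v : ℂ) = (nm v : ℂ) := rfl
  rw [h1, Complex.ofReal_cpow (by linarith), hc]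
  push_cast
  rfl

theorem log_star (hc : c = ((i : ℝ) + 1) / 2) (y : ℝ) :
    Real.log (productStar c S α y) = -Pl (NS S) (aD i S α) y := by
  unfold productStar Pl
  rw [Real.log_exp]
  congr 1
  refine finsum_congr fun p => finsum_congr fun _ => ?_
  rw [cP_D c hc p]
  rfl

theorem star_pos (y : ℝ) : 0 < productStar c S α y := Real.exp_pos _

theorem upTo_finite (S : Finset (HeightOneSpectrum (𝓞 K))) (y : ℝ) : (upTo S y).Finite := by
  have hP : Pure (K := K) (N := 0) 0 S (fun _ j => j.elim0) := ⟨fun _ _ j => j.elim0, fun _ _ k => by simp⟩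
  have h1 := (hP.sys.fin_le y).image Subtype.val
  refine h1.subset fun v hv => ?_
  exact ⟨⟨v, hv.1⟩, hv.2, rfl⟩

theorem factor_ne (hc : c = ((i : ℝ) + 1) / 2) (h : Pure i S α) {v : HeightOneSpectrum (𝓞 K)} (hv : v ∉ S) :
    ‖∏ j, (1 - α v j * (norm v : ℂ) ^ (-(c : ℂ)))‖ ≠ 0 := by
  rw [norm_ne_zero_iff, Finset.prod_ne_zero_iff]
  intro j _ h0
  have h1 := h.lt_one ⟨v, hv⟩ j
  rw [cpow_c hc, ← sub_eq_zero.1 h0, norm_one] at h1
  exact lt_irrefl _ h1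

theorem log_product (hc : c = ((i : ℝ) + 1) / 2) (h : Pure i S α) (y : ℝ) :
    Real.log (product c S α y) = Pv (NS S) (aD i S α) y := by
  classical
  have hcv : ∀ v : {v : HeightOneSpectrum (𝓞 K) // v ∉ S},
      cv (NS S) (aD i S α) v = Real.log ‖∏ j, (1 - α v.1 j * (norm v.1 : ℂ) ^ (-(c : ℂ)))‖ := by
    intro v
    rw [h.cv_eq v, cpow_c hc]
  have hfin := upTo_finite S y
  have h2 : product c S α y = ∏ v ∈ hfin.toFinset, ‖∏ j, (1 - α v j * (norm v : ℂ) ^ (-(c : ℂ)))‖ :=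
    finprod_mem_eq_finite_toFinset_prod _ hfin
  rw [h2, Real.log_prod]
  · rw [Pool.Agent.Q5.MS.pv_eq h.sys]
    refine Finset.sum_bij' (i := fun v hv => ⟨v, ((Set.Finite.mem_toFinset _).1 hv).1⟩)
      (j := fun v _ => v.1) ?_ ?_ ?_ ?_ ?_
    · intro v hv
      rw [Set.Finite.mem_toFinset] at hv ⊢
      exact hv.2
    · intro v hv
      rw [Set.Finite.mem_toFinset] at hv ⊢
      exact ⟨v.2, hv⟩
    · intro v hv
      rfl
    · intro v hv
      rfl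
    · intro v hv
      exact (hcv ⟨v, ((Set.Finite.mem_toFinset _).1 hv).1⟩).symm
  · intro v hv
    rw [Set.Finite.mem_toFinset] at hv
    exact factor_ne hc h hv.1

theorem product_pos (hc : c = ((i : ℝ) + 1) / 2) (h : Pure i S α) (y : ℝ) : 0 < product c S α y := by
  have h2 : product c S α y = ∏ v ∈ (upTo_finite S y).toFinset, ‖∏ j, (1 - α v j * (norm v : ℂ) ^ (-(c : ℂ)))‖ :=
    finprod_mem_eq_finite_toFinset_prod _ _
  rw [h2]
  refine Finset.prod_pos fun v hv => ?_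
  rw [Set.Finite.mem_toFinset] at hv
  exact lt_of_le_of_ne (norm_nonneg _) (Ne.symm (factor_ne hc h hv.1))

theorem dw (hc : c = ((i : ℝ) + 1) / 2) (h : Pure i S α) (hF : Continues c S α F) :
    Dw (NS S) (aD i S α) (fun s => F ((c : ℂ) + s)) := by
  obtain ⟨h1, h2, h3⟩ := hF
  refine Pool.Agent.Q18.W.dw_of h.sys h.real_z h1 h2 fun s hs => ?_
  refine (h3 s hs).congr_fun fun v => ?_
  have h4 := factorD (i := i) (S := S) (α := α) v s
  rw [← hc] at h4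
  exact h4

theorem mc (hc : c = ((i : ℝ) + 1) / 2) (h : Pure i S α) (hF : Tempered c S α F) :
    ∃ (G₀ : ℂ → ℂ) (k κ : ℕ) (η C : ℝ), Mc (NS S) (aD i S α) (fun s => F (c + s)) G₀ k κ η C := by
  obtain ⟨h1, h2⟩ := hF
  refine Pool.Agent.Q5.VA.temp_data h.sys h.real_z ⟨h1, fun s hs => (h2 s hs).congr_fun fun v => ?_⟩
  have h4 := factorD (i := i) (S := S) (α := α) v s
  rw [← hc] at h4
  exact h4

theorem of_tempered (h : Tempered c S α F) : Continues c S α F ∧ (∀ s : ℂ, c < s.re → AnalyticAt ℂ F s) := by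
  obtain ⟨⟨η, C, k, κ, G, hη, hG, hF⟩, h2⟩ := h
  have ho : IsOpen {s : ℂ | c - η < s.re} := isOpen_lt continuous_const Complex.continuous_re
  have hd : DifferentiableOn ℂ G {s : ℂ | c - η < s.re} := fun s hs => (hG s hs).1.differentiableWithinAt
  have han : ∀ z : ℂ, c - η < z.re → AnalyticAt ℂ G z := fun z hz => hd.analyticAt (ho.mem_nhds hz)
  have h3 : ∀ z : ℂ, c - η < z.re → MeromorphicAt F z := by
    intro z hz
    have h5 : MeromorphicAt (fun s : ℂ => G s / (s - c) ^ k) z := by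
      have h5 : MeromorphicAt (fun s : ℂ => (s - c) ^ k) z := by fun_prop
      exact (han z hz).meromorphicAt.div h5
    refine h5.congr ?_
    have e1 : ∀ᶠ s in 𝓝[≠] z, c - η < s.re := nhdsWithin_le_nhds (ho.mem_nhds hz)
    have e2 : ∀ᶠ s in 𝓝[≠] z, s ≠ (c : ℂ) := by
      by_cases h : z = c
      · rw [h]
        exact self_mem_nhdsWithin
      · exact nhdsWithin_le_nhds (isOpen_ne.mem_nhds h)
    filter_upwards [e1, e2] with s hs1 hs2
    rw [hF s hs1 hs2, mul_div_cancel_left₀ _ (pow_ne_zero _ (sub_ne_zero.2 hs2))]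
  have hne : ∀ z : ℂ, c < z.re → z ≠ (c : ℂ) := by
    rintro z hz rfl
    simp at hz
  refine ⟨⟨fun s hs => h3 s (by linarith), h3 c (by simp only [Complex.ofReal_re]; linarith), h2⟩, fun s hs => ?_⟩
  have h5 : AnalyticAt ℂ (fun z : ℂ => G z / (z - c) ^ k) s :=
    (han s (by linarith)).div (by fun_prop) (pow_ne_zero _ (sub_ne_zero.2 (hne s hs)))
  refine h5.congr ?_
  filter_upwards [(isOpen_lt continuous_const Complex.continuous_re).mem_nhds hs] with z hz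
  have hz' : c < z.re := hz
  rw [hF z (by linarith) (hne z hz'), mul_div_cancel_left₀ _ (pow_ne_zero _ (sub_ne_zero.2 (hne z hz')))]

theorem order_nat {F : ℂ → ℂ} {s : ℂ} (h1 : AnalyticAt ℂ F s) {m : ℤ} (hm : meromorphicOrderAt F s = m) :
    0 ≤ m ∧ (m = 0 ↔ F s ≠ 0) := by
  have h2 := h1.meromorphicOrderAt_nonneg
  rw [hm] at h2
  refine ⟨by exact_mod_cast h2, ?_⟩
  rw [h1.meromorphicOrderAt_eq] at hm
  constructor
  · rintro rfl h3
    have h4 : analyticOrderAt F s ≠ 0 := by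
      rw [h1.analyticOrderAt_ne_zero]
      exact h3
    cases hh : analyticOrderAt F s with
    | top => rw [hh] at hm; simp at hm
    | coe k =>
      rw [hh] at hm h4
      have h5 : ((k : ℤ) : WithTop ℤ) = ((0 : ℤ) : WithTop ℤ) := hm
      have h6 : (k : ℤ) = 0 := by exact_mod_cast h5
      have h7 : k = 0 := by exact_mod_cast h6
      rw [h7] at h4
      exact h4 rfl
  · intro h3
    rw [h1.analyticOrderAt_eq_zero.2 h3] at hm
    have h5 : ((0 : ℤ) : WithTop ℤ) = (m : WithTop ℤ) := hm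
    exact_mod_cast h5.symm

theorem free_iff (h : ∀ s : ℂ, c < s.re → AnalyticAt ℂ F s) : Free c F ↔ NoZeros c F := by
  refine forall_congr' fun s => imp_congr_right fun hs => ?_
  have h1 := h s hs
  constructor
  · intro h2
    exact (order_nat h1 (m := 0) h2).2.1 rfl
  · intro h2
    rw [h1.meromorphicOrderAt_eq, h1.analyticOrderAt_eq_zero.2 h2]
    rfl

theorem li_log (hc : c = ((i : ℝ) + 1) / 2) (h : Pure i S α) (κ : ℝ) :
    LI fun y => Real.log (product c S α y) - κ * Real.log (Real.log y) := by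
  have h1 := (Pool.Agent.Q5.MS.bm_pv h.sys).li
  have h2 : LI fun y => Pv (NS S) (aD i S α) y - (κ * Real.log (Real.log y) + 0) := fun Y hY =>
    (h1 Y hY).sub (Pool.Agent.Q18.W.loglog_li κ 0 Y hY)
  simpa only [log_product hc h, add_zero] using h2

/-- the means over the windows are bounded if the means over `[e, Y]` are -/
theorem all_windows {T : ℝ → ℝ} (hT : LI T) (hT0 : ∀ y, 0 ≤ T y) {B δ : ℝ} (h0 : 0 < δ) (h1 : δ < 1)
    (h : ∀ᶠ Y : ℝ in atTop, ∫ y in Real.exp 1..Y, T y / y ≤ B * Real.log Y) :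
    ∀ᶠ Y : ℝ in atTop, MeanBound δ T B Y := by
  have ht := (tendsto_rpow_atTop (show 0 < 1 - δ by linarith)).eventually_ge_atTop (Real.exp 1)
  filter_upwards [h, ht, eventually_ge_atTop 1] with Y hY hY2 hY1
  have hle : Y ^ (1 - δ) ≤ Y := by
    conv_rhs => rw [← Real.rpow_one Y]
    exact Real.rpow_le_rpow_of_exponent_le hY1 (by linarith)
  have l1 := hT.div
  have i1 := l1 (Y ^ (1 - δ)) hY2
  have i2 : IntervalIntegrable (fun y => T y / y) volume (Y ^ (1 - δ)) Y := i1.symm.trans (l1 Y (hY2.trans hle))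
  have e1 := intervalIntegral.integral_add_adjacent_intervals i1 i2
  have e2 : 0 ≤ ∫ y in Real.exp 1..Y ^ (1 - δ), T y / y := by
    refine intervalIntegral.integral_nonneg hY2 fun y hy => ?_
    have : 0 < y := (Real.exp_pos 1).trans_le hy.1
    have := hT0 y
    positivity
  show ∫ y in Y ^ (1 - δ)..Y, T y / y ≤ B * Real.log Y
  linarith

/-- the Riemann hypothesis implies the bound for the means -/
theorem bound_of_rh (hc : c = ((i : ℝ) + 1) / 2) (h : Pure i S α) (hT : Tempered c S α F) (hz : NoZeros c F) {m : ℤ}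
    (hm : meromorphicOrderAt F c = m) {δ : ℝ} (h0 : 0 < δ) (h1 : δ < 1) :
    ∃ B : ℝ, ∀ᶠ Y : ℝ in atTop, MeanBound δ (error (product c S α) m) B Y := by
  obtain ⟨G₀, k, κ, η, C, H⟩ := mc hc h hT
  have t := Pool.Agent.Q5.MS.order_real H m
  have h2 : (∀ s : ℂ, 0 < s.re → (fun s => F ((c : ℂ) + s)) s ≠ 0) ∧
      ∃ e : ℤ, (m : ℝ) = e ∧ meromorphicOrderAt (fun s => F ((c : ℂ) + s)) 0 = e := by
    refine ⟨fun s hs => hz _ (by simpa using hs), m, rfl, ?_⟩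
    rw [Pool.Agent.Q5.VA.mero_shiftC]
    exact hm
  obtain ⟨B, hB⟩ := (t.out 0 3).1 h2
  refine ⟨B, all_windows (T := error (product c S α) m) (li_log hc h m).abs (fun y => abs_nonneg _) h0 h1 ?_⟩
  refine hB.mono fun Y hY => ?_
  refine le_of_eq_of_le ?_ hY
  refine intervalIntegral.integral_congr fun y _ => ?_
  show |Real.log (product c S α y) - (m : ℝ) * Real.log (Real.log y)| / y = _
  rw [log_product hc h]

theorem excess_le {P : ℝ → ℝ} {r κ : ℝ} (hrκ : r ≤ κ)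
    (hl : ∀ κ : ℝ, LI fun y => Real.log (P y) - κ * Real.log (Real.log y)) {δ : ℝ} (h0 : 0 < δ) (h1 : δ < 1)
    (h : ∃ B : ℝ, ∀ᶠ Y : ℝ in atTop, MeanBound δ (error P r) B Y) :
    ∃ B : ℝ, ∀ᶠ Y : ℝ in atTop, MeanBound δ (excess P κ) B Y := by
  obtain ⟨B, hB⟩ := h
  refine ⟨B, (hB.and (Pool.Agent.Q18.W.win_mono (Pool.Agent.Q18.W.LI.max0 (hl κ)) (hl r).abs (fun y hy => ?_)
    h0 h1)).mono fun Y hY => hY.2.trans hY.1⟩
  have hy0 : 0 < y := (Real.exp_pos 1).trans_le hy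
  have hl : 0 ≤ Real.log (Real.log y) := by
    refine Real.log_nonneg ?_
    rwa [Real.le_log_iff_exp_le hy0]
  refine max_le (le_trans ?_ (le_abs_self _)) (abs_nonneg _)
  have : r * Real.log (Real.log y) ≤ κ * Real.log (Real.log y) := by gcongr
  linarith

/-! ### the laws for one Euler product -/

/-- **one-sided** -/
theorem one (hc : c = ((i : ℝ) + 1) / 2) (h : Pure i S α) (hF : Continues c S α F) (hr : NoRealPoles c F) {δ : ℝ}
    (h0 : 0 < δ) (h1 : δ < 1) {κ B : ℝ} (hB : ∃ᶠ Y : ℝ in atTop, MeanBound δ (excess (product c S α) κ) B Y) :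
    Free c F ∧ ∃ e : ℤ, meromorphicOrderAt F c = e ∧ (e : ℝ) ≤ κ :=
  Pool.Agent.Q18.W.mean_one (dw hc h hF) (log_product hc h) h0 h1 hr hB

/-- **two-sided** -/
theorem two (hc : c = ((i : ℝ) + 1) / 2) (h : Pure i S α) (hF : Continues c S α F) {δ : ℝ}
    (h0 : 0 < δ) (h1 : δ < 1) {ρ B : ℝ} (hB : ∃ᶠ Y : ℝ in atTop, MeanBound δ (error (product c S α) ρ) B Y) :
    Free c F ∧ ∃ e : ℤ, ρ = e ∧ meromorphicOrderAt F c = e :=
  Pool.Agent.Q18.W.mean_two (dw hc h hF) (log_product hc h) h0 h1 hB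

/-- **limit** -/
theorem lim (hc : c = ((i : ℝ) + 1) / 2) (h : Pure i S α) (hF : Continues c S α F) {δ : ℝ}
    (h0 : 0 < δ) (h1 : δ < 1) {ρ A : ℝ} (hA : 0 < A)
    (hB : ∀ ε : ℝ, 0 < ε → ∃ᶠ Y : ℝ in atTop, MeanBound δ (fun y => |ratio (productStar c S α) A ρ y|) ε Y) :
    Free c F ∧ ∃ e : ℤ, ρ = e ∧ meromorphicOrderAt F c = e ∧ ∀ a : ℂ, IsLeading c F e a → ‖a‖ = A := by
  obtain ⟨f1, e, f2, f3, f4⟩ := Pool.Agent.Q18.W.mean_lim (dw hc h hF) (fun y => star_pos y) (log_star hc) h0 h1 hA hB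
  exact ⟨f1, e, f2, f3, fun a ha => f4 a ha.2⟩

/-- **in every window** -/
theorem omega (hc : c = ((i : ℝ) + 1) / 2) (h : Pure i S α) (hF : Continues c S α F) (hr : NoRealPoles c F) {δ : ℝ}
    (h0 : 0 < δ) (h1 : δ < 1) {e : ℤ} {a : ℂ} (ha : IsLeading c F e a) {A : ℝ} (hA : ‖a‖ < A) :
    ∃ β : ℝ, 0 < β ∧ ∀ᶠ Y : ℝ in atTop, ¬ MeanBound δ (fun y => max (ratio (productStar c S α) A e y) 0) β Y := by
  obtain ⟨β, hβ, h⟩ := Pool.Agent.Q18.W.mean_omega (dw hc h hF) (fun y => star_pos y) (log_star hc) h0 h1 hr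
    ha.1 ha.2 hA
  exact ⟨β, hβ, h.mono fun Y hY => not_le.2 hY⟩

theorem tfae_one (hc : c = ((i : ℝ) + 1) / 2) (h : Pure i S α) (hT : Tempered c S α F) {δ : ℝ}
    (h0 : 0 < δ) (h1 : δ < 1) (κ : ℝ) : List.TFAE [
      NoZeros c F ∧ ∃ e : ℤ, meromorphicOrderAt F c = e ∧ (e : ℝ) ≤ κ,
      ∃ B : ℝ, ∃ᶠ Y : ℝ in atTop, MeanBound δ (excess (product c S α) κ) B Y,
      ∃ B : ℝ, ∀ᶠ Y : ℝ in atTop, MeanBound δ (excess (product c S α) κ) B Y] := by
  obtain ⟨hC, han⟩ := of_tempered hT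
  have hreal : NoRealPoles c F := fun x hx =>
    (han x (by rw [Complex.ofReal_re]; exact hx)).meromorphicOrderAt_nonneg
  tfae_have 1 → 3 := by
    rintro ⟨h2, e, h3, h5⟩
    exact excess_le h5 (li_log hc h) h0 h1 (bound_of_rh hc h hT h2 h3 h0 h1)
  tfae_have 3 → 2 := fun ⟨B, hB⟩ => ⟨B, hB.frequently⟩
  tfae_have 2 → 1 := by
    rintro ⟨B, hB⟩
    obtain ⟨f1, f2⟩ := one hc h hC hreal h0 h1 hB
    exact ⟨(free_iff han).1 f1, f2⟩
  tfae_finish

theorem tfae_two (hc : c = ((i : ℝ) + 1) / 2) (h : Pure i S α) (hT : Tempered c S α F) {δ : ℝ}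
    (h0 : 0 < δ) (h1 : δ < 1) (ρ : ℝ) : List.TFAE [
      NoZeros c F ∧ ∃ e : ℤ, ρ = e ∧ meromorphicOrderAt F c = e,
      ∃ B : ℝ, ∃ᶠ Y : ℝ in atTop, MeanBound δ (error (product c S α) ρ) B Y,
      ∃ B : ℝ, ∀ᶠ Y : ℝ in atTop, MeanBound δ (error (product c S α) ρ) B Y] := by
  obtain ⟨hC, han⟩ := of_tempered hT
  tfae_have 1 → 3 := by
    rintro ⟨h2, e, rfl, h3⟩
    exact bound_of_rh hc h hT h2 h3 h0 h1
  tfae_have 3 → 2 := fun ⟨B, hB⟩ => ⟨B, hB.frequently⟩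
  tfae_have 2 → 1 := by
    rintro ⟨B, hB⟩
    obtain ⟨f1, f2⟩ := two hc h hC h0 h1 hB
    exact ⟨(free_iff han).1 f1, f2⟩
  tfae_finish

end Pool.Agent.Q18.P
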