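import Mathlib
import Pool.Agent.Q18.P.Base
import Pool.Agent.Q12.WN.NFPi

/-!
# Rankin-Selberg `L`-functions at a real point `c`: one-sided means over one sequence of windows
-/

set_option autoImplicit false
set_option linter.unusedSectionVars false

namespace Pool.Agent.Q18.P

open Filter Topology Set Complex MeasureTheory
open Pool.Agent.Q12.WN
open Pool.Agent.W189.TP (DS DS_diff DS_norm_le summ_mono PS LL LL_nonneg zetaS)
open Pool.Agent.TH949.TX (AA VV VV_diff VV_real VV_one)
open Pool.Agent.TH270.MS (LI BM)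
open Pool.Agent.Q18.W (Gd Mx)

section gen

variable {X : Type*} {q : X → ℝ}

/-- the sum over the primes is at most the sum over the prime powers -/
theorem aa_ge (hq : PSys q) {D : X × ℕ → ℝ} {g : X → ℝ} {y : ℝ} (hy : 0 < y)
    (h : ∀ v, q v ≤ y → g v ≤ ∑' k : ℕ, (open Classical in if LG q (v, k) ≤ Real.log y then D (v, k) else 0)) :
    (∑' v, (open Classical in if q v ≤ y then g v else 0)) ≤ AA D (LG q) (Real.log y) := by
  classical
  have hs : Summable fun x : X × ℕ => if LG q x ≤ Real.log y then D x else 0 :=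
    summable_of_hasFiniteSupport ((LG_fin hq (Real.log y)).subset fun x hx => by
      by_contra h7
      exact hx (if_neg h7))
  have hs2 : Summable fun v : X => if q v ≤ y then g v else 0 :=
    summable_of_hasFiniteSupport ((q_fin hq y).subset fun x hx => by
      by_contra h7
      exact hx (if_neg h7))
  unfold AA
  have e1 : (∑' x : X × ℕ, if LG q x ≤ Real.log y then D x else 0) =
      ∑' v : X, ∑' k : ℕ, if LG q (v, k) ≤ Real.log y then D (v, k) else 0 := hs.tsum_prod
  have e2 : (∑' i, (open Classical in if LG q i ≤ Real.log y then D i else 0)) =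
      ∑' x : X × ℕ, if LG q x ≤ Real.log y then D x else 0 := by
    refine tsum_congr fun x => ?_
    congr
  rw [e2, e1]
  have e3 : (∑' v, (open Classical in if q v ≤ y then g v else 0)) = ∑' v, if q v ≤ y then g v else 0 := by
    refine tsum_congr fun x => ?_
    congr
  rw [e3]
  refine hs2.tsum_le_tsum (fun v => ?_) hs.prod
  split_ifs with h1
  · refine (h v h1).trans (le_of_eq ?_)
    refine tsum_congr fun k => ?_
    congr
  · refine le_of_eq ?_
    rw [eq_comm]
    have : ∀ k : ℕ, (if LG q (v, k) ≤ Real.log y then D (v, k) else 0) = 0 := by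
      intro k
      refine if_neg fun h2 => h1 ?_
      rw [← LG_le hq hy]
      refine le_trans ?_ h2
      unfold LG
      have hk : (0 : ℝ) ≤ k := Nat.cast_nonneg _
      have hl : 0 ≤ Real.log (q v) := Real.log_nonneg (hq.one_lt v).le
      simp only [Nat.cast_zero, zero_add, one_mul]
      nlinarith
    rw [tsum_congr this, tsum_zero]

theorem step_mono (hq : PSys q) {g : X → ℝ} (hg : ∀ v, 0 ≤ g v) :
    Monotone fun y : ℝ => ∑' v, (open Classical in if q v ≤ y then g v else 0) := by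
  classical
  intro a b hab
  have hs : ∀ y, Summable fun v : X => if q v ≤ y then g v else 0 := fun y =>
    summable_of_hasFiniteSupport ((q_fin hq y).subset fun x hx => by
      by_contra h7
      exact hx (if_neg h7))
  show (∑' v, (open Classical in if q v ≤ a then g v else 0)) ≤ ∑' v, (open Classical in if q v ≤ b then g v else 0)
  have e : ∀ y, (∑' v, (open Classical in if q v ≤ y then g v else 0)) = ∑' v, if q v ≤ y then g v else 0 := by
    intro y
    refine tsum_congr fun x => ?_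
    congr
  rw [e, e]
  refine (hs a).tsum_le_tsum (fun v => ?_) (hs b)
  split_ifs with h1 h2 h2
  · exact le_rfl
  · exact absurd (h1.trans hab) h2
  · exact hg v
  · exact le_rfl

theorem step_li (hq : PSys q) {g : X → ℝ} (hg : ∀ v, 0 ≤ g v) :
    LI fun y : ℝ => ∑' v, (open Classical in if q v ≤ y then g v else 0) :=
  fun _ _ => (step_mono hq hg).intervalIntegrable

/-- **one-sided means at the point `c`, general form** -/
theorem crit0 [Countable X] (hq : PSys q) {d : X × ℕ → ℝ}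
    (habs : ∀ t : ℝ, 1 < t → Summable fun y => |d y| * Real.exp (-(t * LG q y)))
    {U V : ℂ → ℂ} (hU : Differentiable ℂ U) (hV : Differentiable ℂ V) (hV1 : ∀ s : ℂ, 1 < s.re → V s ≠ 0)
    (hUV : ∀ s : ℂ, 1 < s.re → U s = V s * cexp (DS d (LG q) s)) {c : ℝ} (hc : 0 < c)
    (hVr : ∀ x : ℝ, c ≤ x → V (x : ℂ) ≠ 0) {T : ℝ → ℝ} (hT : LI T)
    (hg : ∀ y : ℝ, Real.exp 1 ≤ y → -T y ≤ AA (fun x => d x * Real.exp (-(c * LG q x))) (LG q) (Real.log y))
    {δ κ C B : ℝ} (h0 : 0 < δ) (h1 : δ < 1) (hB : Mx δ (fun y => T y - (κ * Real.log (Real.log y) + C)) B) :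
    (∀ s : ℂ, c < s.re → meromorphicOrderAt (fun s => U s / V s) s = 0) ∧
      ∃ m : ℤ, meromorphicOrderAt (fun s => U s / V s) (c : ℂ) = m ∧ (m : ℝ) ≤ κ := by
  set F : ℂ → ℂ := fun s => U s / V s with hFd
  have hFm : ∀ s, MeromorphicAt F s := fun s => (hU.analyticAt s).meromorphicAt.div (hV.analyticAt s).meromorphicAt
  have hF1 : ∀ s : ℂ, 1 < s.re → F s = cexp (DS d (LG q) s) := fun s hs => by
    show U s / V s = _
    rw [hUV s hs, mul_div_cancel_left₀ _ (hV1 s hs)]
  have ha : ∀ s : ℂ, AnalyticAt ℂ (fun s : ℂ => (c : ℂ) + s) s := fun s => by fun_prop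
  have hsh : ∀ s, meromorphicOrderAt (fun s => F ((c : ℂ) + s)) s = meromorphicOrderAt F ((c : ℂ) + s) :=
    fun s => Pool.Agent.Q18.W.ord_shift F (c : ℂ) s
  set D : X × ℕ → ℝ := fun x => d x * Real.exp (-(c * LG q x)) with hD
  have hDabs : ∀ x, |D x| = |d x| * Real.exp (-(c * LG q x)) := fun x => by
    rw [hD]
    simp only
    rw [abs_mul, abs_of_pos (Real.exp_pos _)]
  have hgd : Gd D (LG q) (fun s => F ((c : ℂ) + s)) :=
    { hL := LG_nonneg hq
      abs := fun t ht => by
        refine (habs (c + t) (by linarith)).congr fun x => ?_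
        rw [hDabs, mul_assoc, ← Real.exp_add]
        congr 2
        ring
      exp := fun s hs => by
        rw [hF1 _ (by rw [Complex.add_re, Complex.ofReal_re]; linarith)]
        congr 1
        unfold DS
        refine tsum_congr fun x => ?_
        rw [hD]
        simp only
        push_cast
        rw [mul_assoc, ← Complex.exp_add]
        congr 2
        ring
      mer := fun s _ => (hFm _).comp_analyticAt (ha s)
      mer0 := (hFm _).comp_analyticAt (ha 0) }
  have hli : LI fun y => -AA D (LG q) (Real.log y) := fun Y hY => ((Pool.Agent.Q18.W.bm_log hgd.gro).neg).li Y hY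
  have hMx : Mx δ (fun y => -AA D (LG q) (Real.log y) - (κ * Real.log (Real.log y) + C)) B := by
    have l1 : LI fun y => T y - (κ * Real.log (Real.log y) + C) := fun Y hY =>
      (hT Y hY).sub (Pool.Agent.Q18.W.loglog_li κ C Y hY)
    have l2 : LI fun y => -AA D (LG q) (Real.log y) - (κ * Real.log (Real.log y) + C) := fun Y hY =>
      (hli Y hY).sub (Pool.Agent.Q18.W.loglog_li κ C Y hY)
    exact Pool.Agent.Q18.W.Wm.mono h0 h1 (Pool.Agent.Q18.W.LI.max0 l1) (Pool.Agent.Q18.W.LI.max0 l2) hB fun y hy =>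
      max_le_max (by linarith [hg y hy]) le_rfl
  obtain ⟨f1, m, f2, f3⟩ := hgd.one (T := fun y => -AA D (LG q) (Real.log y)) (K := 0) hli
    (fun y _ => by rw [add_neg_cancel, abs_zero]) (fun x hx => by
      rw [hsh, ← Complex.ofReal_add]
      exact (ord_quot hU hV (hVr _ (by linarith))).1) h0 h1 hMx
  refine ⟨fun s hs => ?_, m, ?_, f3⟩
  · have h2 := f1 (s - c) (by rw [Complex.sub_re, Complex.ofReal_re]; linarith)
    rwa [hsh, add_sub_cancel] at h2
  · rw [hsh, add_zero] at f2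
    exact f2

end gen

variable {P : Type*} {q : P → ℝ} {ι : Type*} [Fintype ι] {n : ℕ}

/-- `-∑_{p ≤ y} log (1 - p^{-c})`, the logarithm of the partial Euler product of the zeta function at `c` -/
noncomputable def zetaLog (c y : ℝ) : ℝ :=
  -∑' p : Nat.Primes, (open Classical in if ((p : ℕ) : ℝ) ≤ y then Real.log (1 - ((p : ℕ) : ℝ) ^ (-c)) else 0)

/-- the terms -/
noncomputable def gT (q : P → ℝ) (R : ℕ) (w : P → ℕ → ℝ) (α : P → Fin n → ℂ) (c : ℝ) : P ⊕ PS ∅ → ℝ :=
  Sum.elim (fun v => w v 0 * ‖∑ i, α v i‖ ^ 2 * q v ^ (-c)) (fun p => (R : ℝ) * Real.log (1 - ((p.1 : ℕ) : ℝ) ^ (-c)))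

/-- `R log ∏_{p ≤ y} (1 - p^{-c})⁻¹ - ∑_{q_v ≤ y} w_v |λ(v)|² q_v^{-c}` -/
noncomputable def TT (q : P → ℝ) (R : ℕ) (w : P → ℕ → ℝ) (α : P → Fin n → ℂ) (c y : ℝ) : ℝ :=
  (R : ℝ) * zetaLog c y -
    ∑' v, (open Classical in if q v ≤ y then w v 0 * ‖∑ i, α v i‖ ^ 2 * q v ^ (-c) else 0)

theorem tt_eq (hq : PSys q) (R : ℕ) (w : P → ℕ → ℝ) (α : P → Fin n → ℂ) (c y : ℝ) :
    TT q R w α c y = -∑' v, (open Classical in if q2 q v ≤ y then gT q R w α c v else 0) := by
  classical
  have hfin : ∀ (x : ℝ) (g : P → ℝ), Summable fun p : P => if q p ≤ x then g p else 0 := fun x g =>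
    summable_of_hasFiniteSupport ((q_fin hq x).subset fun p hp => by
      by_contra h7
      exact hp (if_neg h7))
  have hfin2 : ∀ (x : ℝ) (g : PS ∅ → ℝ), Summable fun p : PS ∅ => if ((p.1 : ℕ) : ℝ) ≤ x then g p else 0 := fun x g =>
    summable_of_hasFiniteSupport ((q_fin (psys ∅) x).subset fun p hp => by
      by_contra h7
      exact hp (if_neg h7))
  have h5 := Summable.tsum_sum (f := fun v : P ⊕ PS ∅ => if q2 q v ≤ y then gT q R w α c v else 0)
    (hfin y fun p => gT q R w α c (Sum.inl p)) (hfin2 y fun p => gT q R w α c (Sum.inr p))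
  have h6 : (∑' v, (open Classical in if q2 q v ≤ y then gT q R w α c v else 0)) =
      ∑' v : P ⊕ PS ∅, if q2 q v ≤ y then gT q R w α c v else 0 := by
    refine tsum_congr fun x => ?_
    congr
  rw [h6, h5]
  unfold TT zetaLog
  have h7 : (∑' p : PS ∅, if ((p.1 : ℕ) : ℝ) ≤ y then gT q R w α c (Sum.inr p) else 0) =
      (R : ℝ) * ∑' p : Nat.Primes, (open Classical in if ((p : ℕ) : ℝ) ≤ y then
        Real.log (1 - ((p : ℕ) : ℝ) ^ (-c)) else 0) := by
    rw [← tsum_mul_left]
    have e := (Equiv.subtypeUnivEquiv (α := Nat.Primes) (p := fun p => p ∉ (∅ : Finset Nat.Primes))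
      (fun p => Finset.notMem_empty p)).tsum_eq (fun p : Nat.Primes =>
        (R : ℝ) * (open Classical in if ((p : ℕ) : ℝ) ≤ y then Real.log (1 - ((p : ℕ) : ℝ) ^ (-c)) else 0))
    rw [← e]
    refine tsum_congr fun p => ?_
    show (if ((p.1 : ℕ) : ℝ) ≤ y then (R : ℝ) * Real.log (1 - ((p.1 : ℕ) : ℝ) ^ (-c)) else 0) =
      (R : ℝ) * (open Classical in if ((p.1 : ℕ) : ℝ) ≤ y then Real.log (1 - ((p.1 : ℕ) : ℝ) ^ (-c)) else 0)
    split_ifs <;> simp
  have h8 : (∑' p : PS ∅, if q2 q (Sum.inr p) ≤ y then gT q R w α c (Sum.inr p) else 0) =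
      ∑' p : PS ∅, if ((p.1 : ℕ) : ℝ) ≤ y then gT q R w α c (Sum.inr p) else 0 := rfl
  have h9 : (∑' v : P, if q2 q (Sum.inl v) ≤ y then gT q R w α c (Sum.inl v) else 0) =
      ∑' v, (open Classical in if q v ≤ y then w v 0 * ‖∑ i, α v i‖ ^ 2 * q v ^ (-c) else 0) := by
    refine tsum_congr fun v => ?_
    show (if q v ≤ y then w v 0 * ‖∑ i, α v i‖ ^ 2 * q v ^ (-c) else 0) = _
    congr
  rw [h8, h7, h9]
  ring

theorem tt_li (hq : PSys q) (R : ℕ) {z : ι → P → ℂ} {w : P → ℕ → ℝ} (hz : Wt z w) (α : P → Fin n → ℂ) {c : ℝ}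
    (hc : 0 < c) : LI (TT q R w α c) := by
  classical
  have h1 : LI fun y : ℝ => ∑' v, (open Classical in if q v ≤ y then w v 0 * ‖∑ i, α v i‖ ^ 2 * q v ^ (-c) else 0) :=
    step_li hq fun v => by
      have := hz.nonneg v 0
      have := (hq.pos v).le
      positivity
  have h2 : LI fun y : ℝ => ∑' p : PS ∅, (open Classical in if ((p.1 : ℕ) : ℝ) ≤ y then
      -Real.log (1 - ((p.1 : ℕ) : ℝ) ^ (-c)) else 0) :=
    step_li (psys ∅) fun p => by
      have hp : (1 : ℝ) < ((p.1 : ℕ) : ℝ) := (psys ∅).one_lt p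
      have h3 : ((p.1 : ℕ) : ℝ) ^ (-c) < 1 := Real.rpow_lt_one_of_one_lt_of_neg hp (by linarith)
      have h4 : 0 < ((p.1 : ℕ) : ℝ) ^ (-c) := Real.rpow_pos_of_pos (by linarith) _
      exact neg_nonneg.2 (Real.log_nonpos (by linarith) (by linarith))
  have e : ∀ y, zetaLog c y = ∑' p : PS ∅, (open Classical in if ((p.1 : ℕ) : ℝ) ≤ y then
      -Real.log (1 - ((p.1 : ℕ) : ℝ) ^ (-c)) else 0) := by
    intro y
    unfold zetaLog
    rw [← tsum_neg]
    have e := (Equiv.subtypeUnivEquiv (α := Nat.Primes) (p := fun p => p ∉ (∅ : Finset Nat.Primes))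
      (fun p => Finset.notMem_empty p)).tsum_eq (fun p : Nat.Primes =>
        -(open Classical in if ((p : ℕ) : ℝ) ≤ y then Real.log (1 - ((p : ℕ) : ℝ) ^ (-c)) else 0))
    rw [← e]
    refine tsum_congr fun p => ?_
    show -(open Classical in if ((p.1 : ℕ) : ℝ) ≤ y then Real.log (1 - ((p.1 : ℕ) : ℝ) ^ (-c)) else 0) = _
    split_ifs <;> simp
  have h3 : TT q R w α c = fun y => (R : ℝ) * (∑' p : PS ∅, (open Classical in if ((p.1 : ℕ) : ℝ) ≤ y then
      -Real.log (1 - ((p.1 : ℕ) : ℝ) ^ (-c)) else 0)) -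
      ∑' v, (open Classical in if q v ≤ y then w v 0 * ‖∑ i, α v i‖ ^ 2 * q v ^ (-c) else 0) := by
    funext y
    unfold TT
    rw [e]
  rw [h3]
  exact fun Y hY => ((h2 Y hY).const_mul _).sub (h1 Y hY)

end Pool.Agent.Q18.P
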