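import Mathlib
import Pool.Agent.Q18.P.RS

/-!
# Rankin-Selberg `L`-functions at a real point `c`: the local parameters
-/

set_option autoImplicit false
set_option linter.unusedSectionVars false

namespace Pool.Agent.Q18.P

open Filter Topology Set Complex MeasureTheory
open Pool.Agent.Q12.WN
open Pool.Agent.W189.TP (DS DS_diff DS_norm_le summ_mono PS LL LL_nonneg zetaS)
open Pool.Agent.TH949.TX (AA VV VV_diff VV_real VV_one)
open Pool.Agent.TH270.MS (LI BM)
open Pool.Agent.Q18.W (Gd Mx)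

variable {P : Type*} {q : P → ℝ} {ι : Type*} [Fintype ι] {n : ℕ}

/-- a real zero of the numerator gives a positive order -/
theorem ord_pos {U V : ℂ → ℂ} (hU : Differentiable ℂ U) (hV : Differentiable ℂ V) {x : ℂ} (hx : V x ≠ 0)
    (h0 : U x = 0) {m : ℤ} (hm : meromorphicOrderAt (fun s => U s / V s) x = m) : 1 ≤ m := by
  obtain ⟨h1, h2⟩ := ord_quot hU hV hx
  have h3 := h2 h0
  rw [hm] at h1 h3
  have h4 : 0 ≤ m := by exact_mod_cast h1
  have h5 : m ≠ 0 := by
    rintro rfl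
    exact h3 rfl
  omega

theorem inner_inl (hq : PSys q) (R : ℕ) {z : ι → P → ℂ} {w : P → ℕ → ℝ} (hz : Wt z w) (α : P → Fin n → ℂ) (c : ℝ)
    {y : ℝ} (hy : 0 < y) (v : P) (hv : q v ≤ y) :
    gT q R w α c (Sum.inl v) ≤ ∑' k : ℕ, (open Classical in if LG (q2 q) (Sum.inl v, k) ≤ Real.log y then
      (fun x => d2 R w α x * Real.exp (-(c * LG (q2 q) x))) (Sum.inl v, k) else 0) := by
  classical
  have hs : Summable fun k : ℕ => (open Classical in if LG (q2 q) (Sum.inl v, k) ≤ Real.log y then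
      (fun x => d2 R w α x * Real.exp (-(c * LG (q2 q) x))) (Sum.inl v, k) else 0) := by
    refine summable_of_hasFiniteSupport ?_
    have h1 := (LG_fin (psys2 hq) (Real.log y)).preimage (f := fun k : ℕ => ((Sum.inl v : P ⊕ PS ∅), k))
      (fun a _ b _ h => (Prod.mk.inj h).2)
    refine h1.subset fun k hk => ?_
    by_contra h7
    exact hk (if_neg h7)
  have h0 : ∀ k : ℕ, 0 ≤ (open Classical in if LG (q2 q) (Sum.inl v, k) ≤ Real.log y then
      (fun x => d2 R w α x * Real.exp (-(c * LG (q2 q) x))) (Sum.inl v, k) else 0) := by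
    intro k
    split_ifs
    · refine mul_nonneg ?_ (Real.exp_pos _).le
      show 0 ≤ w v k * ‖∑ i, α v i ^ (k + 1)‖ ^ 2 / ((k : ℝ) + 1)
      exact div_nonneg (mul_nonneg (hz.nonneg v k) (sq_nonneg _)) (by positivity)
    · exact le_rfl
  refine le_trans (le_of_eq ?_) (hs.le_tsum 0 fun k _ => h0 k)
  rw [if_pos ((LG_le (psys2 hq) hy (Sum.inl v)).2 hv)]
  show w v 0 * ‖∑ i, α v i‖ ^ 2 * q v ^ (-c) =
    w v 0 * ‖∑ i, α v i ^ (0 + 1)‖ ^ 2 / (((0 : ℕ) : ℝ) + 1) * Real.exp (-(c * ((((0 : ℕ) : ℝ) + 1) * Real.log (q v))))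
  rw [Real.rpow_def_of_pos (hq.pos v)]
  simp only [Nat.cast_zero, zero_add, one_mul, pow_one, div_one]
  congr 2
  ring

theorem inner_inr (hq : PSys q) (R : ℕ) (w : P → ℕ → ℝ) (α : P → Fin n → ℂ) {c : ℝ} (hc : 0 < c) {y : ℝ} (p : PS ∅) :
    gT q R w α c (Sum.inr p) ≤ ∑' k : ℕ, (open Classical in if LG (q2 q) (Sum.inr p, k) ≤ Real.log y then
      (fun x => d2 R w α x * Real.exp (-(c * LG (q2 q) x))) (Sum.inr p, k) else 0) := by
  classical
  have hp1 : (1 : ℝ) < ((p.1 : ℕ) : ℝ) := (psys ∅).one_lt p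
  set x : ℝ := ((p.1 : ℕ) : ℝ) ^ (-c) with hx
  have hx0 : 0 < x := Real.rpow_pos_of_pos (by linarith) _
  have hx1 : x < 1 := Real.rpow_lt_one_of_one_lt_of_neg hp1 (by linarith)
  have h1 : HasSum (fun k : ℕ => x ^ (k + 1) / ((k : ℝ) + 1)) (-Real.log (1 - x)) :=
    Real.hasSum_pow_div_log_of_abs_lt_one (by rw [abs_of_pos hx0]; exact hx1)
  have h2 : HasSum (fun k : ℕ => -(R : ℝ) * (x ^ (k + 1) / ((k : ℝ) + 1))) ((R : ℝ) * Real.log (1 - x)) := by
    have := h1.mul_left (-(R : ℝ))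
    rwa [neg_mul_neg] at this
  have hterm : ∀ k : ℕ, (fun x => d2 R w α x * Real.exp (-(c * LG (q2 q) x))) (Sum.inr p, k) =
      -(R : ℝ) * (x ^ (k + 1) / ((k : ℝ) + 1)) := by
    intro k
    show -(R : ℝ) / ((k : ℝ) + 1) * Real.exp (-(c * (((k : ℝ) + 1) * Real.log ((p.1 : ℕ) : ℝ)))) = _
    have e1 : Real.exp (-(c * (((k : ℝ) + 1) * Real.log ((p.1 : ℕ) : ℝ)))) = x ^ (k + 1) := by
      rw [hx, Real.rpow_def_of_pos (by linarith), ← Real.exp_nat_mul]
      congr 1
      push_cast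
      ring
    rw [e1]
    ring
  have hs : Summable fun k : ℕ => (open Classical in if LG (q2 q) (Sum.inr p, k) ≤ Real.log y then
      (fun x => d2 R w α x * Real.exp (-(c * LG (q2 q) x))) (Sum.inr p, k) else 0) := by
    refine summable_of_hasFiniteSupport ?_
    have h1 := (LG_fin (psys2 hq) (Real.log y)).preimage (f := fun k : ℕ => ((Sum.inr p : P ⊕ PS ∅), k))
      (fun a _ b _ h => (Prod.mk.inj h).2)
    refine h1.subset fun k hk => ?_
    by_contra h7
    exact hk (if_neg h7)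
  show (R : ℝ) * Real.log (1 - x) ≤ _
  rw [← h2.tsum_eq]
  refine h2.summable.tsum_le_tsum (fun k => ?_) hs
  have hR : (0 : ℝ) ≤ R := Nat.cast_nonneg _
  have h5 : -(R : ℝ) * (x ^ (k + 1) / ((k : ℝ) + 1)) ≤ 0 := by
    have : 0 ≤ x ^ (k + 1) / ((k : ℝ) + 1) := by positivity
    nlinarith
  split_ifs
  · exact (hterm k).ge
  · exact h5

theorem inner (hq : PSys q) (R : ℕ) {z : ι → P → ℂ} {w : P → ℕ → ℝ} (hz : Wt z w) (α : P → Fin n → ℂ) {c : ℝ}
    (hc : 0 < c) {y : ℝ} (hy : 0 < y) (v : P ⊕ PS ∅) (hv : q2 q v ≤ y) :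
    gT q R w α c v ≤ ∑' k : ℕ, (open Classical in if LG (q2 q) (v, k) ≤ Real.log y then
      (fun x => d2 R w α x * Real.exp (-(c * LG (q2 q) x))) (v, k) else 0) := by
  rcases v with v | p
  · exact inner_inl hq R hz α c hy v hv
  · exact inner_inr hq R w α hc p

/-- **one-sided means at the point `c`: zeros, order, local parameters** -/
theorem crit_pi [Countable P] (hq : PSys q) {z : ι → P → ℂ} {w : P → ℕ → ℝ} (hz : Wt z w)
    {α : P → Fin n → ℂ} (h0 : ∀ p i, α p i ≠ 0)
    (hu : ∀ p, ∃ τ : Equiv.Perm (Fin n), ∀ i, α p (τ i) = ((starRingEnd ℂ) (α p i))⁻¹)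
    (hsum : ∀ σ : ℝ, 1 < σ → Summable fun x : P × ℕ =>
      ‖∑ i, α x.1 i ^ (x.2 + 1)‖ ^ 2 / ((x.2 : ℝ) + 1) * (q x.1 ^ (-σ)) ^ (x.2 + 1)) {e : ι → ℕ} {U : ι → ℂ → ℂ}
    (h : ∀ j, TwU q (e j) (z j) α (U j)) {c : ℝ} (hc : 0 < c) {δ κ B : ℝ} (hδ : 0 < δ) (hδ1 : δ < 1)
    (hB : Mx δ (fun y => TT q (∑ j, e j) w α c y - κ * Real.log (Real.log y)) B) :
    (∀ s : ℂ, c < s.re → meromorphicOrderAt (fun s => (∏ j, U j s) / VV ∅ s ^ (∑ j, e j)) s = 0) ∧
    (∃ m : ℤ, meromorphicOrderAt (fun s => (∏ j, U j s) / VV ∅ s ^ (∑ j, e j)) (c : ℂ) = m ∧ (m : ℝ) ≤ κ) ∧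
    (∀ (p : P) (i : Fin n), 2 * |Real.logb (q p) ‖α p i‖| ≤ c) ∧
    (∀ j (x : ℝ), c < x → U j (x : ℂ) ≠ 0) ∧
    (κ < 1 → (∀ (p : P) (i : Fin n), 2 * |Real.logb (q p) ‖α p i‖| < c) ∧ ∀ j, U j (c : ℂ) ≠ 0) := by
  classical
  set R : ℕ := ∑ j, e j with hR
  have dU : Differentiable ℂ fun s => ∏ j, U j s := Differentiable.fun_finsetProd fun j _ => (h j).dU
  have dV : Differentiable ℂ fun s => VV ∅ s ^ R := (VV_diff ∅).pow R
  have hVx : ∀ x : ℝ, c ≤ x → (fun s => VV ∅ s ^ R) (x : ℂ) ≠ 0 := fun x hx =>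
    pow_ne_zero R (VV_real (by linarith))
  have hV1 : ∀ s : ℂ, 1 < s.re → (fun s => VV ∅ s ^ R) s ≠ 0 := fun s hs => pow_ne_zero R (VV_one hs)
  have hsd : ∀ t : ℝ, 1 < t → Summable fun y : (P ⊕ PS ∅) × ℕ => |d2 R w α y| * Real.exp (-(t * LG (q2 q) y)) :=
    fun t ht => d2_summ R hq hz hsum ht
  have hUV : ∀ s : ℂ, 1 < s.re → (fun s => ∏ j, U j s) s = (fun s => VV ∅ s ^ R) s * cexp (DS (d2 R w α) (LG (q2 q)) s) :=
    fun s hs => assemble2 hq hz hsum h hs
  have hli := tt_li hq R hz α hc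
  have hMx0 : Mx δ (fun y => TT q R w α c y - (κ * Real.log (Real.log y) + 0)) B := by
    simpa only [add_zero] using hB
  obtain ⟨f1, m, f2, f3⟩ := crit0 (psys2 hq) hsd dU dV hV1 hUV hc hVx hli (fun y hy => by
    rw [tt_eq hq, neg_neg]
    have hy0 : 0 < y := (Real.exp_pos 1).trans_le hy
    exact aa_ge (psys2 hq) hy0 fun v hv => inner hq R hz α hc hy0 v hv) hδ hδ1 hMx0
  have hUz : ∀ j (x : ℝ), c ≤ x → U j (x : ℂ) = 0 → (fun s => ∏ j, U j s) (x : ℂ) = 0 := fun j x _ hx =>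
    Finset.prod_eq_zero (Finset.mem_univ j) hx
  -- the local parameters
  have hloc : ∀ (v : P) (i' : Fin n) (θ : ℝ), c ≤ 2 * θ → ‖α v i'‖ = q v ^ θ → 2 * θ = c ∧ 1 ≤ κ := by
    intro v i' θ hθ hi'
    have hp0 : (0 : ℝ) < q v := hq.pos v
    have hp1 : (1 : ℝ) < q v := hq.one_lt v
    set Z : ℂ → ℂ := fun s => cexp (-(s * Real.log (q v))) with hZ
    have hZd : Differentiable ℂ Z := by
      rw [hZ]
      fun_prop
    have hZn : ∀ s : ℂ, 0 < s.re → ‖Z s‖ < 1 := fun s hs => by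
      rw [hZ]
      simp only
      rw [norm_Z hq]
      exact Real.rpow_lt_one_of_one_lt_of_neg hp1 (by linarith)
    set zz : ι → ℂ := fun j => z j v with hzz
    have hAd : Differentiable ℂ fun s => LA zz (α v) (Z s) := by
      unfold LA
      fun_prop
    obtain ⟨j₀, hj₀⟩ := hz.triv
    have hg0 : 0 ≤ gT q R w α c (Sum.inl v) := by
      show 0 ≤ w v 0 * ‖∑ i, α v i‖ ^ 2 * q v ^ (-c)
      have := hz.nonneg v 0
      positivity
    set C1 : ℝ := gT q R w α c (Sum.inl v) with hC1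
    have hli2 : LI fun y => TT q R w α c y + C1 := hli.add (Pool.Agent.TH270.MS.LI.const C1)
    have hMx2 : Mx δ (fun y => TT q R w α c y + C1 - (κ * Real.log (Real.log y) + C1)) B := by
      refine hB.mono fun Y hY => ?_
      refine le_of_eq_of_le ?_ hY
      refine intervalIntegral.integral_congr fun y _ => ?_
      simp only
      congr 2
      ring
    obtain ⟨g1, m', g2, g3⟩ := crit0 (psys2 hq) (d := cut (d2 R w α) (Sum.inl v))
      (fun t ht => cut_summ (Sum.inl v) (hsd t ht))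
      (U := fun s => (∏ j, U j s) * LA zz (α v) (Z s)) (V := fun s => VV ∅ s ^ R) (dU.mul hAd) dV hV1
      (fun s hs => by
        have h1 := local_exp 0 (a := α v) (z := zz) (fun j => hz.le_one j v) (w := w v) (fun k => hz.eq v k)
          (Z := Z s) (hZn s (by linarith)) (fun i => by
            rw [hZ]
            simp only
            rw [norm_Z hq]
            exact norm_bd hq hsum v i hs)
        rw [pow_zero] at h1
        have h2 := ds_split (L := LG (q2 q)) (d := d2 R w α) (Sum.inl v) (s := s) (by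
          refine Summable.of_norm ((hsd s.re hs).congr fun x => ?_)
          rw [norm_mul, Complex.norm_exp, Complex.norm_real, Real.norm_eq_abs]
          congr 2
          rw [Complex.neg_re, Complex.re_mul_ofReal])
        have h3 : ∑' k : ℕ, (d2 R w α (Sum.inl v, k) : ℂ) * cexp (-(s * LG (q2 q) (Sum.inl v, k))) =
            ∑' k : ℕ, ((w v k * (‖∑ i, α v i ^ (k + 1)‖ ^ 2 - ((0 : ℕ) : ℝ)) / ((k : ℝ) + 1) : ℝ) : ℂ) * Z s ^ (k + 1) := by
          refine tsum_congr fun k => ?_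
          rw [cexp_LG, Nat.cast_zero, sub_zero]
          rfl
        rw [h3] at h2
        have h4 := hUV s hs
        simp only at h4
        rw [h4, h2, Complex.exp_add]
        linear_combination (VV ∅ s ^ R * cexp (DS (cut (d2 R w α) (Sum.inl v)) (LG (q2 q)) s)) * h1) hc hVx hli2
      (fun y hy => by
        have hy0 : 0 < y := (Real.exp_pos 1).trans_le hy
        set g' : P ⊕ PS ∅ → ℝ := fun x => if x = Sum.inl v then 0 else gT q R w α c x with hg'
        have h5 : (∑' x, (open Classical in if q2 q x ≤ y then g' x else 0)) ≤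
            AA (fun x => cut (d2 R w α) (Sum.inl v) x * Real.exp (-(c * LG (q2 q) x))) (LG (q2 q)) (Real.log y) := by
          refine aa_ge (psys2 hq) hy0 fun x hx => ?_
          by_cases hxv : x = Sum.inl v
          · rw [hg']
            simp only [hxv, if_true]
            refine tsum_nonneg fun k => ?_
            split_ifs
            · simp [cut]
            · exact le_rfl
          · rw [hg']
            simp only [hxv, if_false]
            refine (inner hq R hz α hc hy0 x hx).trans (le_of_eq ?_)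
            refine tsum_congr fun k => ?_
            simp only [cut, hxv, if_false]
        refine le_trans ?_ h5
        have hfs : ∀ f : P ⊕ PS ∅ → ℝ, Summable fun x : P ⊕ PS ∅ => (open Classical in if q2 q x ≤ y then f x else 0) :=
          fun f => summable_of_hasFiniteSupport ((q_fin (psys2 hq) y).subset fun x hx => by
            by_contra h7
            exact hx (if_neg h7))
        have h6 : (∑' x, (open Classical in if q2 q x ≤ y then gT q R w α c x else 0)) ≤
            (∑' x, (open Classical in if q2 q x ≤ y then g' x else 0)) + C1 := by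
          have h7 : (∑' x : P ⊕ PS ∅, if x = Sum.inl v then C1 else 0) = C1 := tsum_ite_eq _ _
          have h8 : Summable fun x : P ⊕ PS ∅ => if x = Sum.inl v then C1 else (0 : ℝ) :=
            summable_of_hasFiniteSupport ((Set.finite_singleton (Sum.inl v : P ⊕ PS ∅)).subset fun x hx => by
              by_contra h7
              exact hx (if_neg h7))
          conv_rhs => rw [← h7]
          rw [← (hfs g').tsum_add h8]
          refine (hfs _).tsum_le_tsum (fun x => ?_) ((hfs g').add h8)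
          by_cases hxv : x = Sum.inl v
          · rw [hg']
            simp only [hxv, if_true]
            split_ifs <;> linarith
          · rw [hg']
            simp only [hxv, if_false, add_zero]
            exact le_rfl
        rw [tt_eq hq]
        linarith) hδ hδ1 hMx2
    have hzero : (fun s => (∏ j, U j s) * LA zz (α v) (Z s)) ((2 * θ : ℝ) : ℂ) = 0 := by
      refine mul_eq_zero_of_right _ ?_
      unfold LA
      refine Finset.prod_eq_zero (Finset.mem_univ j₀) (Finset.prod_eq_zero (Finset.mem_univ (i', i')) ?_)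
      simp only
      rw [Complex.mul_conj, Complex.normSq_eq_norm_sq, hi', sub_eq_zero, hzz, hZ]
      simp only
      rw [hj₀, one_mul, ← Complex.ofReal_mul, ← Complex.ofReal_neg, ← Complex.ofReal_exp, ← Complex.ofReal_mul]
      have e1 : (q v ^ θ) ^ 2 * Real.exp (-(2 * θ * Real.log (q v))) = 1 := by
        rw [Real.rpow_def_of_pos hp0, ← Real.exp_nat_mul, ← Real.exp_add]
        rw [show ((2 : ℕ) : ℝ) * (Real.log (q v) * θ) + -(2 * θ * Real.log (q v)) = 0 by push_cast; ring,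
          Real.exp_zero]
      rw [e1]
      simp
    have hle : 2 * θ = c := by
      by_contra hne
      have hlt : c < 2 * θ := lt_of_le_of_ne hθ (Ne.symm hne)
      have h8 := g1 ((2 * θ : ℝ) : ℂ) (by rw [Complex.ofReal_re]; exact hlt)
      exact (ord_quot (dU.mul hAd) dV (hVx _ hθ)).2 hzero h8
    refine ⟨hle, ?_⟩
    rw [hle] at hzero
    have h9 : (1 : ℤ) ≤ m' := ord_pos (dU.mul hAd) dV (hVx c le_rfl) hzero g2
    have h10 : (1 : ℝ) ≤ m' := by exact_mod_cast h9
    linarith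
  have hloc2 : ∀ (v : P) (i : Fin n), c ≤ 2 * |Real.logb (q v) ‖α v i‖| →
      2 * |Real.logb (q v) ‖α v i‖| = c ∧ 1 ≤ κ := by
    intro v i hv
    have hp0 : (0 : ℝ) < q v := hq.pos v
    have hp1 : (1 : ℝ) < q v := hq.one_lt v
    set t : ℝ := Real.logb (q v) ‖α v i‖ with ht
    have h0' : 0 < ‖α v i‖ := norm_pos_iff.2 (h0 v i)
    have h1 : q v ^ t = ‖α v i‖ := Real.rpow_logb hp0 hp1.ne' h0'
    rcases le_total 0 t with h2 | h2
    · rw [abs_of_nonneg h2] at hv ⊢
      exact hloc v i t hv h1.symm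
    · rw [abs_of_nonpos h2] at hv ⊢
      obtain ⟨τ, hτ⟩ := hu v
      refine hloc v (τ i) (-t) hv ?_
      rw [hτ, norm_inv, RCLike.norm_conj, ← h1, Real.rpow_neg hp0.le]
  refine ⟨f1, ⟨m, f2, f3⟩, fun p i => ?_, fun j x hx h0 => ?_, fun hκ => ⟨fun p i => ?_, fun j h0 => ?_⟩⟩
  · rcases le_total c (2 * |Real.logb (q p) ‖α p i‖|) with h1 | h1
    · exact (hloc2 p i h1).1.le
    · exact h1
  · exact (ord_quot dU dV (hVx x hx.le)).2 (hUz j x hx.le h0) (f1 x (by rw [Complex.ofReal_re]; exact hx))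
  · by_contra h1
    push Not at h1
    linarith [(hloc2 p i h1).2]
  · have h9 : (1 : ℤ) ≤ m := ord_pos dU dV (hVx c le_rfl) (hUz j c le_rfl h0) f2
    have h10 : (1 : ℝ) ≤ m := by exact_mod_cast h9
    linarith

end Pool.Agent.Q18.P
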