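import Mathlib
import Pool.Agent.Q18.P.RS2

/-!
# Isobaric representations of `GL_n` over a number field: one-sided means at the point `c`
-/

set_option autoImplicit false
set_option linter.unusedSectionVars false

namespace Pool.Agent.Q18.P

open Filter Topology Set Complex MeasureTheory NumberField IsDedekindDomain
open Pool.Agent.Q12.WN
open Pool.Agent.W189.TP (DS DS_diff DS_norm_le summ_mono PS LL LL_nonneg zetaS)
open Pool.Agent.TH949.TX (AA VV VV_diff VV_real VV_one)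
open Pool.Agent.TH861.GL3 (PL qq two_le_qq summable_qq)
open Pool.Agent.Q18.W (Gd Mx)

/-- `∫_{Y^{1-δ}}^Y max(T(y) - κ log log y, 0) dy / y ≤ B log Y` for arbitrarily large `Y` -/
def OneSidedMean (δ κ B : ℝ) (T : ℝ → ℝ) : Prop :=
  ∀ Y₀ : ℝ, ∃ Y : ℝ, Y₀ ≤ Y ∧
    ∫ y in (Y ^ (1 - δ))..Y, max (T y - κ * Real.log (Real.log y)) 0 / y ≤ B * Real.log Y

theorem OneSidedMean.mx {δ κ B : ℝ} {T : ℝ → ℝ} (h : OneSidedMean δ κ B T) :
    Mx δ (fun y => T y - κ * Real.log (Real.log y)) B := by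
  refine Filter.frequently_atTop.2 fun a => ?_
  obtain ⟨Y, h1, h2⟩ := h a
  exact ⟨Y, h1, h2⟩

/-- the quotient by the powers of zeta -/
theorem quot_order {P : Type*} {q : P → ℝ} {ι : Type*} [Fintype ι] {n : ℕ} {z : ι → P → ℂ}
    {α : P → Fin n → ℂ} {e : ι → ℕ} {U : ι → ℂ → ℂ} (hT : ∀ j, TwU q (e j) (z j) α (U j)) {F : ℂ → ℂ}
    (hF : MeromorphicOn F univ)
    (hFE : ∀ s : ℂ, 1 < s.re → F s * riemannZeta s ^ (∑ j, e j) =
      cexp (∑ j, ser q (z j) (fun p k => ‖∑ i, α p i ^ k‖ ^ 2) s)) (ρ : ℂ) :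
    meromorphicOrderAt F ρ = meromorphicOrderAt (fun s => (∏ j, U j s) / VV ∅ s ^ (∑ j, e j)) ρ := by
  have dU : Differentiable ℂ fun s => ∏ j, U j s := Differentiable.fun_finsetProd fun j _ => (hT j).dU
  have dV : Differentiable ℂ fun s => VV ∅ s ^ (∑ j, e j) := (VV_diff ∅).pow _
  have hF0 : MeromorphicOn (fun s => (∏ j, U j s) / VV ∅ s ^ (∑ j, e j)) univ := fun s _ =>
    (dU.analyticAt s).meromorphicAt.div (dV.analyticAt s).meromorphicAt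
  refine Pool.Agent.TH949.TX.order_eq hF hF0 (fun s hs => ?_) ρ
  have hs1 : s ≠ 1 := by
    rintro rfl
    simp at hs
  have h2 : (s - 1) ^ (∑ j, e j) ≠ 0 := pow_ne_zero _ (sub_ne_zero.2 hs1)
  have h3 : riemannZeta s ^ (∑ j, e j) ≠ 0 := pow_ne_zero _ (riemannZeta_ne_zero_of_one_le_re hs.le)
  have hb : Pool.Agent.W189.TP.bad ∅ (fun _ (_ : Fin 1) => (1 : ℂ)) s = 1 := by
    unfold Pool.Agent.W189.TP.bad
    simp
  have hV : VV ∅ s = (s - 1) * riemannZeta s := by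
    unfold VV
    rw [Pool.Agent.H437R2.z1_of_ne hs1, hb, mul_one]
  have hU : ∏ j, U j s = (s - 1) ^ (∑ j, e j) *
      cexp (∑ j, ser q (z j) (fun p k => ‖∑ i, α p i ^ k‖ ^ 2) s) := by
    rw [Finset.prod_congr rfl fun j _ => (hT j).eU s hs, Finset.prod_mul_distrib, Finset.prod_pow_eq_pow_sum,
      Complex.exp_sum]
  rw [hU, ← hFE s hs, hV, mul_pow]
  field_simp

variable {K : Type*} [Field K] [NumberField K] {S : Finset (HeightOneSpectrum (𝓞 K))} {n : ℕ}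

open scoped Classical in
/-- `R log ∏_{p ≤ y} (1 - p^{-c})⁻¹ - ∑_{N v ≤ y, v ∉ S} w(v) |λ(v)|² (N v)^{-c}` -/
noncomputable def diffK (α : PL S → Fin n → ℂ) (w : PL S → ℝ) (R : ℕ) (c y : ℝ) : ℝ :=
  (R : ℝ) * zetaLog c y -
    ∑' v : PL S, if (qq v.1 : ℝ) ≤ y then w v * ‖∑ i, α v i‖ ^ 2 * (qq v.1 : ℝ) ^ (-c) else 0

/-- **One-sided means of the Rankin-Selberg sum at `c` over a number field.** -/
theorem nf_crit {r : ℕ} {α : PL S → Fin n → ℂ} {β : HeightOneSpectrum (𝓞 K) → Fin (n ^ 2) → ℂ}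
    {κ : Fin (n ^ 2 * Module.finrank ℚ K) → ℂ} (h : IsobaricRepK S r α β κ) {c : ℝ} (hc : 0 < c)
    {ι : Type*} [Fintype ι] {χ : ι → PL S → ℂ} {e : ι → ℕ} {j₀ : ι} (hj₀ : ∀ v, χ j₀ v = 1)
    (hχ : ∀ j, ((∀ v, χ j v = 1) ∧ e j = r) ∨ (j ≠ j₀ ∧ TwistK α (χ j) (e j)))
    (hw : ∀ (v : PL S) (k : ℕ), ∃ w : ℝ, 0 ≤ w ∧ ∑ j, χ j v ^ (k + 1) = (w : ℂ))
    {δ ρ B : ℝ} (hδ : 0 < δ) (hδ1 : δ < 1)
    (hB : OneSidedMean δ ρ B (diffK α (fun v => (∑ j, χ j v).re) (∑ j, e j) c)) :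
    (∀ (v : PL S) (i : Fin n), 2 * |Real.logb (qq v.1 : ℝ) ‖α v i‖| ≤ c) ∧
    (∀ v ∈ S, ∀ (i : Fin (n ^ 2)) (x : ℝ), β v i = ((qq v : ℕ) : ℂ) ^ (x : ℂ) → x ≤ c) ∧
    (∀ (j : Fin (n ^ 2 * Module.finrank ℚ K)) (x : ℝ), κ j = -(x : ℂ) → x ≤ c) ∧
    (ρ < 1 → (∀ (v : PL S) (i : Fin n), 2 * |Real.logb (qq v.1 : ℝ) ‖α v i‖| < c) ∧
      (∀ v ∈ S, ∀ (i : Fin (n ^ 2)) (x : ℝ), β v i = ((qq v : ℕ) : ℂ) ^ (x : ℂ) → x < c) ∧
      (∀ (j : Fin (n ^ 2 * Module.finrank ℚ K)) (x : ℝ), κ j = -(x : ℂ) → x < c)) ∧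
    (∀ F : ℂ → ℂ, MeromorphicOn F Set.univ →
      (∀ s : ℂ, 1 < s.re → F s * riemannZeta s ^ (∑ j, e j) = Complex.exp (∑ j, logK (χ j) (tr2 α) s)) →
      (∀ s : ℂ, c < s.re → meromorphicOrderAt F s = 0) ∧
      ∃ m : ℤ, meromorphicOrderAt F (c : ℂ) = m ∧ (m : ℝ) ≤ ρ) := by
  have : Countable (HeightOneSpectrum (𝓞 K)) := Pool.Agent.TH861.GL3.countable_primes K
  obtain ⟨G, Ξ, Q, hG, hΞ, hQ, hE, hid⟩ := h.continuation
  choose w0 hw0 hw1 using hw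
  have hbd := badK_diff (S := S) β
  have hex : ∀ j, ∃ (U : ℂ → ℂ), TwU (fun v : PL S => (qq v.1 : ℝ)) (e j) (χ j) α U ∧
      (j = j₀ → ∀ s, U s = G s * badK S β s) := by
    intro j
    rcases hχ j with ⟨hj, he⟩ | ⟨hj, h1⟩
    · have hj' : χ j = fun _ => 1 := funext hj
      refine ⟨fun s => G s * badK S β s, ⟨hG.mul hbd, fun s hs => ?_⟩, fun _ s => rfl⟩
      rw [hE s hs, logK_eq, hj', he]
      rfl
    · obtain ⟨U, hU, hU1⟩ := h1.twist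
      refine ⟨U, ⟨hU, fun s hs => ?_⟩, fun h2 => absurd h2 hj⟩
      rw [hU1 s hs, logK_eq]
      rfl
  choose U hT hUj using hex
  have hwt : Wt (ι := ι) (fun j (v : PL S) => χ j v) w0 :=
    { le_one := fun j v => by
        rcases hχ j with ⟨h1, -⟩ | ⟨-, h1⟩
        · rw [h1 v, norm_one]
        · exact h1.norm v
      eq := fun v k => hw1 v k
      nonneg := fun v k => hw0 v k
      triv := ⟨j₀, hj₀⟩ }
  have hsum : ∀ σ : ℝ, 1 < σ → Summable fun x : PL S × ℕ =>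
      ‖∑ i, α x.1 i ^ (x.2 + 1)‖ ^ 2 / ((x.2 : ℝ) + 1) * ((fun v : PL S => (qq v.1 : ℝ)) x.1 ^ (-σ)) ^ (x.2 + 1) :=
    fun σ hσ => h.summable σ hσ
  have hTT : ∀ y, TT (fun v : PL S => (qq v.1 : ℝ)) (∑ j, e j) w0 α c y =
      diffK α (fun v => (∑ j, χ j v).re) (∑ j, e j) c y := by
    intro y
    unfold TT diffK
    congr 1
    refine tsum_congr fun v => ?_
    have e1 : (∑ j, χ j v).re = w0 v 0 := by
      have := hw1 v 0
      simp only [zero_add, pow_one] at this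
      rw [this, Complex.ofReal_re]
    simp only [e1]
  have hMx : Mx δ (fun y => TT (fun v : PL S => (qq v.1 : ℝ)) (∑ j, e j) w0 α c y - ρ * Real.log (Real.log y)) B := by
    have := hB.mx
    simpa only [hTT] using this
  obtain ⟨k1, k2, k3, k4, k5⟩ := crit_pi (P := PL S) (psysK S) hwt h.ne_zero h.unitary hsum hT hc hδ hδ1 hMx
  refine ⟨k3, fun v hv i x hx => ?_, fun j x hx => ?_, fun hρ => ⟨(k5 hρ).1, fun v hv i x hx => ?_, fun j x hx => ?_⟩,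
    fun F hF hFE => ?_⟩
  · by_contra h1
    push Not at h1
    refine k4 j₀ x h1 ?_
    rw [hUj j₀ rfl, badK_zero hv hx, mul_zero]
  · by_contra h1
    push Not at h1
    refine k4 j₀ x h1 ?_
    rw [hUj j₀ rfl, xi_zero hQ hG hΞ r hid hx (by linarith), zero_mul]
  · by_contra h1
    push Not at h1
    rcases h1.lt_or_eq with h1 | h1
    · refine k4 j₀ x h1 ?_
      rw [hUj j₀ rfl, badK_zero hv hx, mul_zero]
    · refine (k5 hρ).2 j₀ ?_
      rw [h1, hUj j₀ rfl, badK_zero hv hx, mul_zero]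
  · by_contra h1
    push Not at h1
    rcases h1.lt_or_eq with h1 | h1
    · refine k4 j₀ x h1 ?_
      rw [hUj j₀ rfl, xi_zero hQ hG hΞ r hid hx (by linarith), zero_mul]
    · refine (k5 hρ).2 j₀ ?_
      rw [h1, hUj j₀ rfl, xi_zero hQ hG hΞ r hid hx (by linarith), zero_mul]
  · have hq : ∀ s : ℂ, meromorphicOrderAt F s =
        meromorphicOrderAt (fun s => (∏ j, U j s) / VV ∅ s ^ (∑ j, e j)) s :=
      quot_order hT hF fun s hs => by
        rw [hFE s hs]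
        congr 1
        refine Finset.sum_congr rfl fun j _ => ?_
        rw [logK_eq]
        rfl
    refine ⟨fun s hs => by rw [hq]; exact k1 s hs, ?_⟩
    rw [hq]
    exact k2

end Pool.Agent.Q18.P
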