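import Mathlib
import Pool.Agent.Q18.P.Base

/-!
# Euler products over number fields with complex coefficients

No reality condition: the laws of `Base` are applied to `F(s) conj F(conj s)`.
-/

set_option autoImplicit false
set_option linter.unusedSectionVars false

namespace Pool.Agent.Q18.P

open Filter Topology Set Complex NumberField IsDedekindDomain MeasureTheory ComplexConjugate
open Pool.Agent.TH270.MS (LI)

variable {K : Type} [Field K] [NumberField K] {N : ℕ}

/-- The roots `α v j`, `v ∉ S`, have absolute value at most `q_v^{i/2}`. -/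
def Bdd (i : ℕ) (S : Finset (HeightOneSpectrum (𝓞 K))) (α : HeightOneSpectrum (𝓞 K) → Fin N → ℂ) : Prop :=
  ∀ v, v ∉ S → ∀ j, ‖α v j‖ ≤ (norm v : ℝ) ^ ((i : ℝ) / 2)

/-- `F` has no zeros and no poles with `Re s > c`, up to cancellation between `s` and its conjugate. -/
def FreePair (c : ℝ) (F : ℂ → ℂ) : Prop :=
  ∀ s : ℂ, c < s.re → meromorphicOrderAt F s + meromorphicOrderAt F (conj s) = 0

/-! ### conjugate functions -/

/-- `conj F(conj s)` -/
noncomputable def cj (F : ℂ → ℂ) (s : ℂ) : ℂ := conj (F (conj s))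

theorem cj_analytic {g : ℂ → ℂ} {x : ℂ} (h : AnalyticAt ℂ g x) : AnalyticAt ℂ (cj g) (conj x) := by
  rw [Complex.analyticAt_iff_eventually_differentiableAt] at h ⊢
  have h1 : Tendsto (fun z : ℂ => conj z) (𝓝 (conj x)) (𝓝 x) := by
    have := (Complex.continuous_conj.tendsto (conj x))
    rwa [Complex.conj_conj] at this
  filter_upwards [h1.eventually h] with z hz
  have h2 := hz.conj_conj
  rw [Complex.conj_conj] at h2
  exact h2

theorem tendsto_conj_ne (x : ℂ) : Tendsto (fun z : ℂ => conj z) (𝓝[≠] (conj x)) (𝓝[≠] x) := by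
  refine tendsto_nhdsWithin_iff.2 ⟨?_, ?_⟩
  · have := (Complex.continuous_conj.tendsto (conj x))
    rw [Complex.conj_conj] at this
    exact this.mono_left nhdsWithin_le_nhds
  · filter_upwards [self_mem_nhdsWithin] with z hz
    intro h
    refine hz ?_
    have h' : conj z = x := h
    show z = conj x
    rw [← h', Complex.conj_conj]

theorem cj_mero {F : ℂ → ℂ} {x : ℂ} (hF : MeromorphicAt F x) :
    MeromorphicAt (cj F) (conj x) ∧ meromorphicOrderAt (cj F) (conj x) = meromorphicOrderAt F x := by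
  by_cases ht : meromorphicOrderAt F x = ⊤
  · have h1 := meromorphicOrderAt_eq_top_iff.1 ht
    have h2 : ∀ᶠ z in 𝓝[≠] (conj x), cj F z = 0 := by
      filter_upwards [(tendsto_conj_ne x).eventually h1] with z hz
      unfold cj
      rw [hz, map_zero]
    have h3 : MeromorphicAt (cj F) (conj x) := by
      refine (MeromorphicAt.const (0 : ℂ) (conj x)).congr ?_
      filter_upwards [h2] with z hz
      rw [hz]
    exact ⟨h3, by rw [ht]; exact meromorphicOrderAt_eq_top_iff.2 h2⟩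
  · obtain ⟨m, hm⟩ := WithTop.ne_top_iff_exists.1 ht
    obtain ⟨g, hg, hg0, he⟩ := (meromorphicOrderAt_eq_int_iff hF).1 hm.symm
    have h2 : ∀ᶠ z in 𝓝[≠] (conj x), cj F z = (z - conj x) ^ m • cj g z := by
      filter_upwards [(tendsto_conj_ne x).eventually he] with z hz
      unfold cj
      rw [hz, smul_eq_mul, smul_eq_mul, map_mul, map_zpow₀, map_sub, Complex.conj_conj]
    have hg' := cj_analytic hg
    have hg0' : cj g (conj x) ≠ 0 := by
      unfold cj
      rw [Complex.conj_conj]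
      exact (map_ne_zero _).2 hg0
    have h4 : MeromorphicAt (fun z : ℂ => (z - conj x) ^ m • cj g z) (conj x) := by
      have : MeromorphicAt (fun z : ℂ => (z - conj x)) (conj x) := by fun_prop
      exact (this.zpow m).smul hg'.meromorphicAt
    have h3 : MeromorphicAt (cj F) (conj x) := by
      refine h4.congr ?_
      filter_upwards [h2] with z hz
      rw [hz]
    exact ⟨h3, by rw [← hm]; exact (meromorphicOrderAt_eq_int_iff h3).2 ⟨cj g, hg', hg0', h2⟩⟩

/-! ### doubling -/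

/-- the roots `α_j` and `conj α_j` -/
noncomputable def dbl (α : HeightOneSpectrum (𝓞 K) → Fin N → ℂ) (v : HeightOneSpectrum (𝓞 K)) : Fin (N + N) → ℂ :=
  Fin.append (α v) (fun j => conj (α v j))

variable {i : ℕ} {c : ℝ} {S : Finset (HeightOneSpectrum (𝓞 K))} {α : HeightOneSpectrum (𝓞 K) → Fin N → ℂ} {F : ℂ → ℂ}

theorem sum_dbl (v : HeightOneSpectrum (𝓞 K)) (k : ℕ) :
    ∑ j, dbl α v j ^ k = ((2 * (∑ j, α v j ^ k).re : ℝ) : ℂ) := by
  unfold dbl
  rw [Fin.sum_univ_add]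
  simp only [Fin.append_left, Fin.append_right]
  have h1 : ∑ j, conj (α v j) ^ k = conj (∑ j, α v j ^ k) := by
    rw [map_sum]
    exact Finset.sum_congr rfl fun j _ => (map_pow _ _ _).symm
  rw [h1, Complex.add_conj]

theorem dbl_pure (h : Bdd i S α) : Pure i S (dbl α) where
  le := fun v hv j => by
    unfold dbl
    refine Fin.addCases (fun j => ?_) (fun j => ?_) j
    · rw [Fin.append_left]
      exact h v hv j
    · rw [Fin.append_right, RCLike.norm_conj]
      exact h v hv j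
  real := fun v _ k => by rw [sum_dbl, Complex.ofReal_im]

theorem prod_dbl (v : HeightOneSpectrum (𝓞 K)) (z : ℂ) :
    ∏ j, (1 - dbl α v j * z) = (∏ j, (1 - α v j * z)) * conj (∏ j, (1 - α v j * conj z)) := by
  unfold dbl
  rw [Fin.prod_univ_add]
  simp only [Fin.append_left, Fin.append_right]
  rw [map_prod]
  congr 1
  refine Finset.prod_congr rfl fun j _ => ?_
  rw [map_sub, map_one, map_mul, Complex.conj_conj]

theorem conj_cpow_nat (n : ℕ) (s : ℂ) : conj ((n : ℂ) ^ s) = (n : ℂ) ^ (conj s) := by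
  rw [Complex.cpow_conj _ _ (by rw [Complex.natCast_arg]; exact Real.pi_pos.ne), Complex.conj_natCast]

theorem hasProd_dbl {s : ℂ}
    (h : HasProd (fun v : {v : HeightOneSpectrum (𝓞 K) // v ∉ S} =>
      (∏ j, (1 - α v.1 j * (norm v.1 : ℂ) ^ (-s)))⁻¹) (F s))
    (h' : HasProd (fun v : {v : HeightOneSpectrum (𝓞 K) // v ∉ S} =>
      (∏ j, (1 - α v.1 j * (norm v.1 : ℂ) ^ (-(conj s))))⁻¹) (F (conj s))) :
    HasProd (fun v : {v : HeightOneSpectrum (𝓞 K) // v ∉ S} =>
      (∏ j, (1 - dbl α v.1 j * (norm v.1 : ℂ) ^ (-s)))⁻¹) (F s * cj F s) := by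
  have h1 : HasProd (fun v : {v : HeightOneSpectrum (𝓞 K) // v ∉ S} =>
      conj ((∏ j, (1 - α v.1 j * (norm v.1 : ℂ) ^ (-(conj s))))⁻¹)) (conj (F (conj s))) :=
    h'.map (starRingEnd ℂ) Complex.continuous_conj
  refine (h.mul h1).congr_fun fun v => ?_
  rw [prod_dbl, mul_inv, ← map_inv₀, conj_cpow_nat, map_neg]

theorem dbl_continues (hF : Continues c S α F) : Continues c S (dbl α) (fun s => F s * cj F s) := by
  obtain ⟨h1, h2, h3⟩ := hF
  refine ⟨fun s hs => ?_, ?_, fun s hs => hasProd_dbl (h3 s hs) (h3 _ (by rwa [Complex.conj_re]))⟩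
  · have h4 := (cj_mero (h1 (conj s) (by rwa [Complex.conj_re]))).1
    rw [Complex.conj_conj] at h4
    exact (h1 s hs).mul h4
  · have h4 := (cj_mero h2).1
    rw [Complex.conj_ofReal] at h4
    exact h2.mul h4

theorem dbl_order (hF : Continues c S α F) {s : ℂ} (hs : c < s.re ∨ s = c) :
    meromorphicOrderAt (fun s => F s * cj F s) s = meromorphicOrderAt F s + meromorphicOrderAt F (conj s) := by
  obtain ⟨h1, h2, h3⟩ := hF
  have h5 : MeromorphicAt F s := by
    rcases hs with hs | rfl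
    · exact h1 s hs
    · exact h2
  have h6 : MeromorphicAt F (conj s) := by
    rcases hs with hs | rfl
    · exact h1 _ (by rwa [Complex.conj_re])
    · rwa [Complex.conj_ofReal]
  obtain ⟨h7, h8⟩ := cj_mero h6
  rw [Complex.conj_conj] at h7 h8
  rw [← h8]
  exact meromorphicOrderAt_mul h5 h7

theorem two_mul_order {o : WithTop ℤ} {e : ℤ} (h : o + o = e) : ∃ m : ℤ, o = m ∧ e = 2 * m := by
  cases o with
  | top => simp at h
  | coe m =>
    refine ⟨m, rfl, ?_⟩
    have : m + m = e := by exact_mod_cast h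
    omega

theorem product_dbl (y : ℝ) : product c S (dbl α) y = product c S α y ^ 2 := by
  unfold product
  rw [finprod_mem_eq_finite_toFinset_prod _ (upTo_finite S y), finprod_mem_eq_finite_toFinset_prod _ (upTo_finite S y),
    ← Finset.prod_pow]
  refine Finset.prod_congr rfl fun v _ => ?_
  have h1 : conj ((norm v : ℂ) ^ (-(c : ℂ))) = (norm v : ℂ) ^ (-(c : ℂ)) := by
    rw [conj_cpow_nat, map_neg, Complex.conj_ofReal]
  rw [prod_dbl, h1, norm_mul, RCLike.norm_conj, sq]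

theorem pow_finite (S : Finset (HeightOneSpectrum (𝓞 K))) (y : ℝ) :
    ({p : {v : HeightOneSpectrum (𝓞 K) // v ∉ S} × ℕ | (norm p.1.1 : ℝ) ^ (p.2 + 1) ≤ y}).Finite := by
  have hP : Pure (K := K) (N := 0) 0 S (fun _ j => j.elim0) := ⟨fun _ _ j => j.elim0, fun _ _ k => by simp⟩
  refine ((hP.sys.fin_le y).prod (Set.finite_Iic ⌊y⌋₊)).subset fun p hp => ?_
  have hp' : (norm p.1.1 : ℝ) ^ (p.2 + 1) ≤ y := hp
  have h2 : (2 : ℝ) ≤ norm p.1.1 := by exact_mod_cast Pool.Agent.H921R2.TatePole.two_le_nm p.1.1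
  have h3 : (norm p.1.1 : ℝ) ≤ (norm p.1.1 : ℝ) ^ (p.2 + 1) := le_self_pow₀ (by linarith) (by omega)
  have h4 : (p.2 : ℝ) ≤ (norm p.1.1 : ℝ) ^ (p.2 + 1) := by
    have h5 : (p.2 : ℝ) < 2 ^ p.2 := by exact_mod_cast Nat.lt_two_pow_self
    have h6 : (2 : ℝ) ^ p.2 ≤ 2 ^ (p.2 + 1) := pow_le_pow_right₀ (by norm_num) (by omega)
    have h7 : (2 : ℝ) ^ (p.2 + 1) ≤ (norm p.1.1 : ℝ) ^ (p.2 + 1) := pow_le_pow_left₀ (by norm_num) h2 _
    linarith
  refine ⟨h3.trans hp', ?_⟩
  exact Nat.le_floor (h4.trans hp')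

theorem star_dbl (y : ℝ) : productStar c S (dbl α) y = productStar c S α y ^ 2 := by
  unfold productStar
  rw [← Real.exp_nat_mul]
  congr 1
  rw [Nat.cast_ofNat, mul_neg]
  congr 1
  have e1 : ∀ β : {v : HeightOneSpectrum (𝓞 K) // v ∉ S} × ℕ → ℝ,
      (∑ᶠ (p : {v : HeightOneSpectrum (𝓞 K) // v ∉ S} × ℕ) (_ : (norm p.1.1 : ℝ) ^ (p.2 + 1) ≤ y), β p) =
        ∑ p ∈ (pow_finite S y).toFinset, β p := fun β => finsum_mem_eq_finite_toFinset_sum _ (pow_finite S y)
  rw [e1, e1, Finset.mul_sum]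
  refine Finset.sum_congr rfl fun p _ => ?_
  rw [sum_dbl, Complex.ofReal_re]
  ring

/-! ### the laws -/

theorem log_dbl (y : ℝ) : Real.log (product c S (dbl α) y) = 2 * Real.log (product c S α y) := by
  rw [product_dbl, Real.log_pow]
  norm_num

theorem excess_dbl (κ y : ℝ) : excess (product c S (dbl α)) (2 * κ) y = 2 * excess (product c S α) κ y := by
  unfold excess
  rw [log_dbl, mul_max_of_nonneg _ _ (by norm_num : (0 : ℝ) ≤ 2)]
  congr 1 <;> ring

theorem error_dbl (κ y : ℝ) : error (product c S (dbl α)) (2 * κ) y = 2 * error (product c S α) κ y := by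
  unfold error
  rw [log_dbl, show 2 * Real.log (product c S α y) - 2 * κ * Real.log (Real.log y) =
    2 * (Real.log (product c S α y) - κ * Real.log (Real.log y)) by ring, abs_mul, abs_of_pos (by norm_num : (0 : ℝ) < 2)]

theorem mean_two {δ B Y : ℝ} {G : ℝ → ℝ} : MeanBound δ (fun y => 2 * G y) (2 * B) Y ↔ MeanBound δ G B Y := by
  unfold MeanBound
  have e1 : ∫ y in Y ^ (1 - δ)..Y, 2 * G y / y = 2 * ∫ y in Y ^ (1 - δ)..Y, G y / y := by
    rw [← intervalIntegral.integral_const_mul]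
    exact intervalIntegral.integral_congr fun y _ => mul_div_assoc _ _ _
  rw [e1]
  constructor <;> intro h <;> linarith

theorem pair_of (hF : Continues c S α F) (h : Free c (fun s => F s * cj F s)) : FreePair c F := by
  intro s hs
  rw [← dbl_order hF (Or.inl hs)]
  exact h s hs

theorem real_dbl (hF : Continues c S α F) (hr : NoRealPoles c F) : NoRealPoles c (fun s => F s * cj F s) := by
  intro x hx
  rw [dbl_order hF (Or.inl (by rwa [Complex.ofReal_re])), Complex.conj_ofReal]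
  exact add_nonneg (hr x hx) (hr x hx)

theorem centre_dbl (hF : Continues c S α F) {e : ℤ} (h : meromorphicOrderAt (fun s => F s * cj F s) c = e) :
    ∃ m : ℤ, meromorphicOrderAt F c = m ∧ e = 2 * m := by
  rw [dbl_order hF (Or.inr rfl), Complex.conj_ofReal] at h
  exact two_mul_order h

/-- **one-sided** -/
theorem one' (hc : c = ((i : ℝ) + 1) / 2) (h : Bdd i S α) (hF : Continues c S α F) (hr : NoRealPoles c F) {δ : ℝ}
    (h0 : 0 < δ) (h1 : δ < 1) {κ B : ℝ} (hB : ∃ᶠ Y : ℝ in atTop, MeanBound δ (excess (product c S α) κ) B Y) :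
    FreePair c F ∧ ∃ e : ℤ, meromorphicOrderAt F c = e ∧ (e : ℝ) ≤ κ := by
  have hB' : ∃ᶠ Y : ℝ in atTop, MeanBound δ (excess (product c S (dbl α)) (2 * κ)) (2 * B) Y := by
    refine hB.mono fun Y hY => ?_
    rw [show excess (product c S (dbl α)) (2 * κ) = fun y => 2 * excess (product c S α) κ y from
      funext fun y => excess_dbl κ y]
    exact mean_two.2 hY
  obtain ⟨f1, e, f2, f3⟩ := one hc (dbl_pure h) (dbl_continues hF) (real_dbl hF hr) h0 h1 hB'
  obtain ⟨m, g1, g2⟩ := centre_dbl hF f2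
  refine ⟨pair_of hF f1, m, g1, ?_⟩
  rw [g2] at f3
  push_cast at f3
  linarith

/-- **two-sided** -/
theorem two' (hc : c = ((i : ℝ) + 1) / 2) (h : Bdd i S α) (hF : Continues c S α F) {δ : ℝ}
    (h0 : 0 < δ) (h1 : δ < 1) {ρ B : ℝ} (hB : ∃ᶠ Y : ℝ in atTop, MeanBound δ (error (product c S α) ρ) B Y) :
    FreePair c F ∧ ∃ e : ℤ, ρ = e ∧ meromorphicOrderAt F c = e := by
  have hB' : ∃ᶠ Y : ℝ in atTop, MeanBound δ (error (product c S (dbl α)) (2 * ρ)) (2 * B) Y := by
    refine hB.mono fun Y hY => ?_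
    rw [show error (product c S (dbl α)) (2 * ρ) = fun y => 2 * error (product c S α) ρ y from
      funext fun y => error_dbl ρ y]
    exact mean_two.2 hY
  obtain ⟨f1, e, f2, f3⟩ := two hc (dbl_pure h) (dbl_continues hF) h0 h1 hB'
  obtain ⟨m, g1, g2⟩ := centre_dbl hF f3
  refine ⟨pair_of hF f1, m, ?_, g1⟩
  rw [g2] at f2
  push_cast at f2
  linarith

theorem lead_dbl {e : ℤ} {a : ℂ} (ha : Tendsto (fun s : ℂ => F s / (s - c) ^ e) (𝓝[≠] (c : ℂ)) (𝓝 a)) :
    Tendsto (fun s : ℂ => F s * cj F s / (s - c) ^ (2 * e)) (𝓝[≠] (c : ℂ)) (𝓝 (a * conj a)) := by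
  have h1 : Tendsto (fun z : ℂ => conj z) (𝓝[≠] (c : ℂ)) (𝓝[≠] (c : ℂ)) := by
    have := tendsto_conj_ne (c : ℂ)
    rwa [Complex.conj_ofReal] at this
  have h2 : Tendsto (fun s : ℂ => conj (F (conj s) / (conj s - c) ^ e)) (𝓝[≠] (c : ℂ)) (𝓝 (conj a)) :=
    (Complex.continuous_conj.tendsto a).comp (ha.comp h1)
  refine (ha.mul h2).congr' ?_
  filter_upwards [self_mem_nhdsWithin] with s hs
  have hs' : s - c ≠ 0 := sub_ne_zero.2 hs
  unfold cj
  rw [map_div₀, map_zpow₀, map_sub, Complex.conj_conj, Complex.conj_ofReal, two_mul, zpow_add₀ hs',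
    div_mul_div_comm]

theorem ratio_dbl {A ρ y : ℝ} (hy : Real.exp 1 ≤ y) :
    ratio (productStar c S (dbl α)) (A ^ 2) (2 * ρ) y = 2 * ratio (productStar c S α) A ρ y := by
  unfold ratio
  have hy0 : 0 < y := (Real.exp_pos 1).trans_le hy
  have hl : 0 < Real.log y := by
    have : 1 ≤ Real.log y := by rwa [Real.le_log_iff_exp_le hy0]
    linarith
  have hg : 0 < Real.exp Real.eulerMascheroniConstant * Real.log y := mul_pos (Real.exp_pos _) hl
  have hQ : 0 < productStar c S α y := star_pos y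
  rw [star_dbl, show 2 * ρ = ρ * ((2 : ℕ) : ℝ) by push_cast; ring, Real.rpow_mul hg.le, Real.rpow_natCast, ← mul_pow,
    ← div_pow, Real.log_pow]
  push_cast
  ring

/-- **limit** -/
theorem lim' (hc : c = ((i : ℝ) + 1) / 2) (h : Bdd i S α) (hF : Continues c S α F) {δ : ℝ}
    (h0 : 0 < δ) (h1 : δ < 1) {ρ A : ℝ} (hA : 0 < A)
    (hB : ∀ ε : ℝ, 0 < ε → ∃ᶠ Y : ℝ in atTop, MeanBound δ (fun y => |ratio (productStar c S α) A ρ y|) ε Y) :
    FreePair c F ∧ ∃ e : ℤ, ρ = e ∧ meromorphicOrderAt F c = e ∧ ∀ a : ℂ, IsLeading c F e a → ‖a‖ = A := by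
  have hB' : ∀ ε : ℝ, 0 < ε → ∃ᶠ Y : ℝ in atTop,
      MeanBound δ (fun y => |ratio (productStar c S (dbl α)) (A ^ 2) (2 * ρ) y|) ε Y := by
    intro ε hε
    have h2 : ∃ᶠ Y : ℝ in atTop, MeanBound δ (fun y => 2 * |ratio (productStar c S α) A ρ y|) (2 * (ε / 2)) Y :=
      (hB (ε / 2) (by linarith)).mono fun Y hY => mean_two.2 hY
    have h3 : Pool.Agent.Q18.W.Wm δ (fun y => 2 * |ratio (productStar c S α) A ρ y|) ε := by
      rw [show 2 * (ε / 2) = ε by ring] at h2
      exact h2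
    refine Pool.Agent.Q18.W.Wm.congr h0 h1 h3 fun y hy => ?_
    rw [ratio_dbl hy, abs_mul, abs_of_pos (by norm_num : (0 : ℝ) < 2)]
  obtain ⟨f1, e, f2, f3, f4⟩ := lim hc (dbl_pure h) (dbl_continues hF) h0 h1 (pow_pos hA 2) hB'
  obtain ⟨m, g1, g2⟩ := centre_dbl hF f3
  refine ⟨pair_of hF f1, m, ?_, g1, fun a ha => ?_⟩
  · rw [g2] at f2
    push_cast at f2
    linarith
  · have h5 := f4 (a * conj a) ⟨f3, by rw [g2]; exact lead_dbl ha.2⟩
    rw [norm_mul, RCLike.norm_conj, ← sq] at h5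
    exact (pow_left_inj₀ (norm_nonneg a) hA.le two_ne_zero).1 h5

/-- **in every window** -/
theorem omega' (hc : c = ((i : ℝ) + 1) / 2) (h : Bdd i S α) (hF : Continues c S α F) (hr : NoRealPoles c F) {δ : ℝ}
    (h0 : 0 < δ) (h1 : δ < 1) {e : ℤ} {a : ℂ} (ha : IsLeading c F e a) {A : ℝ} (hA : ‖a‖ < A) :
    ∃ β : ℝ, 0 < β ∧ ∀ᶠ Y : ℝ in atTop, ¬ MeanBound δ (fun y => max (ratio (productStar c S α) A e y) 0) β Y := by
  have hA0 : 0 < A := lt_of_le_of_lt (norm_nonneg _) hA
  have hlead : IsLeading c (fun s => F s * cj F s) (2 * e) (a * conj a) := by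
    refine ⟨?_, lead_dbl ha.2⟩
    rw [dbl_order hF (Or.inr rfl), Complex.conj_ofReal, ha.1]
    rw [← WithTop.coe_add, two_mul]
  obtain ⟨β, hβ, hβ2⟩ := omega hc (dbl_pure h) (dbl_continues hF) (real_dbl hF hr) h0 h1 hlead (A := A ^ 2) (by
    rw [norm_mul, RCLike.norm_conj, ← sq]
    exact pow_lt_pow_left₀ hA (norm_nonneg _) two_ne_zero)
  refine ⟨β / 2, by linarith, ?_⟩
  have ht := (tendsto_rpow_atTop (show 0 < 1 - δ by linarith)).eventually_ge_atTop (Real.exp 1)
  filter_upwards [hβ2, ht, eventually_ge_atTop 1] with Y hY hY2 hY1 h3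
  refine hY ?_
  have hle : Y ^ (1 - δ) ≤ Y := by
    conv_rhs => rw [← Real.rpow_one Y]
    exact Real.rpow_le_rpow_of_exponent_le hY1 (by linarith)
  have h4 := mean_two.2 h3
  rw [show 2 * (β / 2) = β by ring] at h4
  refine le_of_eq_of_le ?_ h4
  refine intervalIntegral.integral_congr fun y hy => ?_
  rw [Set.uIcc_of_le hle] at hy
  simp only
  rw [show ((2 * e : ℤ) : ℝ) = 2 * (e : ℝ) by push_cast; ring, ratio_dbl (hY2.trans hy.1),
    mul_max_of_nonneg _ _ (by norm_num : (0 : ℝ) ≤ 2), mul_zero]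

end Pool.Agent.Q18.P
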