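import Mathlib
import Pool.Agent.Q18.P.Dbl

/-!
# Euler products over number fields with complex coefficients: the equivalences
-/

set_option autoImplicit false
set_option linter.unusedSectionVars false

namespace Pool.Agent.Q18.P

open Filter Topology Set Complex NumberField IsDedekindDomain MeasureTheory ComplexConjugate
open Pool.Agent.TH270.MS (LI)

variable {K : Type} [Field K] [NumberField K] {N : ℕ}
variable {i : ℕ} {c : ℝ} {S : Finset (HeightOneSpectrum (𝓞 K))} {α : HeightOneSpectrum (𝓞 K) → Fin N → ℂ} {F : ℂ → ℂ}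

theorem dbl_tempered (hF : Tempered c S α F) : Tempered c S (dbl α) (fun s => F s * cj F s) := by
  obtain ⟨⟨η, C, k, κ, G, hη, hG, hGF⟩, h3⟩ := hF
  refine ⟨⟨η, C ^ 2, k + k, κ + κ, fun s => G s * cj G s, hη, fun s hs => ⟨?_, ?_⟩, fun s hs hs0 => ?_⟩,
    fun s hs => hasProd_dbl (h3 s hs) (h3 _ (by rwa [Complex.conj_re]))⟩
  · have h1 := (hG (conj s) (by rwa [Complex.conj_re])).1.conj_conj
    rw [Complex.conj_conj] at h1
    exact (hG s hs).1.mul h1
  · have h1 := (hG s hs).2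
    have h2 := (hG (conj s) (by rwa [Complex.conj_re])).2
    rw [RCLike.norm_conj] at h2
    show ‖G s * cj G s‖ ≤ _
    unfold cj
    rw [norm_mul, RCLike.norm_conj]
    calc ‖G s‖ * ‖G (conj s)‖ ≤ (C * (1 + ‖s‖) ^ κ) * (C * (1 + ‖s‖) ^ κ) :=
          mul_le_mul h1 h2 (norm_nonneg _) ((norm_nonneg _).trans h1)
      _ = _ := by rw [pow_add]; ring
  · have h1 := hGF s hs hs0
    have h2 := hGF (conj s) (by rwa [Complex.conj_re]) (by
      intro h4
      refine hs0 ?_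
      rw [← Complex.conj_conj s, h4, Complex.conj_ofReal])
    show G s * cj G s = (s - c) ^ (k + k) * (F s * cj F s)
    unfold cj
    rw [h1, h2, map_mul, map_pow, map_sub, Complex.conj_conj, Complex.conj_ofReal, pow_add]
    ring

theorem noZeros_dbl (h : NoZeros c F) : NoZeros c (fun s => F s * cj F s) := by
  intro s hs
  refine mul_ne_zero (h s hs) ?_
  unfold cj
  exact (map_ne_zero _).2 (h _ (by rwa [Complex.conj_re]))

theorem noZeros_of (han : ∀ s : ℂ, c < s.re → AnalyticAt ℂ F s) (h : FreePair c F) : NoZeros c F := by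
  intro s hs
  have h1 := h s hs
  have h2 := (han s hs).meromorphicOrderAt_nonneg
  have h3 := (han (conj s) (by rwa [Complex.conj_re])).meromorphicOrderAt_nonneg
  have h4 : meromorphicOrderAt F s = 0 := by
    refine le_antisymm ?_ h2
    rw [← h1]
    exact le_add_of_nonneg_right h3
  exact (order_nat (han s hs) (m := 0) h4).2.1 rfl

theorem li_log' (hc : c = ((i : ℝ) + 1) / 2) (h : Bdd i S α) (κ : ℝ) :
    LI fun y => Real.log (product c S α y) - κ * Real.log (Real.log y) := by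
  have h1 := li_log hc (dbl_pure h) (2 * κ)
  have h2 : LI fun y => (1 / 2) * (Real.log (product c S (dbl α) y) - 2 * κ * Real.log (Real.log y)) :=
    fun Y hY => (h1 Y hY).const_mul _
  refine fun Y hY => (h2 Y hY).congr fun y _ => ?_
  show (1 / 2) * (Real.log (product c S (dbl α) y) - 2 * κ * Real.log (Real.log y)) = _
  rw [log_dbl]
  ring

theorem bound_of_rh' (hc : c = ((i : ℝ) + 1) / 2) (h : Bdd i S α) (hT : Tempered c S α F) (hz : NoZeros c F) {m : ℤ}
    (hm : meromorphicOrderAt F c = m) {δ : ℝ} (h0 : 0 < δ) (h1 : δ < 1) :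
    ∃ B : ℝ, ∀ᶠ Y : ℝ in atTop, MeanBound δ (error (product c S α) m) B Y := by
  have hord : meromorphicOrderAt (fun s => F s * cj F s) c = ((2 * m : ℤ) : WithTop ℤ) := by
    rw [dbl_order (of_tempered hT).1 (Or.inr rfl), Complex.conj_ofReal, hm, ← WithTop.coe_add, two_mul]
  obtain ⟨B, hB⟩ := bound_of_rh hc (dbl_pure h) (dbl_tempered hT) (noZeros_dbl hz) hord h0 h1
  refine ⟨B / 2, hB.mono fun Y hY => ?_⟩
  rw [show ((2 * m : ℤ) : ℝ) = 2 * (m : ℝ) by push_cast; ring,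
    show error (product c S (dbl α)) (2 * (m : ℝ)) = fun y => 2 * error (product c S α) m y from
      funext fun y => error_dbl (m : ℝ) y] at hY
  rw [← mean_two, show 2 * (B / 2) = B by ring]
  exact hY

theorem tfae_one' (hc : c = ((i : ℝ) + 1) / 2) (h : Bdd i S α) (hT : Tempered c S α F) {δ : ℝ}
    (h0 : 0 < δ) (h1 : δ < 1) (κ : ℝ) : List.TFAE [
      NoZeros c F ∧ ∃ e : ℤ, meromorphicOrderAt F c = e ∧ (e : ℝ) ≤ κ,
      ∃ B : ℝ, ∃ᶠ Y : ℝ in atTop, MeanBound δ (excess (product c S α) κ) B Y,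
      ∃ B : ℝ, ∀ᶠ Y : ℝ in atTop, MeanBound δ (excess (product c S α) κ) B Y] := by
  obtain ⟨hC, han⟩ := of_tempered hT
  have hreal : NoRealPoles c F := fun x hx =>
    (han x (by rw [Complex.ofReal_re]; exact hx)).meromorphicOrderAt_nonneg
  tfae_have 1 → 3 := by
    rintro ⟨h2, e, h3, h5⟩
    exact excess_le h5 (li_log' hc h) h0 h1 (bound_of_rh' hc h hT h2 h3 h0 h1)
  tfae_have 3 → 2 := fun ⟨B, hB⟩ => ⟨B, hB.frequently⟩
  tfae_have 2 → 1 := by
    rintro ⟨B, hB⟩
    obtain ⟨f1, f2⟩ := one' hc h hC hreal h0 h1 hB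
    exact ⟨noZeros_of han f1, f2⟩
  tfae_finish

theorem tfae_two' (hc : c = ((i : ℝ) + 1) / 2) (h : Bdd i S α) (hT : Tempered c S α F) {δ : ℝ}
    (h0 : 0 < δ) (h1 : δ < 1) (ρ : ℝ) : List.TFAE [
      NoZeros c F ∧ ∃ e : ℤ, ρ = e ∧ meromorphicOrderAt F c = e,
      ∃ B : ℝ, ∃ᶠ Y : ℝ in atTop, MeanBound δ (error (product c S α) ρ) B Y,
      ∃ B : ℝ, ∀ᶠ Y : ℝ in atTop, MeanBound δ (error (product c S α) ρ) B Y] := by
  obtain ⟨hC, han⟩ := of_tempered hT
  tfae_have 1 → 3 := by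
    rintro ⟨h2, e, rfl, h3⟩
    exact bound_of_rh' hc h hT h2 h3 h0 h1
  tfae_have 3 → 2 := fun ⟨B, hB⟩ => ⟨B, hB.frequently⟩
  tfae_have 2 → 1 := by
    rintro ⟨B, hB⟩
    obtain ⟨f1, f2⟩ := two' hc h hC h0 h1 hB
    exact ⟨noZeros_of han f1, f2⟩
  tfae_finish

/-- for a nonnegative even or odd order the bound `κ` need only be less than the next value -/
theorem parity {κ : ℝ} {w : ℤ} (hw : 0 ≤ w) (hw1 : w ≤ 1) (hκ : κ < w + 2) {e : ℤ} (he : 0 ≤ e) (heκ : (e : ℝ) ≤ κ)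
    (hp : 2 ∣ e - w) : e = w := by
  have h1 : (e : ℝ) < w + 2 := lt_of_le_of_lt heκ hκ
  have h2 : e < w + 2 := by exact_mod_cast h1
  omega

end Pool.Agent.Q18.P
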