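import Mathlib
import Pool.Agent.Q18.P.Base
import Pool.Agent.Q5.MS.Lead

/-!
# The order and the leading coefficient at the centre from one sequence of windows: equivalences
-/

set_option autoImplicit false

namespace Pool.Agent.Q18.P

open Filter Topology Set Complex NumberField IsDedekindDomain MeasureTheory
open Pool.Agent.TH942.ES (zv xv cv cP Sys)
open Pool.Agent.TH270.MS (Pl LI BM Mc DvR)
open Pool.Agent.Q5.VA (NS aD)

variable {K : Type} [Field K] [NumberField K] {N : ℕ}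
variable {i : ℕ} {c : ℝ} {S : Finset (HeightOneSpectrum (𝓞 K))} {α : HeightOneSpectrum (𝓞 K) → Fin N → ℂ} {F : ℂ → ℂ}

theorem ratio_dv (hc : c = ((i : ℝ) + 1) / 2) {ρ A : ℝ} (hA : 0 < A) {y : ℝ} (hy : Real.exp 1 ≤ y) :
    ratio (productStar c S α) A ρ y = -DvR (NS S) (aD i S α) ρ A y := by
  have h1 : 0 < Real.log y := by
    have : (1 : ℝ) ≤ Real.log y := by
      rw [Real.le_log_iff_exp_le ((Real.exp_pos 1).trans_le hy)]
      exact hy
    linarith
  have h2 : 0 < Real.exp Real.eulerMascheroniConstant * Real.log y := mul_pos (Real.exp_pos _) h1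
  have h3 : 0 < (Real.exp Real.eulerMascheroniConstant * Real.log y) ^ ρ := Real.rpow_pos_of_pos h2 _
  have h4 : 0 < productStar c S α y := star_pos y
  unfold ratio DvR
  rw [Real.log_div (mul_pos hA h4).ne' h3.ne', Real.log_mul hA.ne' h4.ne', log_star hc,
    Real.log_rpow h2, Real.log_mul (Real.exp_pos _).ne' h1.ne', Real.log_exp]
  ring

theorem lead_shift {F : ℂ → ℂ} {c : ℂ} {m : ℤ} {A : ℂ} :
    Tendsto (fun s : ℂ => F (c + s) / s ^ m) (𝓝[≠] 0) (𝓝 A) ↔
      Tendsto (fun s : ℂ => F s / (s - c) ^ m) (𝓝[≠] c) (𝓝 A) := by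
  have h1 : Tendsto (fun s : ℂ => c + s) (𝓝[≠] 0) (𝓝[≠] c) := by
    refine tendsto_nhdsWithin_iff.2 ⟨?_, ?_⟩
    · have : Tendsto (fun s : ℂ => c + s) (𝓝 0) (𝓝 (c + 0)) := tendsto_const_nhds.add tendsto_id
      rw [add_zero] at this
      exact this.mono_left nhdsWithin_le_nhds
    · filter_upwards [self_mem_nhdsWithin] with s hs
      intro h
      apply hs
      have : c + s = c := h
      simpa using this
  have h2 : Tendsto (fun s : ℂ => s - c) (𝓝[≠] c) (𝓝[≠] 0) := by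
    refine tendsto_nhdsWithin_iff.2 ⟨?_, ?_⟩
    · have : Tendsto (fun s : ℂ => s - c) (𝓝 c) (𝓝 (c - c)) := tendsto_id.sub tendsto_const_nhds
      rw [sub_self] at this
      exact this.mono_left nhdsWithin_le_nhds
    · filter_upwards [self_mem_nhdsWithin] with s hs
      intro h
      apply hs
      exact sub_eq_zero.1 h
  constructor
  · intro h
    refine (h.comp h2).congr fun s => ?_
    simp only [Function.comp_apply, add_sub_cancel]
  · intro h
    refine (h.comp h1).congr fun s => ?_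
    simp only [Function.comp_apply, add_sub_cancel_left]

/-- without zeros to the right of the centre the leading coefficient is positive -/
theorem lead_exists (hc : c = ((i : ℝ) + 1) / 2) (h : Pure i S α) (hT : Tempered c S α F) (hz : NoZeros c F)
    {m : ℤ} (hm : meromorphicOrderAt F c = m) : ∃ A : ℝ, 0 < A ∧ IsLeading c F m A := by
  obtain ⟨G₀, k, κ, η, C, H⟩ := mc hc h hT
  have t := Pool.Agent.Q5.MS.order_real H m
  have h2 : (∀ s : ℂ, 0 < s.re → (fun s => F ((c : ℂ) + s)) s ≠ 0) ∧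
      ∃ e : ℤ, (m : ℝ) = e ∧ meromorphicOrderAt (fun s => F ((c : ℂ) + s)) 0 = e := by
    refine ⟨fun s hs => hz _ (by simpa using hs), m, rfl, ?_⟩
    rw [Pool.Agent.Q5.VA.mero_shiftC]
    exact hm
  obtain ⟨A, hA, hB⟩ := (t.out 0 1).1 h2
  obtain ⟨-, m', hm', hlim⟩ := ((Pool.Agent.Q5.MS.lead_real H m hA).out 0 1).2 hB
  have e1 : m = m' := by exact_mod_cast hm'
  rw [← e1] at hlim
  exact ⟨A, hA, hm, lead_shift.1 hlim⟩

/-- the means of the deviation over all windows are small -/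
theorem small_of_rh (hc : c = ((i : ℝ) + 1) / 2) (h : Pure i S α) (hT : Tempered c S α F) (hz : NoZeros c F)
    {m : ℤ} {A : ℝ} (hA : 0 < A) (hm : IsLeading c F m A) {δ : ℝ} (h0 : 0 < δ) (h1 : δ < 1) {ε : ℝ} (hε : 0 < ε) :
    ∀ᶠ Y : ℝ in atTop, MeanBound δ (fun y => |ratio (productStar c S α) A m y|) ε Y := by
  obtain ⟨G₀, k, κ, η, C, H⟩ := mc hc h hT
  have t := Pool.Agent.Q5.MS.lead_real H m hA
  have h2 : (∀ s : ℂ, 0 < s.re → (fun s => F ((c : ℂ) + s)) s ≠ 0) ∧
      ∃ e : ℤ, (m : ℝ) = e ∧ Tendsto (fun s => (fun s => F ((c : ℂ) + s)) s / s ^ e) (𝓝[≠] 0) (𝓝 (A : ℂ)) :=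
    ⟨fun s hs => hz _ (by simpa using hs), m, rfl, lead_shift.2 hm.2⟩
  have h3 := (t.out 0 2).1 h2
  have h4 : ∀ᶠ Y : ℝ in atTop, ∫ y in Real.exp 1..Y, |DvR (NS S) (aD i S α) m A y| / y ≤ ε * Real.log Y := by
    filter_upwards [h3.eventually (gt_mem_nhds hε), eventually_gt_atTop 1] with Y hY hY1
    have h5 : 0 < Real.log Y := Real.log_pos hY1
    have h6 := (div_lt_iff₀ h5).1 hY
    exact h6.le
  have h7 := all_windows (T := fun y => |DvR (NS S) (aD i S α) m A y|)
    (Pool.Agent.Q5.MS.bm_dvR H m A).li.abs (fun y => abs_nonneg _) h0 h1 h4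
  have ht := (tendsto_rpow_atTop (show 0 < 1 - δ by linarith)).eventually_ge_atTop (Real.exp 1)
  filter_upwards [h7, ht, eventually_ge_atTop 1] with Y hY hY2 hY1
  have hle : Y ^ (1 - δ) ≤ Y := by
    conv_rhs => rw [← Real.rpow_one Y]
    exact Real.rpow_le_rpow_of_exponent_le hY1 (by linarith)
  refine le_of_eq_of_le ?_ hY
  refine intervalIntegral.integral_congr fun y hy => ?_
  rw [uIcc_of_le hle] at hy
  show |ratio (productStar c S α) A m y| / y = _
  rw [ratio_dv hc hA (hY2.trans hy.1), abs_neg]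

/-- **order and leading coefficient** -/
theorem tfae_lim (hc : c = ((i : ℝ) + 1) / 2) (h : Pure i S α) (hT : Tempered c S α F) {δ : ℝ}
    (h0 : 0 < δ) (h1 : δ < 1) (ρ : ℝ) {A : ℝ} (hA : 0 < A) : List.TFAE [
      NoZeros c F ∧ ∃ e : ℤ, ρ = e ∧ IsLeading c F e A,
      ∀ ε : ℝ, 0 < ε → ∃ᶠ Y : ℝ in atTop, MeanBound δ (fun y => |ratio (productStar c S α) A ρ y|) ε Y,
      ∀ ε : ℝ, 0 < ε → ∀ᶠ Y : ℝ in atTop, MeanBound δ (fun y => |ratio (productStar c S α) A ρ y|) ε Y] := by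
  obtain ⟨hC, han⟩ := of_tempered hT
  tfae_have 1 → 3 := by
    rintro ⟨h2, e, h3, h5⟩ ε hε
    rw [h3]
    exact small_of_rh hc h hT h2 hA h5 h0 h1 hε
  tfae_have 3 → 2 := fun hB ε hε => (hB ε hε).frequently
  tfae_have 2 → 1 := by
    intro hB
    obtain ⟨f1, e, f2, f3, f4⟩ := lim hc h hC h0 h1 hA hB
    have hz := (free_iff han).1 f1
    refine ⟨hz, e, f2, ?_⟩
    obtain ⟨A', hA', hl⟩ := lead_exists hc h hT hz f3
    have h5 := f4 _ hl
    rw [Complex.norm_real, Real.norm_of_nonneg hA'.le] at h5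
    rw [← h5]
    exact hl
  tfae_finish

/-- **central values** -/
theorem tfae_val (hc : c = ((i : ℝ) + 1) / 2) (h : Pure i S α) (hT : Tempered c S α F) (ha : AnalyticAt ℂ F c)
    {δ : ℝ} (h0 : 0 < δ) (h1 : δ < 1) {A : ℝ} (hA : 0 < A) : List.TFAE [
      NoZeros c F ∧ F c = A,
      ∀ ε : ℝ, 0 < ε → ∃ᶠ Y : ℝ in atTop, MeanBound δ (fun y => |Real.log (A * productStar c S α y)|) ε Y,
      ∀ ε : ℝ, 0 < ε → ∀ᶠ Y : ℝ in atTop, MeanBound δ (fun y => |Real.log (A * productStar c S α y)|) ε Y] := by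
  have t := tfae_lim hc h hT h0 h1 0 hA
  have e1 : (fun y => |ratio (productStar c S α) A 0 y|) = fun y => |Real.log (A * productStar c S α y)| := by
    funext y
    unfold ratio
    rw [Real.rpow_zero, div_one]
  have e2 : (∃ e : ℤ, (0 : ℝ) = e ∧ IsLeading c F e A) ↔ F c = A := by
    constructor
    · rintro ⟨e, he, h2, h3⟩
      have : e = 0 := by exact_mod_cast he.symm
      subst this
      have h4 : Tendsto F (𝓝[≠] (c : ℂ)) (𝓝 (F c)) := ha.continuousAt.tendsto.mono_left nhdsWithin_le_nhds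
      have h5 : Tendsto F (𝓝[≠] (c : ℂ)) (𝓝 (A : ℂ)) := h3.congr fun s => by simp
      exact tendsto_nhds_unique h4 h5
    · intro h2
      refine ⟨0, by simp, ?_, ?_⟩
      · have h3 : F c ≠ 0 := by rw [h2]; exact_mod_cast hA.ne'
        rw [ha.meromorphicOrderAt_eq, ha.analyticOrderAt_eq_zero.2 h3]
        rfl
      · have h4 : Tendsto F (𝓝[≠] (c : ℂ)) (𝓝 (F c)) := ha.continuousAt.tendsto.mono_left nhdsWithin_le_nhds
        rw [h2] at h4
        exact h4.congr fun s => by simp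
  rw [e1, e2] at t
  exact t

end Pool.Agent.Q18.P
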