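import Mathlib
import Pool.Agent.Q18.P.Lim
import Pool.Agent.Q18.P.Dbl2

/-!
# The laws for holomorphic Euler products at the centre, complex coefficients allowed

`MeanBound δ G B Y` is `∫_{Y^(1-δ)}^Y G(y) dy/y ≤ B log Y`. `∃ᶠ Y` means: for arbitrarily large `Y`.
-/

set_option autoImplicit false

namespace Pool.Agent.Q18.P

open Filter Topology Set Complex NumberField IsDedekindDomain MeasureTheory ComplexConjugate
open Pool.Agent.TH270.MS (LI)

variable {K : Type} [Field K] [NumberField K] {N : ℕ}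

/-- `F` is holomorphic and of polynomial growth in a half plane `Re s > c - η`. -/
def Holo (c : ℝ) (F : ℂ → ℂ) : Prop :=
  ∃ (η C : ℝ) (k : ℕ), 0 < η ∧ ∀ s : ℂ, c - η < s.re → DifferentiableAt ℂ F s ∧ ‖F s‖ ≤ C * (1 + ‖s‖) ^ k

/-- The Euler product `F(s) = ∏_{v ∉ S} ∏_j (1 - α_{v,j} q_v^{-s})⁻¹` for `Re s > c + 1/2`. -/
def Euler (c : ℝ) (S : Finset (HeightOneSpectrum (𝓞 K))) (α : HeightOneSpectrum (𝓞 K) → Fin N → ℂ)
    (F : ℂ → ℂ) : Prop :=
  ∀ s : ℂ, c + 1 / 2 < s.re →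
    HasProd (fun v : {v : HeightOneSpectrum (𝓞 K) // v ∉ S} => (∏ j, (1 - α v.1 j * (norm v.1 : ℂ) ^ (-s)))⁻¹) (F s)

/-- The central order of `F` is `m`. -/
def Order (c : ℝ) (F : ℂ → ℂ) (m : ℤ) : Prop := meromorphicOrderAt F c = m

/-- **The laws** for the partial Euler products `P = product` and `P* = productStar` and the windows
`[Y^(1-δ), Y]`: upper bounds of the central order, its value, its leading coefficient (with the Riemann hypothesis
`NoZeros`), and the oscillation of `P*` in every window. -/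
structure Laws (c : ℝ) (S : Finset (HeightOneSpectrum (𝓞 K))) (α : HeightOneSpectrum (𝓞 K) → Fin N → ℂ)
    (F : ℂ → ℂ) (δ : ℝ) : Prop where
  upper : ∀ κ : ℝ, List.TFAE [
    NoZeros c F ∧ ∃ m : ℤ, Order c F m ∧ (m : ℝ) ≤ κ,
    ∃ B : ℝ, ∃ᶠ Y : ℝ in atTop, MeanBound δ (excess (product c S α) κ) B Y,
    ∃ B : ℝ, ∀ᶠ Y : ℝ in atTop, MeanBound δ (excess (product c S α) κ) B Y]
  order : ∀ m : ℤ, List.TFAE [
    NoZeros c F ∧ Order c F m,
    ∃ B : ℝ, ∃ᶠ Y : ℝ in atTop, MeanBound δ (error (product c S α) m) B Y,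
    ∃ B : ℝ, ∀ᶠ Y : ℝ in atTop, MeanBound δ (error (product c S α) m) B Y]
  lead : ∀ (m : ℤ) (A : ℝ), 0 < A → List.TFAE [
    NoZeros c F ∧ ∃ a : ℂ, IsLeading c F m a ∧ ‖a‖ = A,
    ∀ ε : ℝ, 0 < ε → ∃ᶠ Y : ℝ in atTop, MeanBound δ (fun y => |ratio (productStar c S α) A m y|) ε Y,
    ∀ ε : ℝ, 0 < ε → ∀ᶠ Y : ℝ in atTop, MeanBound δ (fun y => |ratio (productStar c S α) A m y|) ε Y]
  omega : ∀ (m : ℤ) (a : ℂ), IsLeading c F m a → ∀ A : ℝ, ‖a‖ < A → ∃ β : ℝ, 0 < β ∧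
    ∀ᶠ Y : ℝ in atTop, ¬ MeanBound δ (fun y => max (ratio (productStar c S α) A m y) 0) β Y

variable {i : ℕ} {c : ℝ} {S : Finset (HeightOneSpectrum (𝓞 K))} {α : HeightOneSpectrum (𝓞 K) → Fin N → ℂ} {F : ℂ → ℂ}

theorem tempered_of (h1 : Holo c F) (h2 : Euler c S α F) : Tempered c S α F := by
  obtain ⟨η, C, k, hη, h⟩ := h1
  exact ⟨⟨η, C, 0, k, F, hη, h, fun s _ _ => by rw [pow_zero, one_mul]⟩, h2⟩

/-- the leading coefficient exists -/
theorem exists_leading (hF : MeromorphicAt F c) {m : ℤ} (hm : meromorphicOrderAt F c = m) :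
    ∃ a : ℂ, a ≠ 0 ∧ IsLeading c F m a := by
  obtain ⟨g, hg, hg0, he⟩ := (meromorphicOrderAt_eq_int_iff hF).1 hm
  refine ⟨g c, hg0, hm, ?_⟩
  have h1 : Tendsto g (𝓝[≠] (c : ℂ)) (𝓝 (g c)) := hg.continuousAt.tendsto.mono_left nhdsWithin_le_nhds
  refine h1.congr' ?_
  filter_upwards [he, self_mem_nhdsWithin] with s hs hs1
  rw [hs, smul_eq_mul, mul_div_cancel_left₀ _ (zpow_ne_zero _ (sub_ne_zero.2 hs1))]

theorem tfae_lim' (hc : c = ((i : ℝ) + 1) / 2) (h : Bdd i S α) (hT : Tempered c S α F) {δ : ℝ}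
    (h0 : 0 < δ) (h1 : δ < 1) (m : ℤ) {A : ℝ} (hA : 0 < A) : List.TFAE [
      NoZeros c F ∧ ∃ a : ℂ, IsLeading c F m a ∧ ‖a‖ = A,
      ∀ ε : ℝ, 0 < ε → ∃ᶠ Y : ℝ in atTop, MeanBound δ (fun y => |ratio (productStar c S α) A m y|) ε Y,
      ∀ ε : ℝ, 0 < ε → ∀ᶠ Y : ℝ in atTop, MeanBound δ (fun y => |ratio (productStar c S α) A m y|) ε Y] := by
  obtain ⟨hC, han⟩ := of_tempered hT
  tfae_have 1 → 3 := by
    rintro ⟨hz, a, ha, haA⟩ ε hε
    have hlead : IsLeading c (fun s => F s * cj F s) (2 * m) ((A ^ 2 : ℝ) : ℂ) := by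
      refine ⟨?_, ?_⟩
      · rw [dbl_order hC (Or.inr rfl), Complex.conj_ofReal, ha.1, ← WithTop.coe_add, two_mul]
      · have e1 : a * conj a = ((A ^ 2 : ℝ) : ℂ) := by
          rw [Complex.mul_conj, Complex.normSq_eq_norm_sq, haA]
        rw [← e1]
        exact lead_dbl ha.2
    have h2 := small_of_rh hc (dbl_pure h) (dbl_tempered hT) (noZeros_dbl hz) (by positivity) hlead h0 h1
      (show 0 < 2 * ε by linarith)
    have ht := (tendsto_rpow_atTop (show 0 < 1 - δ by linarith)).eventually_ge_atTop (Real.exp 1)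
    filter_upwards [h2, ht, eventually_ge_atTop 1] with Y hY hY2 hY1
    have hle : Y ^ (1 - δ) ≤ Y := by
      conv_rhs => rw [← Real.rpow_one Y]
      exact Real.rpow_le_rpow_of_exponent_le hY1 (by linarith)
    rw [← mean_two]
    refine le_of_eq_of_le ?_ hY
    refine intervalIntegral.integral_congr fun y hy => ?_
    rw [uIcc_of_le hle] at hy
    show 2 * |ratio (productStar c S α) A m y| / y = |ratio (productStar c S (dbl α)) (A ^ 2) ((2 * m : ℤ) : ℝ) y| / y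
    rw [show ((2 * m : ℤ) : ℝ) = 2 * (m : ℝ) by push_cast; ring, ratio_dbl (hY2.trans hy.1), abs_mul,
      abs_of_pos (by norm_num : (0 : ℝ) < 2)]
  tfae_have 3 → 2 := fun hB ε hε => (hB ε hε).frequently
  tfae_have 2 → 1 := by
    intro hB
    obtain ⟨f1, e, f2, f3, f4⟩ := lim' hc h hC h0 h1 hA hB
    have e1 : m = e := by exact_mod_cast f2
    rw [← e1] at f3 f4
    obtain ⟨a, -, ha⟩ := exists_leading hC.2.1 f3
    exact ⟨noZeros_of han f1, a, ha, f4 a ha⟩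
  tfae_finish

/-- **the laws** -/
theorem laws (hc : c = ((i : ℝ) + 1) / 2) (h : Bdd i S α) (hH : Holo c F) (hE : Euler c S α F) {δ : ℝ}
    (h0 : 0 < δ) (h1 : δ < 1) : Laws c S α F δ := by
  have hT := tempered_of hH hE
  obtain ⟨hC, han⟩ := of_tempered hT
  have hreal : NoRealPoles c F := fun x hx =>
    (han x (by rw [Complex.ofReal_re]; exact hx)).meromorphicOrderAt_nonneg
  refine ⟨fun κ => tfae_one' hc h hT h0 h1 κ, fun m => ?_, fun m A hA => tfae_lim' hc h hT h0 h1 m hA,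
    fun m a ha A hA => omega' hc h hC hreal h0 h1 ha hA⟩
  have t := tfae_two' hc h hT h0 h1 (m : ℝ)
  have e1 : (NoZeros c F ∧ ∃ e : ℤ, (m : ℝ) = e ∧ meromorphicOrderAt F c = e) ↔ NoZeros c F ∧ Order c F m := by
    refine and_congr_right fun _ => ⟨?_, fun h => ⟨m, rfl, h⟩⟩
    rintro ⟨e, h2, h3⟩
    have : m = e := by exact_mod_cast h2
    rw [this]
    exact h3
  rw [e1] at t
  exact t

/-- real power sums: the leading coefficient itself -/
theorem Laws.lead_real (hc : c = ((i : ℝ) + 1) / 2) (h : Pure i S α) (hH : Holo c F) (hE : Euler c S α F) {δ : ℝ}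
    (h0 : 0 < δ) (h1 : δ < 1) (m : ℤ) {A : ℝ} (hA : 0 < A) : List.TFAE [
      NoZeros c F ∧ IsLeading c F m A,
      ∀ ε : ℝ, 0 < ε → ∃ᶠ Y : ℝ in atTop, MeanBound δ (fun y => |ratio (productStar c S α) A m y|) ε Y,
      ∀ ε : ℝ, 0 < ε → ∀ᶠ Y : ℝ in atTop, MeanBound δ (fun y => |ratio (productStar c S α) A m y|) ε Y] := by
  have t := tfae_lim hc h (tempered_of hH hE) h0 h1 (m : ℝ) hA
  have e1 : (NoZeros c F ∧ ∃ e : ℤ, (m : ℝ) = e ∧ IsLeading c F e A) ↔ NoZeros c F ∧ IsLeading c F m A := by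
    refine and_congr_right fun _ => ⟨?_, fun h => ⟨m, rfl, h⟩⟩
    rintro ⟨e, h2, h3⟩
    have : m = e := by exact_mod_cast h2
    rw [this]
    exact h3
  rw [e1] at t
  exact t

/-- **parity**: the exponents up to `r + 2` do -/
theorem Laws.parity {δ : ℝ} (L : Laws c S α F δ) {r : ℤ} (hp : ∀ m : ℤ, Order c F m → 2 ∣ m - r) {κ : ℝ} (h1 : r ≤ κ)
    (h2 : κ < r + 2) : List.TFAE [
      NoZeros c F ∧ ∃ m : ℤ, Order c F m ∧ m ≤ r,
      ∃ B : ℝ, ∃ᶠ Y : ℝ in atTop, MeanBound δ (excess (product c S α) κ) B Y,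
      ∃ B : ℝ, ∀ᶠ Y : ℝ in atTop, MeanBound δ (excess (product c S α) κ) B Y] := by
  have t := L.upper κ
  have e1 : (NoZeros c F ∧ ∃ m : ℤ, Order c F m ∧ (m : ℝ) ≤ κ) ↔ NoZeros c F ∧ ∃ m : ℤ, Order c F m ∧ m ≤ r := by
    refine and_congr_right fun _ => exists_congr fun m => and_congr_right fun hm => ⟨fun h => ?_, fun h => ?_⟩
    · have h3 : (m : ℝ) < r + 2 := lt_of_le_of_lt h h2
      have h4 : m < r + 2 := by exact_mod_cast h3
      have h5 := hp m hm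
      omega
    · exact le_trans (by exact_mod_cast h) h1
  rw [e1] at t
  exact t

/-- the order is not negative -/
theorem order_nonneg (hH : Holo c F) {m : ℤ} (hm : Order c F m) : 0 ≤ m := by
  obtain ⟨η, C, k, hη, h⟩ := hH
  have ho : IsOpen {s : ℂ | c - η < s.re} := isOpen_lt continuous_const Complex.continuous_re
  have hd : DifferentiableOn ℂ F {s : ℂ | c - η < s.re} := fun s hs => (h s hs).1.differentiableWithinAt
  have ha : AnalyticAt ℂ F c := hd.analyticAt (ho.mem_nhds (by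
    show c - η < (c : ℂ).re
    rw [Complex.ofReal_re]
    linarith))
  exact (order_nat ha hm).1

end Pool.Agent.Q18.P
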