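import Mathlib
import Pool.Agent.Q18.P.Dbl2
import Pool.Agent.Helper605.TraceR

/-!
# Eigenvalues of representations of finite groups
-/

set_option autoImplicit false
set_option linter.unusedSectionVars false

namespace Pool.Agent.Q18.P

open Polynomial Matrix

variable {n : ℕ}

theorem exists_fun (s : Multiset ℂ) (hs : s.card = n) : ∃ a : Fin n → ℂ, s = Finset.univ.val.map a := by
  obtain ⟨l, rfl⟩ := Quot.exists_rep s
  have h1 : l.length = n := hs
  subst h1
  refine ⟨l.get, ?_⟩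
  rw [Fin.univ_val_map, List.ofFn_get]
  rfl

/-- The `a j` are the eigenvalues of `M` with their multiplicities. -/
def IsEig (M : Matrix (Fin n) (Fin n) ℂ) (a : Fin n → ℂ) : Prop := M.charpoly.roots = Finset.univ.val.map a

theorem exists_eig (M : Matrix (Fin n) (Fin n) ℂ) : ∃ a : Fin n → ℂ, IsEig M a := by
  refine exists_fun _ ?_
  have h1 := (Polynomial.splits_iff_card_roots (f := M.charpoly)).1 (IsAlgClosed.splits _)
  rw [h1]
  simp

theorem IsEig.charpoly {M : Matrix (Fin n) (Fin n) ℂ} {a : Fin n → ℂ} (h : IsEig M a) :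
    M.charpoly = ∏ j, (X - C (a j)) := by
  have h1 := (IsAlgClosed.splits M.charpoly).eq_prod_roots
  rw [h1, (Matrix.charpoly_monic M).leadingCoeff, C_1, one_mul, h, Multiset.map_map]
  rfl

theorem IsEig.det {M : Matrix (Fin n) (Fin n) ℂ} {a : Fin n → ℂ} (h : IsEig M a) (z : ℂ) :
    (1 - z • M).det = ∏ j, (1 - a j * z) := by
  by_cases hz : z = 0
  · simp [hz]
  · have h1 : (1 : Matrix (Fin n) (Fin n) ℂ) - z • M = z • (Matrix.scalar (Fin n) z⁻¹ - M) := by
      rw [smul_sub, Matrix.scalar_apply]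
      congr 1
      ext i j
      by_cases hij : i = j
      · subst hij
        simp [hz]
      · simp [hij]
    rw [h1, Matrix.det_smul, ← Matrix.eval_charpoly, h.charpoly, Polynomial.eval_prod, Fintype.card_fin]
    simp only [Polynomial.eval_sub, Polynomial.eval_X, Polynomial.eval_C]
    have h2 : z ^ n = ∏ _j : Fin n, z := by rw [Finset.prod_const, Finset.card_univ, Fintype.card_fin]
    rw [h2, ← Finset.prod_mul_distrib]
    refine Finset.prod_congr rfl fun j _ => ?_
    rw [mul_sub, mul_inv_cancel₀ hz, mul_comm]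

theorem IsEig.trace {M : Matrix (Fin n) (Fin n) ℂ} {a : Fin n → ℂ} (h : IsEig M a) (k : ℕ) :
    ∑ j, a j ^ k = (M ^ k).trace := by
  rw [Pool.Agent.Helper605.trace_pow_roots, h, Multiset.map_map]
  rfl

theorem IsEig.norm {M : Matrix (Fin n) (Fin n) ℂ} {a : Fin n → ℂ} (h : IsEig M a) {m : ℕ} (hm : m ≠ 0)
    (hM : M ^ m = 1) (j : Fin n) : ‖a j‖ = 1 := by
  have h1 : a j ∈ M.charpoly.roots := by
    rw [h, Multiset.mem_map]
    exact ⟨j, Finset.mem_univ_val j, rfl⟩
  have h2 : M.charpoly.eval (a j) = 0 := (Polynomial.mem_roots'.1 h1).2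
  rw [Matrix.eval_charpoly] at h2
  obtain ⟨v, hv0, hv⟩ := Matrix.exists_mulVec_eq_zero_iff.2 h2
  have h3 : M *ᵥ v = a j • v := by
    rw [Matrix.sub_mulVec, sub_eq_zero] at hv
    rw [← hv]
    funext i
    simp [Matrix.scalar_apply, Matrix.mulVec_diagonal]
  have h4 : ∀ k : ℕ, (M ^ k) *ᵥ v = (a j) ^ k • v := by
    intro k
    induction k with
    | zero => simp
    | succ k ih => rw [pow_succ', ← Matrix.mulVec_mulVec, ih, Matrix.mulVec_smul, h3, smul_smul, pow_succ]
  have h5 := h4 m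
  rw [hM, Matrix.one_mulVec] at h5
  have h6 : (a j) ^ m = 1 := by
    by_contra h7
    obtain ⟨i, hi⟩ := Function.ne_iff.1 hv0
    have h8 := congrFun h5 i
    rw [Pi.smul_apply, smul_eq_mul] at h8
    refine h7 ?_
    have h9 : v i ≠ 0 := hi
    have : (a j ^ m) * v i = 1 * v i := by rw [← h8, one_mul]
    exact mul_right_cancel₀ h9 this
  exact Complex.norm_eq_one_of_pow_eq_one h6 hm

variable {G : Type} [Group G] [Finite G]

/-- the eigenvalues of `ρ(g)` -/
noncomputable def eig (ρ : G →* Matrix (Fin n) (Fin n) ℂ) (g : G) : Fin n → ℂ := Classical.choose (exists_eig (ρ g))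

theorem eig_spec (ρ : G →* Matrix (Fin n) (Fin n) ℂ) (g : G) : IsEig (ρ g) (eig ρ g) :=
  Classical.choose_spec (exists_eig (ρ g))

theorem eig_norm (ρ : G →* Matrix (Fin n) (Fin n) ℂ) (g : G) (j : Fin n) : ‖eig ρ g j‖ = 1 := by
  refine (eig_spec ρ g).norm (m := Nat.card G) Nat.card_pos.ne' ?_ j
  rw [← map_pow, pow_card_eq_one', map_one]

theorem eig_trace (ρ : G →* Matrix (Fin n) (Fin n) ℂ) (g : G) (k : ℕ) : ∑ j, eig ρ g j ^ k = (ρ (g ^ k)).trace := by
  rw [(eig_spec ρ g).trace, map_pow]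

theorem eig_det (ρ : G →* Matrix (Fin n) (Fin n) ℂ) (g : G) (z : ℂ) :
    (1 - z • ρ g).det = ∏ j, (1 - eig ρ g j * z) := (eig_spec ρ g).det z

end Pool.Agent.Q18.P
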