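import Mathlib
import Pool.Agent.Q18.P.Laws
import Pool.Agent.Q18.P.Artin

/-! # Tensor products of local parameters -/

set_option autoImplicit false

namespace Pool.Agent.Q18.P

open Filter Topology Set Complex NumberField IsDedekindDomain ComplexConjugate

variable {X : Type} {N n : ℕ}

/-- the products of the parameters -/
noncomputable def tensor (α : X → Fin N → ℂ) (β : X → Fin n → ℂ) (v : X) (j : Fin (N * n)) : ℂ :=
  α v (finProdFinEquiv.symm j).1 * β v (finProdFinEquiv.symm j).2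

theorem sum_tensor (α : X → Fin N → ℂ) (β : X → Fin n → ℂ) (v : X) (k : ℕ) :
    ∑ j, tensor α β v j ^ k = (∑ i, α v i ^ k) * ∑ l, β v l ^ k := by
  unfold tensor
  rw [← finProdFinEquiv.sum_comp, Fintype.sum_prod_type, Finset.sum_mul_sum]
  simp only [Equiv.symm_apply_apply, mul_pow]

theorem prod_tensor (α : X → Fin N → ℂ) (β : X → Fin n → ℂ) (v : X) (z : ℂ) :
    ∏ j, (1 - tensor α β v j * z) = ∏ i, ∏ l, (1 - α v i * β v l * z) := by
  unfold tensor
  rw [← finProdFinEquiv.prod_comp, Fintype.prod_prod_type]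
  simp only [Equiv.symm_apply_apply]

variable {K : Type} [Field K] [NumberField K]

theorem tensor_bdd {i : ℕ} {S : Finset (HeightOneSpectrum (𝓞 K))} {α : HeightOneSpectrum (𝓞 K) → Fin N → ℂ}
    {β : HeightOneSpectrum (𝓞 K) → Fin n → ℂ} (hα : Bdd i S α) (hβ : Bdd 0 S β) : Bdd i S (tensor α β) := by
  intro v hv j
  unfold tensor
  rw [norm_mul]
  have h1 := hα v hv (finProdFinEquiv.symm j).1
  have h2 := hβ v hv (finProdFinEquiv.symm j).2
  simp only [Nat.cast_zero, zero_div, Real.rpow_zero] at h2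
  calc _ ≤ (norm v : ℝ) ^ ((i : ℝ) / 2) * 1 := mul_le_mul h1 h2 (norm_nonneg _) (by positivity)
    _ = _ := mul_one _

theorem tensor_pure {i : ℕ} {S : Finset (HeightOneSpectrum (𝓞 K))} {α : HeightOneSpectrum (𝓞 K) → Fin N → ℂ}
    {β : HeightOneSpectrum (𝓞 K) → Fin n → ℂ} (hα : Pure i S α) (hβ : Pure 0 S β) : Pure i S (tensor α β) where
  le := tensor_bdd hα.le hβ.le
  real := fun v hv k => by
    rw [sum_tensor, Complex.mul_im, hα.real v hv k, hβ.real v hv k]
    ring

end Pool.Agent.Q18.P
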