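import Mathlib
import Pool.Agent.Q18.P.Tensor

/-! # Self-dual tempered parameters -/

set_option autoImplicit false

namespace Pool.Agent.Q18.P

open Filter Topology Set Complex NumberField IsDedekindDomain ComplexConjugate

variable {K : Type} [Field K] [NumberField K] {N n : ℕ}

/-- Tempered self-dual parameters: absolute value `1`, and stable under `z ↦ z⁻¹` with multiplicities. -/
structure SelfDual (S : Finset (HeightOneSpectrum (𝓞 K))) (a : HeightOneSpectrum (𝓞 K) → Fin N → ℂ) : Prop where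
  abs : ∀ v, v ∉ S → ∀ j, ‖a v j‖ = 1
  inv : ∀ v, v ∉ S → ∃ σ : Equiv.Perm (Fin N), ∀ j, a v (σ j) = (a v j)⁻¹

theorem SelfDual.pure {S : Finset (HeightOneSpectrum (𝓞 K))} {a : HeightOneSpectrum (𝓞 K) → Fin N → ℂ}
    (h : SelfDual S a) : Pure 0 S a where
  le := fun v hv j => by
    rw [h.abs v hv j]
    simp
  real := fun v hv k => by
    obtain ⟨σ, hσ⟩ := h.inv v hv
    rw [← Complex.conj_eq_iff_im, map_sum, ← Equiv.sum_comp σ (fun j => a v j ^ k)]
    refine Finset.sum_congr rfl fun j _ => ?_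
    rw [hσ, map_pow]
    congr 1
    exact (Complex.inv_eq_conj (h.abs v hv j)).symm

/-- nonvanishing at the centre -/
theorem value_iff {c : ℝ} {F : ℂ → ℂ} (hH : Holo c F) : Order c F 0 ↔ F c ≠ 0 := by
  obtain ⟨η, C, k, hη, h⟩ := hH
  have ho : IsOpen {s : ℂ | c - η < s.re} := isOpen_lt continuous_const Complex.continuous_re
  have hd : DifferentiableOn ℂ F {s : ℂ | c - η < s.re} := fun s hs => (h s hs).1.differentiableWithinAt
  have ha : AnalyticAt ℂ F c := hd.analyticAt (ho.mem_nhds (by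
    show c - η < (c : ℂ).re
    rw [Complex.ofReal_re]
    linarith))
  constructor
  · intro hm
    exact (order_nat ha hm).2.1 rfl
  · intro h1
    unfold Order
    rw [ha.meromorphicOrderAt_eq, ha.analyticOrderAt_eq_zero.2 h1]
    rfl

/-- the leading coefficient of order zero is the value -/
theorem lead_zero {c : ℝ} {F : ℂ → ℂ} (hH : Holo c F) {a : ℂ} : IsLeading c F 0 a ↔ F c ≠ 0 ∧ F c = a := by
  have h0 := value_iff hH
  obtain ⟨η, C, k, hη, h⟩ := hH
  have ho : IsOpen {s : ℂ | c - η < s.re} := isOpen_lt continuous_const Complex.continuous_re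
  have hd : DifferentiableOn ℂ F {s : ℂ | c - η < s.re} := fun s hs => (h s hs).1.differentiableWithinAt
  have ha : AnalyticAt ℂ F c := hd.analyticAt (ho.mem_nhds (by
    show c - η < (c : ℂ).re
    rw [Complex.ofReal_re]
    linarith))
  have h4 : Tendsto F (𝓝[≠] (c : ℂ)) (𝓝 (F c)) := ha.continuousAt.tendsto.mono_left nhdsWithin_le_nhds
  constructor
  · rintro ⟨h1, h2⟩
    exact ⟨h0.1 h1, tendsto_nhds_unique h4 (h2.congr fun s => by simp)⟩
  · rintro ⟨h1, rfl⟩
    exact ⟨h0.2 h1, h4.congr fun s => by simp⟩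

end Pool.Agent.Q18.P
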