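import Mathlib
import Pool.Agent.Q18.P.Dual

/-! # Lower bounds: the sandwich law -/

set_option autoImplicit false

namespace Pool.Agent.Q18.P

open Filter Topology Set Complex NumberField IsDedekindDomain MeasureTheory ComplexConjugate
open Pool.Agent.TH270.MS (LI)

variable {K : Type} [Field K] [NumberField K] {N : ℕ}

/-- the positive part of `κ log log y - log P(y)` -/
noncomputable def deficit (P : ℝ → ℝ) (κ y : ℝ) : ℝ := max (κ * Real.log (Real.log y) - Real.log (P y)) 0

variable {i : ℕ} {c : ℝ} {S : Finset (HeightOneSpectrum (𝓞 K))} {α : HeightOneSpectrum (𝓞 K) → Fin N → ℂ} {F : ℂ → ℂ}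

theorem deficit_le {P : ℝ → ℝ} {r κ : ℝ} (hrκ : κ ≤ r)
    (hl : ∀ κ : ℝ, LI fun y => Real.log (P y) - κ * Real.log (Real.log y)) {δ : ℝ} (h0 : 0 < δ) (h1 : δ < 1)
    (h : ∃ B : ℝ, ∀ᶠ Y : ℝ in atTop, MeanBound δ (error P r) B Y) :
    ∃ B : ℝ, ∀ᶠ Y : ℝ in atTop, MeanBound δ (deficit P κ) B Y := by
  obtain ⟨B, hB⟩ := h
  have hl' : LI fun y => κ * Real.log (Real.log y) - Real.log (P y) := by
    intro Y hY
    refine ((hl κ) Y hY).neg.congr fun y _ => ?_
    show -(Real.log (P y) - κ * Real.log (Real.log y)) = _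
    ring
  refine ⟨B, (hB.and (Pool.Agent.Q18.W.win_mono (Pool.Agent.Q18.W.LI.max0 hl') (hl r).abs (fun y hy => ?_)
    h0 h1)).mono fun Y hY => hY.2.trans hY.1⟩
  have hy0 : 0 < y := (Real.exp_pos 1).trans_le hy
  have hl : 0 ≤ Real.log (Real.log y) := by
    refine Real.log_nonneg ?_
    rwa [Real.le_log_iff_exp_le hy0]
  refine max_le (le_trans ?_ (neg_le_abs _)) (abs_nonneg _)
  have : κ * Real.log (Real.log y) ≤ r * Real.log (Real.log y) := by gcongr
  linarith

/-- `log log y` is not bounded on the windows -/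
theorem loglog_big {δ : ℝ} (h0 : 0 < δ) (h1 : δ < 1) (B : ℝ) {η : ℝ} (hη : 0 < η) :
    ∀ᶠ Y : ℝ in atTop, B * Real.log Y < ∫ y in Y ^ (1 - δ)..Y, η * Real.log (Real.log y) / y := by
  have hd : 0 < 1 - δ := by linarith
  have t1 : Tendsto (fun Y : ℝ => Real.log (Real.log (Y ^ (1 - δ)))) atTop atTop :=
    Real.tendsto_log_atTop.comp (Real.tendsto_log_atTop.comp (tendsto_rpow_atTop hd))
  filter_upwards [t1.eventually_gt_atTop ((|B| + 1) / (δ * η)), eventually_gt_atTop 1,
    (tendsto_rpow_atTop hd).eventually_ge_atTop (Real.exp 1)] with Y hY hY1 hY2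
  have hlog : 0 < Real.log Y := Real.log_pos hY1
  have hle : Y ^ (1 - δ) ≤ Y := by
    conv_rhs => rw [← Real.rpow_one Y]
    exact Real.rpow_le_rpow_of_exponent_le hY1.le (by linarith)
  have hp : 0 < Y ^ (1 - δ) := Real.rpow_pos_of_pos (by linarith) _
  have hle1 : (1 : ℝ) ≤ Real.log (Y ^ (1 - δ)) := by rwa [Real.le_log_iff_exp_le hp]
  set L := Real.log (Real.log (Y ^ (1 - δ))) with hL
  have h2 : ∫ y in Y ^ (1 - δ)..Y, η * L / y ≤ ∫ y in Y ^ (1 - δ)..Y, η * Real.log (Real.log y) / y := by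
    have hcont : ∀ y ∈ uIcc (Y ^ (1 - δ)) Y, 0 < y ∧ 1 ≤ Real.log y := by
      intro y hy
      rw [uIcc_of_le hle] at hy
      have hy0 : 0 < y := hp.trans_le hy.1
      refine ⟨hy0, hle1.trans (Real.log_le_log hp hy.1)⟩
    refine intervalIntegral.integral_mono_on hle ?_ ?_ fun y hy => ?_
    · refine ContinuousOn.intervalIntegrable fun y hy => ?_
      exact (continuousAt_const.div continuousAt_id (hcont y hy).1.ne').continuousWithinAt
    · refine ContinuousOn.intervalIntegrable fun y hy => ?_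
      obtain ⟨c1, c2⟩ := hcont y hy
      refine ContinuousAt.continuousWithinAt ?_
      refine ContinuousAt.div ?_ continuousAt_id c1.ne'
      exact continuousAt_const.mul ((Real.continuousAt_log c1.ne').log (by linarith))
    · have hy0 : 0 < y := hp.trans_le hy.1
      have : L ≤ Real.log (Real.log y) := by
        rw [hL]
        exact Real.log_le_log (by linarith) (Real.log_le_log hp hy.1)
      gcongr
  have h3 : ∫ y in Y ^ (1 - δ)..Y, η * L / y = η * L * (δ * Real.log Y) := by
    have e1 : ∀ y : ℝ, η * L / y = η * L * (1 / y) := fun y => by ring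
    simp only [e1]
    rw [intervalIntegral.integral_const_mul, integral_one_div_of_pos hp (by linarith),
      Real.log_div (by linarith) hp.ne', Real.log_rpow (by linarith)]
    ring
  rw [h3] at h2
  refine lt_of_lt_of_le ?_ h2
  have h4 : |B| + 1 < L * (δ * η) := by rwa [div_lt_iff₀ (by positivity)] at hY
  have h5 := le_abs_self B
  nlinarith

/-- **the sandwich law**: upper and lower bounds, on different sequences of windows -/
theorem Laws.sandwich (hc : c = ((i : ℝ) + 1) / 2) (h : Bdd i S α) (hH : Holo c F) (hE : Euler c S α F) {δ : ℝ}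
    (h0 : 0 < δ) (h1 : δ < 1) (κ κ' : ℝ) : List.TFAE [
      NoZeros c F ∧ ∃ m : ℤ, Order c F m ∧ κ' ≤ m ∧ (m : ℝ) ≤ κ,
      (∃ B : ℝ, ∃ᶠ Y : ℝ in atTop, MeanBound δ (excess (product c S α) κ) B Y) ∧
        ∃ B : ℝ, ∃ᶠ Y : ℝ in atTop, MeanBound δ (deficit (product c S α) κ') B Y,
      (∃ B : ℝ, ∀ᶠ Y : ℝ in atTop, MeanBound δ (excess (product c S α) κ) B Y) ∧
        ∃ B : ℝ, ∀ᶠ Y : ℝ in atTop, MeanBound δ (deficit (product c S α) κ') B Y] := by
  have hT := tempered_of hH hE
  have L := laws hc h hH hE h0 h1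
  tfae_have 1 → 3 := by
    rintro ⟨hz, m, hm, h2, h3⟩
    have hb := bound_of_rh' hc h hT hz hm h0 h1
    exact ⟨excess_le h3 (li_log' hc h) h0 h1 hb, deficit_le h2 (li_log' hc h) h0 h1 hb⟩
  tfae_have 3 → 2 := fun ⟨⟨B, hB⟩, ⟨B', hB'⟩⟩ => ⟨⟨B, hB.frequently⟩, ⟨B', hB'.frequently⟩⟩
  tfae_have 2 → 1 := by
    rintro ⟨hu, ⟨B', hB'⟩⟩
    obtain ⟨hz, m, hm, h3⟩ := ((L.upper κ).out 0 1).2 hu
    refine ⟨hz, m, hm, ?_, h3⟩
    by_contra hlt
    rw [not_le] at hlt
    obtain ⟨B, hB⟩ := bound_of_rh' hc h hT hz hm h0 h1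
    have hbig := loglog_big h0 h1 (B + B') (sub_pos.2 hlt)
    have ht := (tendsto_rpow_atTop (show 0 < 1 - δ by linarith)).eventually_ge_atTop (Real.exp 1)
    obtain ⟨Y, hY', hY, hYb, hY2, hY1⟩ := (hB'.and_eventually (hB.and (hbig.and (ht.and (eventually_ge_atTop 1))))).exists
    have hle : Y ^ (1 - δ) ≤ Y := by
      conv_rhs => rw [← Real.rpow_one Y]
      exact Real.rpow_le_rpow_of_exponent_le hY1 (by linarith)
    have ii : ∀ {T : ℝ → ℝ}, LI T → IntervalIntegrable (fun y => T y / y) volume (Y ^ (1 - δ)) Y := by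
      intro T hT
      have l1 := hT.div
      exact (l1 (Y ^ (1 - δ)) hY2).symm.trans (l1 Y (hY2.trans hle))
    have hle' : LI (error (product c S α) m) := (li_log' hc h (m : ℝ)).abs
    have hl2 : LI (deficit (product c S α) κ') := by
      refine Pool.Agent.Q18.W.LI.max0 ?_
      intro Z hZ
      refine ((li_log' hc h κ') Z hZ).neg.congr fun y _ => ?_
      show -(Real.log (product c S α y) - κ' * Real.log (Real.log y)) = _
      ring
    have i1 := ii hle'
    have i2 := ii hl2
    have i3 : IntervalIntegrable (fun y => (κ' - m) * Real.log (Real.log y) / y) volume (Y ^ (1 - δ)) Y := by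
      have l3 : LI fun y => (κ' - m) * Real.log (Real.log y) := by
        have e3 := Pool.Agent.Q18.W.loglog_li (κ' - m) 0
        simpa only [add_zero] using e3
      exact ii l3
    have h5 : ∫ y in Y ^ (1 - δ)..Y, (κ' - m) * Real.log (Real.log y) / y ≤
        ∫ y in Y ^ (1 - δ)..Y, (error (product c S α) m y / y + deficit (product c S α) κ' y / y) := by
      refine intervalIntegral.integral_mono_on hle i3 (i1.add i2) fun y hy => ?_
      have hy0 : 0 < y := (Real.exp_pos 1).trans_le (hY2.trans hy.1)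
      rw [← add_div]
      gcongr
      have e1 : -(error (product c S α) m y) ≤ Real.log (product c S α y) - m * Real.log (Real.log y) := by
        have : |Real.log (product c S α y) - m * Real.log (Real.log y)| = error (product c S α) m y := rfl
        rw [← this]
        exact neg_abs_le _
      have e2 : Real.log (product c S α y) - m * Real.log (Real.log y) ≤ error (product c S α) m y := le_abs_self _
      have e3 : κ' * Real.log (Real.log y) - Real.log (product c S α y) ≤ deficit (product c S α) κ' y :=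
        le_max_left _ _
      nlinarith
    rw [intervalIntegral.integral_add i1 i2] at h5
    have h6 : ∫ y in Y ^ (1 - δ)..Y, error (product c S α) m y / y ≤ B * Real.log Y := hY
    have h7 : ∫ y in Y ^ (1 - δ)..Y, deficit (product c S α) κ' y / y ≤ B' * Real.log Y := hY'
    nlinarith
  tfae_finish

end Pool.Agent.Q18.P
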