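import Mathlib
import Pool.Agent.Q18.P.Sand
import Pool.Agent.TH942.ES.NF

/-! # Elliptic curves over number fields -/

set_option autoImplicit false

namespace Pool.Agent.Q18.P.EC

open Filter Topology Set Complex NumberField IsDedekindDomain MeasureTheory ComplexConjugate
open Pool.Agent.H921R2.TatePole (nm two_le_nm)
open Pool.Agent.TH942.ES (GoodV rt rt_norm rt_prod trV trV_abs ptsV)

variable {K : Type} [Field K] [NumberField K]

/-- The prime `v` does not divide `6 (4 a³ + 27 b²)`. -/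
def Good (a b : 𝓞 K) (v : HeightOneSpectrum (𝓞 K)) : Prop :=
  6 * (4 * a ^ 3 + 27 * b ^ 2) ∉ v.asIdeal

/-- The number of affine points of `y² = x³ + a x + b` modulo `v`. -/
noncomputable def points (a b : 𝓞 K) (v : HeightOneSpectrum (𝓞 K)) : ℕ :=
  Nat.card {P : (𝓞 K ⧸ v.asIdeal) × (𝓞 K ⧸ v.asIdeal) //
    P.2 ^ 2 = P.1 ^ 3 + Ideal.Quotient.mk v.asIdeal a * P.1 + Ideal.Quotient.mk v.asIdeal b}

/-- `a_v = q_v + 1 - #E(k_v)`; `#E(k_v) = points + 1` -/
noncomputable def trace (a b : 𝓞 K) (v : HeightOneSpectrum (𝓞 K)) : ℤ := (norm v : ℤ) - points a b v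

/-- `a_{v^n} = α^n + β^n` for the roots `α`, `β` of `X² - a_v X + q_v`. -/
noncomputable def powerTrace (a b : 𝓞 K) (v : HeightOneSpectrum (𝓞 K)) : ℕ → ℤ
  | 0 => 2
  | 1 => trace a b v
  | n + 2 => trace a b v * powerTrace a b v (n + 1) - norm v * powerTrace a b v n

/-- `F` is the incomplete `L`-function of `E/K`: the Euler product over the places outside of `S` for `Re s > 3/2`. -/
def Euler (S : Finset (HeightOneSpectrum (𝓞 K))) (a b : 𝓞 K) (F : ℂ → ℂ) : Prop :=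
  ∀ s : ℂ, 3 / 2 < s.re → HasProd (fun v : {v : HeightOneSpectrum (𝓞 K) // v ∉ S} =>
    (1 - (trace a b v.1 : ℂ) * (norm v.1 : ℂ) ^ (-s) + (norm v.1 : ℂ) ^ (1 - 2 * s))⁻¹) (F s)

/-- `P(y) = ∏_{v ∉ S, q_v ≤ y} #E(k_v)/q_v`, the product of Birch and Swinnerton-Dyer -/
noncomputable def product (S : Finset (HeightOneSpectrum (𝓞 K))) (a b : 𝓞 K) (y : ℝ) : ℝ :=
  ∏ᶠ v ∈ upTo S y, ((points a b v : ℝ) + 1) / norm v

/-- `P*(y) = exp (- ∑_{v ∉ S, q_v^n ≤ y} (α_v^n + β_v^n)/(n q_v^n))`, `n = p.2 + 1` -/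
noncomputable def productStar (S : Finset (HeightOneSpectrum (𝓞 K))) (a b : 𝓞 K) (y : ℝ) : ℝ :=
  Real.exp (-∑ᶠ (p : {v : HeightOneSpectrum (𝓞 K) // v ∉ S} × ℕ) (_ : (norm p.1.1 : ℝ) ^ (p.2 + 1) ≤ y),
    (powerTrace a b p.1.1 (p.2 + 1) : ℝ) / (((p.2 : ℝ) + 1) * (norm p.1.1 : ℝ) ^ (p.2 + 1)))

open scoped Classical in
/-- The rank of the group of the `K`-rational points of `y² = x³ + a x + b`. -/
noncomputable def rank (a b : 𝓞 K) : ℕ :=
  Module.finrank ℤ
    (WeierstrassCurve.Affine.Point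
      (WeierstrassCurve.toAffine
        ({ a₁ := 0, a₂ := 0, a₃ := 0, a₄ := (a : K), a₆ := (b : K) } : WeierstrassCurve K)))

/-! ### the local roots -/

/-- the roots of `X² - a_v X + q_v` -/
noncomputable def al (a b : 𝓞 K) (v : HeightOneSpectrum (𝓞 K)) (j : Fin 2) : ℂ :=
  (√(nm v : ℝ) : ℝ) * rt (trV a b v) j

theorem two_le (v : HeightOneSpectrum (𝓞 K)) : (2 : ℝ) ≤ norm v := by
  exact_mod_cast two_le_nm v

theorem sqrt_pos (v : HeightOneSpectrum (𝓞 K)) : 0 < √(norm v : ℝ) := Real.sqrt_pos.2 (by linarith [two_le v])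

theorem sq_sqrt (v : HeightOneSpectrum (𝓞 K)) : √(norm v : ℝ) ^ 2 = norm v := Real.sq_sqrt (by linarith [two_le v])

variable {a b : 𝓞 K} {v : HeightOneSpectrum (𝓞 K)}

theorem al_le (h : Good a b v) (j : Fin 2) : ‖al a b v j‖ ≤ √(norm v : ℝ) := by
  have h1 := rt_norm (trV_abs (a := a) (b := b) h) j
  have h2 : 0 ≤ √(nm v : ℝ) := (sqrt_pos v).le
  unfold al
  rw [norm_mul, Complex.norm_real, Real.norm_of_nonneg h2]
  exact mul_le_of_le_one_right h2 h1

theorem rt_sum (t : ℝ) : rt t 0 + rt t 1 = 2 * t := by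
  show (t : ℂ) + √(1 - t ^ 2) * I + (t - √(1 - t ^ 2) * I) = 2 * t
  ring

theorem rt_mul {t : ℝ} (ht : |t| ≤ 1) : rt t 0 * rt t 1 = 1 := by
  have h1 := rt_prod ht 1
  have h2 := rt_sum t
  have h3 : (1 - rt t 0 * 1) * (1 - rt t 1 * 1) = 1 - (rt t 0 + rt t 1) + rt t 0 * rt t 1 := by ring
  rw [h3, h2] at h1
  linear_combination h1

theorem al_add : al a b v 0 + al a b v 1 = (trace a b v : ℂ) := by
  have h0 := sqrt_pos v
  have h1 := sq_sqrt v
  unfold al
  rw [← mul_add, rt_sum]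
  have h2 : √(nm v : ℝ) * (2 * trV a b v) = (nm v : ℝ) - ptsV a b v := by
    unfold trV
    have : √(nm v : ℝ) ≠ 0 := h0.ne'
    field_simp
  have h3 : ((√(nm v : ℝ) : ℝ) : ℂ) * (2 * (trV a b v : ℂ)) = ((√(nm v : ℝ) * (2 * trV a b v) : ℝ) : ℂ) := by
    push_cast; ring
  rw [h3, h2]
  unfold trace
  push_cast
  rfl

theorem al_mul (h : Good a b v) : al a b v 0 * al a b v 1 = norm v := by
  have h1 := rt_mul (trV_abs (a := a) (b := b) h)
  have h2 : ((√(nm v : ℝ) : ℝ) : ℂ) ^ 2 = nm v := by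
    exact_mod_cast congrArg (fun x : ℝ => (x : ℂ)) (sq_sqrt v)
  unfold al
  calc _ = ((√(nm v : ℝ) : ℝ) : ℂ) ^ 2 * (rt (trV a b v) 0 * rt (trV a b v) 1) := by ring
    _ = _ := by rw [h1, h2, mul_one]; rfl

theorem al_pow (h : Good a b v) (n : ℕ) : ∑ j, al a b v j ^ n = ((powerTrace a b v n : ℝ) : ℂ) := by
  rw [Fin.sum_univ_two]
  induction n using Nat.strong_induction_on with
  | _ n ih =>
    match n with
    | 0 =>
      unfold powerTrace
      norm_num
    | 1 =>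
      rw [pow_one, pow_one, al_add]
      unfold powerTrace
      push_cast
      rfl
    | n + 2 =>
      have h1 : al a b v 0 ^ (n + 2) + al a b v 1 ^ (n + 2) =
          (al a b v 0 + al a b v 1) * (al a b v 0 ^ (n + 1) + al a b v 1 ^ (n + 1)) -
            (al a b v 0 * al a b v 1) * (al a b v 0 ^ n + al a b v 1 ^ n) := by ring
      rw [h1, al_add, al_mul h, ih (n + 1) (by omega), ih n (by omega)]
      show _ = (((trace a b v * powerTrace a b v (n + 1) - norm v * powerTrace a b v n : ℤ) : ℝ) : ℂ)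
      push_cast
      ring

variable {S : Finset (HeightOneSpectrum (𝓞 K))} {F : ℂ → ℂ}

theorem pure (hS : ∀ v, v ∉ S → Good a b v) : Pure 1 S (al a b) where
  le := fun v hv j => by
    refine (al_le (hS v hv) j).trans_eq ?_
    rw [Real.sqrt_eq_rpow]
    simp
  real := fun v hv k => by
    rw [al_pow (hS v hv), Complex.ofReal_im]

theorem factor_eq (h : Good a b v) (s : ℂ) :
    1 - (trace a b v : ℂ) * (norm v : ℂ) ^ (-s) + (norm v : ℂ) ^ (1 - 2 * s) =
      ∏ j, (1 - al a b v j * (norm v : ℂ) ^ (-s)) := by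
  have hn : (norm v : ℂ) ≠ 0 := by
    have := two_le v
    have h2 : (norm v : ℝ) ≠ 0 := by linarith
    exact_mod_cast h2
  have h1 : (norm v : ℂ) ^ (1 - 2 * s) = (al a b v 0 * al a b v 1) * ((norm v : ℂ) ^ (-s)) ^ 2 := by
    rw [al_mul h, ← Complex.cpow_nat_mul, show 1 - 2 * s = 1 + ((2 : ℕ) : ℂ) * (-s) by push_cast; ring,
      Complex.cpow_add _ _ hn, Complex.cpow_one]
  rw [Fin.prod_univ_two, h1, ← al_add]
  ring

theorem euler (hS : ∀ v, v ∉ S → Good a b v) (hE : Euler S a b F) : Pool.Agent.Q18.P.Euler 1 S (al a b) F := by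
  intro s hs
  refine (hE s (by linarith)).congr_fun fun v => ?_
  rw [factor_eq (hS v.1 v.2)]

theorem product_eq (hS : ∀ v, v ∉ S → Good a b v) : product S a b = Pool.Agent.Q18.P.product 1 S (al a b) := by
  funext y
  unfold product Pool.Agent.Q18.P.product
  refine finprod_mem_congr rfl fun v hv => ?_
  have hn := two_le v
  have hn0 : (norm v : ℝ) ≠ 0 := by linarith
  have h2 := factor_eq (hS v hv.1) 1
  have e1 : (1 : ℂ) - (trace a b v : ℂ) * (norm v : ℂ) ^ (-(1 : ℂ)) + (norm v : ℂ) ^ (1 - 2 * (1 : ℂ)) =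
      ((((points a b v : ℝ) + 1) / norm v : ℝ) : ℂ) := by
    have hc : (norm v : ℂ) ≠ 0 := by exact_mod_cast hn0
    rw [show (1 : ℂ) - 2 * 1 = -1 by norm_num, Complex.cpow_neg_one]
    unfold trace
    push_cast
    field_simp
    ring
  rw [e1] at h2
  have e2 : ∏ j, (1 - al a b v j * (norm v : ℂ) ^ (-((1 : ℝ) : ℂ))) = ((((points a b v : ℝ) + 1) / norm v : ℝ) : ℂ) := by
    rw [h2, Complex.ofReal_one]
  rw [e2, Complex.norm_real, Real.norm_of_nonneg]
  positivity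

theorem star_eq (hS : ∀ v, v ∉ S → Good a b v) :
    productStar S a b = Pool.Agent.Q18.P.productStar 1 S (al a b) := by
  funext y
  unfold productStar Pool.Agent.Q18.P.productStar
  congr 2
  refine finsum_congr fun p => finsum_congr fun _ => ?_
  rw [al_pow (hS p.1.1 p.1.2), Complex.ofReal_re, Real.rpow_one]

theorem one_c : (1 : ℝ) = (((1 : ℕ) : ℝ) + 1) / 2 := by norm_num

end Pool.Agent.Q18.P.EC
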