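import Mathlib
import Pool.Agent.Q18.P.EC

/-! # Central values in a set of ratios: laws for real coefficients -/

set_option autoImplicit false

namespace Pool.Agent.Q18.P

open Filter Topology Set Complex NumberField IsDedekindDomain MeasureTheory ComplexConjugate

variable {K : Type} [Field K] [NumberField K] {N : ℕ}
variable {i : ℕ} {c : ℝ} {S : Finset (HeightOneSpectrum (𝓞 K))} {α : HeightOneSpectrum (𝓞 K) → Fin N → ℂ} {F : ℂ → ℂ}

theorem ratio_zero (Q : ℝ → ℝ) (A y : ℝ) : ratio Q A ((0 : ℤ) : ℝ) y = Real.log (A * Q y) := by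
  unfold Pool.Agent.Q18.P.ratio
  rw [Int.cast_zero, Real.rpow_zero, div_one]

/-- leading coefficients in a set: one sequence of windows, all windows -/
theorem lead_mem (hc : c = ((i : ℝ) + 1) / 2) (h : Pure i S α) (hH : Holo c F) (hE : Euler c S α F) {δ : ℝ}
    (h0 : 0 < δ) (h1 : δ < 1) (m : ℤ) (X : Set ℝ) (hX : ∀ A ∈ X, 0 < A) : List.TFAE [
      NoZeros c F ∧ ∃ A ∈ X, IsLeading c F m A,
      ∃ A ∈ X, ∀ ε : ℝ, 0 < ε → ∃ᶠ Y : ℝ in atTop, MeanBound δ (fun y => |ratio (productStar c S α) A m y|) ε Y,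
      ∃ A ∈ X, ∀ ε : ℝ, 0 < ε → ∀ᶠ Y : ℝ in atTop, MeanBound δ (fun y => |ratio (productStar c S α) A m y|) ε Y] := by
  have L1 : ∀ A : ℝ, 0 < A → ((NoZeros c F ∧ IsLeading c F m A) ↔ ∀ ε : ℝ, 0 < ε → ∃ᶠ Y : ℝ in atTop,
      MeanBound δ (fun y => |ratio (productStar c S α) A m y|) ε Y) :=
    fun A hA => (Laws.lead_real hc h hH hE h0 h1 m hA).out 0 1
  have L2 : ∀ A : ℝ, 0 < A → ((NoZeros c F ∧ IsLeading c F m A) ↔ ∀ ε : ℝ, 0 < ε → ∀ᶠ Y : ℝ in atTop,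
      MeanBound δ (fun y => |ratio (productStar c S α) A m y|) ε Y) :=
    fun A hA => (Laws.lead_real hc h hH hE h0 h1 m hA).out 0 2
  tfae_have 1 → 3 := by
    rintro ⟨hz, A, hA, hl⟩
    exact ⟨A, hA, (L2 A (hX A hA)).1 ⟨hz, hl⟩⟩
  tfae_have 3 → 2 := fun ⟨A, hA, h⟩ => ⟨A, hA, fun ε hε => (h ε hε).frequently⟩
  tfae_have 2 → 1 := by
    rintro ⟨A, hA, h⟩
    have h2 := (L1 A (hX A hA)).2 h
    exact ⟨h2.1, A, hA, h2.2⟩
  tfae_finish

/-- two leading coefficients of the same order agree -/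
theorem lead_unique {c : ℝ} {F : ℂ → ℂ} {m m' : ℤ} {a a' : ℂ} (h : IsLeading c F m a) (h' : IsLeading c F m' a') :
    m = m' ∧ a = a' := by
  have h1 := h.1
  rw [h'.1] at h1
  have h2 : m = m' := by exact_mod_cast h1.symm
  subst h2
  exact ⟨rfl, tendsto_nhds_unique h.2 h'.2⟩

end Pool.Agent.Q18.P
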