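import Mathlib
import Pool.Agent.Q18.P.Val

/-! # Nonvanishing and vanishing at the centre -/

set_option autoImplicit false

namespace Pool.Agent.Q18.P

open Filter Topology Set Complex NumberField IsDedekindDomain MeasureTheory ComplexConjugate

variable {K : Type} [Field K] [NumberField K] {N : ℕ}
variable {i : ℕ} {c : ℝ} {S : Finset (HeightOneSpectrum (𝓞 K))} {α : HeightOneSpectrum (𝓞 K) → Fin N → ℂ} {F : ℂ → ℂ}

theorem holo_analytic {c : ℝ} {F : ℂ → ℂ} (hH : Holo c F) : ∃ η : ℝ, 0 < η ∧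
    AnalyticOnNhd ℂ F {s : ℂ | c - η < s.re} := by
  obtain ⟨η, C, k, hη, h⟩ := hH
  have ho : IsOpen {s : ℂ | c - η < s.re} := isOpen_lt continuous_const Complex.continuous_re
  have hd : DifferentiableOn ℂ F {s : ℂ | c - η < s.re} := fun s hs => (h s hs).1.differentiableWithinAt
  exact ⟨η, hη, fun s hs => hd.analyticAt (ho.mem_nhds hs)⟩

/-- without zeros to the right the order is finite -/
theorem order_finite (hH : Holo c F) (hz : NoZeros c F) : ∃ m : ℤ, Order c F m := by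
  obtain ⟨η, hη, hon⟩ := holo_analytic hH
  have hmem : (c : ℂ) ∈ {s : ℂ | c - η < s.re} := by
    show c - η < (c : ℂ).re
    rw [Complex.ofReal_re]
    linarith
  have ha' := hon _ hmem
  cases hh : meromorphicOrderAt F (c : ℂ) with
  | coe m => exact ⟨m, hh⟩
  | top =>
    exfalso
    rw [ha'.meromorphicOrderAt_eq] at hh
    have h5 : analyticOrderAt F (c : ℂ) = ⊤ := by
      cases h6 : analyticOrderAt F (c : ℂ) with
      | top => rfl
      | coe n => rw [h6] at hh; exact absurd hh (by simp)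
    have h6 := analyticOrderAt_eq_top.1 h5
    have hpre : IsPreconnected {s : ℂ | c - η < s.re} := (convex_halfSpace_re_gt _).isPreconnected
    have h7 := hon.eqOn_zero_of_preconnected_of_eventuallyEq_zero hpre hmem h6
    have h8 : F ((c + 1 : ℝ) : ℂ) = 0 := h7 (by
      show c - η < ((c + 1 : ℝ) : ℂ).re
      rw [Complex.ofReal_re]
      linarith)
    exact hz _ (by rw [Complex.ofReal_re]; linarith) h8

/-- **vanishing** -/
theorem Laws.vanish {δ : ℝ} (L : Laws c S α F δ) (hH : Holo c F) : (NoZeros c F ∧ F c = 0) ↔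
    ∃ (m : ℤ) (B : ℝ), 1 ≤ m ∧ ∃ᶠ Y : ℝ in atTop, MeanBound δ (error (product c S α) m) B Y := by
  have hv := value_iff hH
  have ord : ∀ m : ℤ, (NoZeros c F ∧ Order c F m) ↔
      ∃ B : ℝ, ∃ᶠ Y : ℝ in atTop, MeanBound δ (error (product c S α) m) B Y :=
    fun m => (L.order m).out 0 1
  constructor
  · rintro ⟨hz, hc0⟩
    obtain ⟨m, hm⟩ := order_finite hH hz
    have h5 := order_nonneg hH hm
    have h6 : m ≠ 0 := by
      rintro rfl
      exact hv.1 hm hc0
    obtain ⟨B, hB⟩ := (ord m).1 ⟨hz, hm⟩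
    exact ⟨m, B, by omega, hB⟩
  · rintro ⟨m, B, hm1, hB⟩
    obtain ⟨hz, hm⟩ := (ord m).2 ⟨B, hB⟩
    refine ⟨hz, ?_⟩
    by_contra hne
    have h0' := hv.2 hne
    unfold Pool.Agent.Q18.P.Order at hm h0'
    rw [hm] at h0'
    have : m = 0 := by exact_mod_cast h0'
    omega

/-- **nonvanishing** -/
theorem Laws.nonvanish {δ : ℝ} (L : Laws c S α F δ) (hH : Holo c F) : List.TFAE [
      NoZeros c F ∧ F c ≠ 0,
      ∃ B : ℝ, ∃ᶠ Y : ℝ in atTop, MeanBound δ (fun y => |Real.log (product c S α y)|) B Y,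
      ∃ B : ℝ, ∀ᶠ Y : ℝ in atTop, MeanBound δ (fun y => |Real.log (product c S α y)|) B Y] := by
  have t := L.order 0
  rw [value_iff hH] at t
  have e1 : error (product c S α) ((0 : ℤ) : ℝ) = fun y => |Real.log (product c S α y)| := by
    funext y
    unfold error
    rw [Int.cast_zero, zero_mul, sub_zero]
  rw [e1] at t
  exact t

/-- **nonvanishing, even order** -/
theorem Laws.nonvanish_even {δ : ℝ} (L : Laws c S α F δ) (hH : Holo c F) (hp : ∀ m : ℤ, Order c F m → 2 ∣ m) {κ : ℝ}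
    (h2 : 0 ≤ κ) (h3 : κ < 2) : List.TFAE [
      NoZeros c F ∧ F c ≠ 0,
      ∃ B : ℝ, ∃ᶠ Y : ℝ in atTop, MeanBound δ (excess (product c S α) κ) B Y,
      ∃ B : ℝ, ∀ᶠ Y : ℝ in atTop, MeanBound δ (excess (product c S α) κ) B Y] := by
  have t := L.parity (r := 0) (fun m hm => by rw [sub_zero]; exact hp m hm) (by exact_mod_cast h2)
    (by rw [Int.cast_zero, zero_add]; exact h3)
  have e1 : (NoZeros c F ∧ ∃ m : ℤ, Order c F m ∧ m ≤ 0) ↔ NoZeros c F ∧ F c ≠ 0 := by
    refine and_congr_right fun _ => ?_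
    rw [← value_iff hH]
    refine ⟨?_, fun h => ⟨0, h, le_rfl⟩⟩
    rintro ⟨m, hm, hm0⟩
    have h5 := order_nonneg hH hm
    have : m = 0 := by omega
    rw [← this]
    exact hm
  rw [e1] at t
  exact t

/-- **the value** -/
theorem value_real (hc : c = ((i : ℝ) + 1) / 2) (h : Pure i S α) (hH : Holo c F) (hE : Euler c S α F) {δ : ℝ}
    (h0 : 0 < δ) (h1 : δ < 1) {A : ℝ} (hA : 0 < A) : List.TFAE [
      NoZeros c F ∧ F c = A,
      ∀ ε : ℝ, 0 < ε → ∃ᶠ Y : ℝ in atTop, MeanBound δ (fun y => |Real.log (A * productStar c S α y)|) ε Y,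
      ∀ ε : ℝ, 0 < ε → ∀ᶠ Y : ℝ in atTop, MeanBound δ (fun y => |Real.log (A * productStar c S α y)|) ε Y] := by
  have t := Laws.lead_real hc h hH hE h0 h1 0 hA
  have e1 : (NoZeros c F ∧ IsLeading c F 0 A) ↔ NoZeros c F ∧ F c = A := by
    refine and_congr_right fun _ => ?_
    rw [lead_zero hH]
    refine ⟨fun h => h.2, fun h => ⟨?_, h⟩⟩
    rw [h]
    exact_mod_cast hA.ne'
  rw [e1] at t
  simp only [ratio_zero] at t
  exact t

/-- with real coefficients and without zeros to the right the value is not negative -/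
theorem value_pos (hc : c = ((i : ℝ) + 1) / 2) (h : Pure i S α) (hH : Holo c F) (hE : Euler c S α F)
    (hz : NoZeros c F) (hne : F c ≠ 0) : ∃ A : ℝ, 0 < A ∧ F c = A := by
  obtain ⟨A, hA, hl⟩ := lead_exists hc h (tempered_of hH hE) hz ((value_iff hH).2 hne)
  exact ⟨A, hA, ((lead_zero hH).1 hl).2⟩

theorem holo_prod {ι : Type} {c : ℝ} (s : Finset ι) {F : ι → ℂ → ℂ} (h : ∀ i ∈ s, Holo c (F i)) :
    Holo c (fun z => ∏ i ∈ s, F i z) := by
  classical
  induction s using Finset.induction_on with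
  | empty => exact ⟨1, 1, 0, one_pos, fun z _ => ⟨by simp, by simp⟩⟩
  | insert i s hi ih =>
    obtain ⟨η, C, k, hη, h1⟩ := ih fun j hj => h j (Finset.mem_insert_of_mem hj)
    obtain ⟨η', C', k', hη', h2⟩ := h i (Finset.mem_insert_self i s)
    refine ⟨min η η', C' * C, k' + k, lt_min hη hη', fun z hz => ?_⟩
    have hz1 : c - η < z.re := lt_of_le_of_lt (by linarith [min_le_left η η']) hz
    have hz2 : c - η' < z.re := lt_of_le_of_lt (by linarith [min_le_right η η']) hz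
    obtain ⟨d1, b1⟩ := h1 z hz1
    obtain ⟨d2, b2⟩ := h2 z hz2
    simp only [Finset.prod_insert hi]
    refine ⟨d2.mul d1, ?_⟩
    rw [norm_mul, pow_add]
    calc ‖F i z‖ * ‖∏ i ∈ s, F i z‖ ≤ (C' * (1 + ‖z‖) ^ k') * (C * (1 + ‖z‖) ^ k) :=
          mul_le_mul b2 b1 (norm_nonneg _) ((norm_nonneg _).trans b2)
      _ = _ := by ring

end Pool.Agent.Q18.P
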