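import Mathlib
import Pool.Agent.Q18.P.Cent

/-! # Finite families of Euler products -/

set_option autoImplicit false

namespace Pool.Agent.Q18.P

open Filter Topology Set Complex NumberField IsDedekindDomain MeasureTheory ComplexConjugate

variable {K : Type} [Field K] [NumberField K] {m : ℕ} {N : Fin m → ℕ}

/-- the parameters of all members of the family -/
noncomputable def cat (r : (i : Fin m) → HeightOneSpectrum (𝓞 K) → Fin (N i) → ℂ) (v : HeightOneSpectrum (𝓞 K))
    (j : Fin (∑ i, N i)) : ℂ :=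
  r (finSigmaFinEquiv.symm j).1 v (finSigmaFinEquiv.symm j).2

variable {r : (i : Fin m) → HeightOneSpectrum (𝓞 K) → Fin (N i) → ℂ} {S : Finset (HeightOneSpectrum (𝓞 K))}
  {c : ℝ} {w : ℕ} {F : Fin m → ℂ → ℂ}

theorem sum_cat (v : HeightOneSpectrum (𝓞 K)) (k : ℕ) : ∑ j, cat r v j ^ k = ∑ i, ∑ j, r i v j ^ k := by
  rw [← Fintype.sum_sigma (fun p : (i : Fin m) × Fin (N i) => r p.1 v p.2 ^ k)]
  exact Equiv.sum_comp finSigmaFinEquiv.symm (fun p : (i : Fin m) × Fin (N i) => r p.1 v p.2 ^ k)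

theorem prod_cat (v : HeightOneSpectrum (𝓞 K)) (z : ℂ) :
    ∏ j, (1 - cat r v j * z) = ∏ i, ∏ j, (1 - r i v j * z) := by
  rw [← Fintype.prod_sigma (fun p : (i : Fin m) × Fin (N i) => 1 - r p.1 v p.2 * z)]
  exact Equiv.prod_comp finSigmaFinEquiv.symm (fun p : (i : Fin m) × Fin (N i) => 1 - r p.1 v p.2 * z)

theorem cat_bdd (h : ∀ i, Bdd w S (r i)) : Bdd w S (cat r) := fun v hv _ => h _ v hv _

theorem cat_pure (h : ∀ i, Pure w S (r i)) : Pure w S (cat r) where
  le := cat_bdd fun i => (h i).le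
  real := fun v hv k => by
    rw [sum_cat, Complex.im_sum]
    exact Finset.sum_eq_zero fun i _ => (h i).real v hv k

theorem cat_euler (h : ∀ i, Euler c S (r i) (F i)) : Euler c S (cat r) (fun s => ∏ i, F i s) := by
  intro s hs
  have h1 : HasProd (fun v : {v : HeightOneSpectrum (𝓞 K) // v ∉ S} => ∏ i,
      (∏ j, (1 - r i v.1 j * (norm v.1 : ℂ) ^ (-s)))⁻¹) (∏ i, F i s) :=
    hasProd_prod fun i _ => h i s hs
  refine h1.congr_fun fun v => ?_
  rw [prod_cat, Finset.prod_inv_distrib]

theorem product_cat (y : ℝ) : product c S (cat r) y = ∏ i, product c S (r i) y := by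
  unfold product
  have e1 : ∀ f : HeightOneSpectrum (𝓞 K) → ℝ, ∏ᶠ v ∈ upTo S y, f v = ∏ v ∈ (upTo_finite S y).toFinset, f v :=
    fun f => finprod_mem_eq_finite_toFinset_prod _ _
  rw [e1, Finset.prod_congr rfl fun i _ => e1 _, Finset.prod_comm]
  refine Finset.prod_congr rfl fun v _ => ?_
  rw [prod_cat, norm_prod]

theorem star_cat (y : ℝ) : productStar c S (cat r) y = ∏ i, productStar c S (r i) y := by
  unfold productStar
  rw [← Real.exp_sum, Finset.sum_neg_distrib]
  congr 2
  have hfin := pow_finite (K := K) S y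
  have e1 : ∀ β : {v : HeightOneSpectrum (𝓞 K) // v ∉ S} × ℕ → ℝ,
      (∑ᶠ (p : {v : HeightOneSpectrum (𝓞 K) // v ∉ S} × ℕ) (_ : (norm p.1.1 : ℝ) ^ (p.2 + 1) ≤ y), β p) =
        ∑ p ∈ hfin.toFinset, β p := fun β => finsum_mem_eq_finite_toFinset_sum β hfin
  rw [e1, Finset.sum_congr rfl fun i _ => e1 _, Finset.sum_comm]
  refine Finset.sum_congr rfl fun p _ => ?_
  rw [← Finset.sum_div, sum_cat, Complex.re_sum]

theorem noZeros_prod : NoZeros c (fun s => ∏ i, F i s) ↔ ∀ i, NoZeros c (F i) := by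
  refine ⟨fun h i s hs h0 => h s hs ?_, fun h s hs => ?_⟩
  · exact Finset.prod_eq_zero (Finset.mem_univ i) h0
  · exact Finset.prod_ne_zero_iff.2 fun i _ => h i s hs

/-- the order of the product is the sum of the orders -/
theorem order_prod {c : ℝ} {ι : Type} (s : Finset ι) {F : ι → ℂ → ℂ} (hH : ∀ i ∈ s, Holo c (F i)) {e : ι → ℤ}
    (h : ∀ i ∈ s, Order c (F i) (e i)) : Order c (fun z => ∏ i ∈ s, F i z) (∑ i ∈ s, e i) := by
  classical
  induction s using Finset.induction_on with
  | empty =>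
    unfold Order
    simp only [Finset.prod_empty, Finset.sum_empty]
    rw [(analyticAt_const (v := (1 : ℂ))).meromorphicOrderAt_eq,
      (analyticAt_const (v := (1 : ℂ)) (x := (c : ℂ))).analyticOrderAt_eq_zero.2 one_ne_zero]
    rfl
  | insert i s hi ih =>
    have h1 := ih (fun j hj => hH j (Finset.mem_insert_of_mem hj)) fun j hj => h j (Finset.mem_insert_of_mem hj)
    have h2 := h i (Finset.mem_insert_self i s)
    have mero : ∀ {G : ℂ → ℂ}, Holo c G → MeromorphicAt G c := by
      intro G hG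
      obtain ⟨η, hη, hon⟩ := holo_analytic hG
      exact (hon _ (by
        show c - η < (c : ℂ).re
        rw [Complex.ofReal_re]
        linarith)).meromorphicAt
    unfold Order at h1 h2 ⊢
    have e1 : (fun z => ∏ j ∈ insert i s, F j z) = F i * fun z => ∏ j ∈ s, F j z := by
      funext z
      rw [Finset.prod_insert hi]
      rfl
    rw [e1, meromorphicOrderAt_mul (mero (hH i (Finset.mem_insert_self i s)))
      (mero (holo_prod s fun j hj => hH j (Finset.mem_insert_of_mem hj))), h1, h2, Finset.sum_insert hi,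
      ← WithTop.coe_add]

end Pool.Agent.Q18.P
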