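import Mathlib
import Pool.Agent.Q18.P.Cat

/-! # Finite families indexed by a finite set, each with its own set of excluded places -/

set_option autoImplicit false
set_option linter.unusedSectionVars false

namespace Pool.Agent.Q18.P

open Filter Topology Set Complex NumberField IsDedekindDomain MeasureTheory ComplexConjugate

variable {K : Type} [Field K] [NumberField K] {N : ℕ}

open scoped Classical in
/-- the parameters, zero at the places in `S` -/
noncomputable def ext (S : Finset (HeightOneSpectrum (𝓞 K))) (α : HeightOneSpectrum (𝓞 K) → Fin N → ℂ)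
    (v : HeightOneSpectrum (𝓞 K)) (j : Fin N) : ℂ := if v ∈ S then 0 else α v j

variable {w : ℕ} {c : ℝ} {S : Finset (HeightOneSpectrum (𝓞 K))} {α : HeightOneSpectrum (𝓞 K) → Fin N → ℂ} {F : ℂ → ℂ}

theorem ext_not {v : HeightOneSpectrum (𝓞 K)} (hv : v ∉ S) : ext S α v = α v := by
  funext j
  unfold ext
  rw [if_neg hv]

theorem ext_mem {v : HeightOneSpectrum (𝓞 K)} (hv : v ∈ S) : ext S α v = 0 := by
  funext j
  unfold ext
  rw [if_pos hv]
  rfl

theorem ext_bdd (h : Bdd w S α) : Bdd w ∅ (ext S α) := by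
  intro v _ j
  by_cases hv : v ∈ S
  · rw [ext_mem hv, Pi.zero_apply, norm_zero]
    positivity
  · rw [ext_not hv]
    exact h v hv j

theorem ext_euler (h : Euler c S α F) : Euler c ∅ (ext S α) F := by
  classical
  intro s hs
  have h1 := h s hs
  set f : HeightOneSpectrum (𝓞 K) → ℂ := fun v => (∏ j, (1 - ext S α v j * (norm v : ℂ) ^ (-s)))⁻¹ with hf
  have h2 : HasProd (f ∘ ((↑) : {v : HeightOneSpectrum (𝓞 K) // v ∉ S} → HeightOneSpectrum (𝓞 K))) (F s) := by
    refine h1.congr_fun fun v => ?_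
    show f v.1 = _
    rw [hf]
    simp only
    rw [ext_not v.2]
  have h3 : HasProd f (F s) := by
    refine (hasProd_subtype_iff_of_mulSupport_subset (s := {v | v ∉ S}) ?_).1 h2
    intro v hv hvS
    refine hv ?_
    rw [hf]
    simp only
    rw [ext_mem hvS]
    simp
  exact (hasProd_subtype_iff_of_mulSupport_subset (f := f)
    (s := {v | v ∉ (∅ : Finset (HeightOneSpectrum (𝓞 K)))}) (fun v _ => Finset.notMem_empty v)).2 h3

theorem ext_product (y : ℝ) : product c ∅ (ext S α) y = product c S α y := by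
  classical
  unfold product
  rw [finprod_mem_eq_finite_toFinset_prod _ (upTo_finite ∅ y), finprod_mem_eq_finite_toFinset_prod _ (upTo_finite S y)]
  symm
  have hsub : (upTo_finite S y).toFinset ⊆ (upTo_finite (K := K) ∅ y).toFinset := by
    intro v hv
    rw [Set.Finite.mem_toFinset] at hv ⊢
    exact ⟨Finset.notMem_empty v, hv.2⟩
  rw [← Finset.prod_subset hsub (f := fun v => ‖∏ j, (1 - ext S α v j * (norm v : ℂ) ^ (-(c : ℂ)))‖) ?_]
  · refine Finset.prod_congr rfl fun v hv => ?_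
    rw [Set.Finite.mem_toFinset] at hv
    rw [ext_not hv.1]
  · intro v hv hv2
    rw [Set.Finite.mem_toFinset] at hv hv2
    have hvS : v ∈ S := by
      by_contra h4
      exact hv2 ⟨h4, hv.2⟩
    rw [ext_mem hvS]
    simp

/-- the order of `F` at `c` as an integer (`0` if it is infinite) -/
noncomputable def ord (c : ℝ) (F : ℂ → ℂ) : ℤ := (meromorphicOrderAt F c).untopD 0

theorem ord_of {m : ℤ} (h : Order c F m) : ord c F = m := by
  unfold ord
  unfold Order at h
  rw [h]
  rfl

theorem order_ord (hH : Holo c F) (hz : NoZeros c F) : Order c F (ord c F) := by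
  obtain ⟨m, hm⟩ := order_finite hH hz
  rw [ord_of hm]
  exact hm

/-- **Upper bounds for the sum of the orders over a finite set.** -/
theorem fam_upper {I : Type} (T : Finset I) {n : I → ℕ} {S : I → Finset (HeightOneSpectrum (𝓞 K))}
    {α : (i : I) → HeightOneSpectrum (𝓞 K) → Fin (n i) → ℂ} {F : I → ℂ → ℂ} (hc : c = ((w : ℝ) + 1) / 2)
    (hb : ∀ i ∈ T, Bdd w (S i) (α i)) (hH : ∀ i ∈ T, Holo c (F i)) (hE : ∀ i ∈ T, Euler c (S i) (α i) (F i))
    {δ : ℝ} (h0 : 0 < δ) (h1 : δ < 1) (κ : ℝ) : List.TFAE [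
      (∀ i ∈ T, NoZeros c (F i)) ∧ ((∑ i ∈ T, ord c (F i) : ℤ) : ℝ) ≤ κ,
      ∃ B : ℝ, ∃ᶠ Y : ℝ in atTop, MeanBound δ (excess (fun y => ∏ i ∈ T, product c (S i) (α i) y) κ) B Y,
      ∃ B : ℝ, ∀ᶠ Y : ℝ in atTop, MeanBound δ (excess (fun y => ∏ i ∈ T, product c (S i) (α i) y) κ) B Y] := by
  classical
  set g : Fin T.card → I := fun k => (T.equivFin.symm k : I) with hg
  have hgT : ∀ k, g k ∈ T := fun k => (T.equivFin.symm k).2
  set r : (k : Fin T.card) → HeightOneSpectrum (𝓞 K) → Fin (n (g k)) → ℂ := fun k => ext (S (g k)) (α (g k)) with hr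
  have hB : Bdd w ∅ (cat r) := cat_bdd fun k => ext_bdd (hb _ (hgT k))
  have hHp : Holo c (fun s => ∏ k, F (g k) s) := holo_prod _ fun k _ => hH _ (hgT k)
  have hEp : Euler c ∅ (cat r) (fun s => ∏ k, F (g k) s) := cat_euler fun k => ext_euler (hE _ (hgT k))
  have L := laws hc hB hHp hEp h0 h1
  have hprod : ∀ f : I → ℝ, ∏ k, f (g k) = ∏ i ∈ T, f i := by
    intro f
    rw [hg]
    rw [Equiv.prod_comp T.equivFin.symm (fun x : T => f x.1), Finset.prod_coe_sort]
  have hsumI : ∀ f : I → ℤ, ∑ k, f (g k) = ∑ i ∈ T, f i := by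
    intro f
    rw [hg]
    rw [Equiv.sum_comp T.equivFin.symm (fun x : T => f x.1), Finset.sum_coe_sort]
  have e1 : (fun y => ∏ i ∈ T, product c (S i) (α i) y) = product c ∅ (cat r) := by
    funext y
    rw [product_cat, ← hprod fun i => product c (S i) (α i) y]
    refine Finset.prod_congr rfl fun k _ => ?_
    rw [hr]
    simp only
    rw [ext_product]
  have hz : NoZeros c (fun s => ∏ k, F (g k) s) ↔ ∀ i ∈ T, NoZeros c (F i) := by
    rw [noZeros_prod]
    refine ⟨fun h i hi => ?_, fun h k => h _ (hgT k)⟩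
    have h2 := h (T.equivFin ⟨i, hi⟩)
    rw [hg] at h2
    simpa using h2
  rw [e1]
  have t := L.upper κ
  have e3 : (NoZeros c (fun s => ∏ k, F (g k) s) ∧ ∃ e : ℤ, Order c (fun s => ∏ k, F (g k) s) e ∧ (e : ℝ) ≤ κ) ↔
      ((∀ i ∈ T, NoZeros c (F i)) ∧ ((∑ i ∈ T, ord c (F i) : ℤ) : ℝ) ≤ κ) := by
    rw [hz]
    refine and_congr_right fun hzz => ?_
    have h3 : Order c (fun s => ∏ k, F (g k) s) (∑ i ∈ T, ord c (F i)) := by
      rw [← hsumI]
      exact order_prod Finset.univ (fun k _ => hH _ (hgT k)) fun k _ => order_ord (hH _ (hgT k)) (hzz _ (hgT k))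
    constructor
    · rintro ⟨e', he', hle⟩
      have h4 : e' = ∑ i ∈ T, ord c (F i) := by
        unfold Order at he' h3
        rw [he'] at h3
        exact_mod_cast h3
      rw [← h4]
      exact hle
    · intro hle
      exact ⟨_, h3, hle⟩
  rw [e3] at t
  exact t

end Pool.Agent.Q18.P
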