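import Mathlib
import Pool.Agent.Q18.P.Fam

/-! # Averages of central orders over growing families -/

set_option autoImplicit false
set_option linter.unusedSectionVars false

namespace Pool.Agent.Q18.P

open Filter Topology Set Complex NumberField IsDedekindDomain MeasureTheory ComplexConjugate

variable {K : Type} [Field K] [NumberField K] {I : Type} {w : ℕ} {c : ℝ}

/-- The data of a family: Euler products with bounded parameters, holomorphic of polynomial growth, with orders at `c`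
congruent to `ε i` modulo 2, `ε i ∈ {0, 1}`. -/
structure Family (w : ℕ) (c : ℝ) {n : I → ℕ} (S : I → Finset (HeightOneSpectrum (𝓞 K)))
    (α : (i : I) → HeightOneSpectrum (𝓞 K) → Fin (n i) → ℂ) (F : I → ℂ → ℂ) (ε : I → ℤ) : Prop where
  bdd : ∀ i, Bdd w (S i) (α i)
  holo : ∀ i, Holo c (F i)
  euler : ∀ i, Euler c (S i) (α i) (F i)
  range : ∀ i, ε i = 0 ∨ ε i = 1
  parity : ∀ i (m : ℤ), Order c (F i) m → 2 ∣ m - ε i

/-- `∏_{i ∈ T} P_i(y)` -/
noncomputable def joint (c : ℝ) {n : I → ℕ} (S : I → Finset (HeightOneSpectrum (𝓞 K)))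
    (α : (i : I) → HeightOneSpectrum (𝓞 K) → Fin (n i) → ℂ) (T : Finset I) (y : ℝ) : ℝ :=
  ∏ i ∈ T, product c (S i) (α i) y

open scoped Classical in
/-- the members of `T` whose order is not `ε i` -/
noncomputable def nonmin (c : ℝ) (F : I → ℂ → ℂ) (ε : I → ℤ) (T : Finset I) : Finset I :=
  T.filter fun i => ¬ Order c (F i) (ε i)

variable {n : I → ℕ} {S : I → Finset (HeightOneSpectrum (𝓞 K))}
  {α : (i : I) → HeightOneSpectrum (𝓞 K) → Fin (n i) → ℂ} {F : I → ℂ → ℂ} {ε : I → ℤ}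

theorem Family.le_ord (h : Family w c S α F ε) {i : I} (hz : NoZeros c (F i)) :
    ε i ≤ ord c (F i) ∧ (¬ Order c (F i) (ε i) → ε i + 2 ≤ ord c (F i)) := by
  have h1 := order_ord (h.holo i) hz
  have h2 := order_nonneg (h.holo i) h1
  have h3 := h.parity i _ h1
  have h4 := h.range i
  have h5 : ε i ≤ ord c (F i) := by omega
  refine ⟨h5, fun h6 => ?_⟩
  have h7 : ord c (F i) ≠ ε i := by
    intro h8
    rw [h8] at h1
    exact h6 h1
  omega

theorem Family.sum_ge (h : Family w c S α F ε) {T : Finset I} (hz : ∀ i ∈ T, NoZeros c (F i)) :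
    ∑ i ∈ T, ε i + 2 * (nonmin c F ε T).card ≤ ∑ i ∈ T, ord c (F i) := by
  classical
  have hcard : ((nonmin c F ε T).card : ℤ) = ∑ i ∈ T, if ¬ Order c (F i) (ε i) then (1 : ℤ) else 0 := by
    unfold nonmin
    rw [Finset.sum_boole]
  rw [hcard, Finset.mul_sum, ← Finset.sum_add_distrib]
  refine Finset.sum_le_sum fun i hi => ?_
  have h2 := h.le_ord (hz i hi)
  by_cases h3 : Order c (F i) (ε i)
  · rw [if_neg (not_not.2 h3)]
    linarith [h2.1]
  · rw [if_pos h3]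
    linarith [h2.2 h3]

theorem Family.upper (hc : c = ((w : ℝ) + 1) / 2) (h : Family w c S α F ε) (T : Finset I) {δ : ℝ} (h0 : 0 < δ)
    (h1 : δ < 1) (κ : ℝ) : List.TFAE [
      (∀ i ∈ T, NoZeros c (F i)) ∧ ((∑ i ∈ T, ord c (F i) : ℤ) : ℝ) ≤ κ,
      ∃ B : ℝ, ∃ᶠ Y : ℝ in atTop, MeanBound δ (excess (joint c S α T) κ) B Y,
      ∃ B : ℝ, ∀ᶠ Y : ℝ in atTop, MeanBound δ (excess (joint c S α T) κ) B Y] :=
  fam_upper T hc (fun i _ => h.bdd i) (fun i _ => h.holo i) (fun i _ => h.euler i) h0 h1 κ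

/-- the number of members with an order which is not minimal -/
theorem Family.count (hc : c = ((w : ℝ) + 1) / 2) (h : Family w c S α F ε) (T : Finset I) {δ : ℝ} (h0 : 0 < δ)
    (h1 : δ < 1) {κ B : ℝ} (hB : ∃ᶠ Y : ℝ in atTop, MeanBound δ (excess (joint c S α T) κ) B Y) :
    (∀ i ∈ T, NoZeros c (F i)) ∧ ((nonmin c F ε T).card : ℝ) ≤ (κ - ((∑ i ∈ T, ε i : ℤ) : ℝ)) / 2 := by
  have t : ((∀ i ∈ T, NoZeros c (F i)) ∧ ((∑ i ∈ T, ord c (F i) : ℤ) : ℝ) ≤ κ) ↔
    ∃ B : ℝ, ∃ᶠ Y : ℝ in atTop, MeanBound δ (excess (joint c S α T) κ) B Y := (h.upper hc T h0 h1 κ).out 0 1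
  obtain ⟨h2, h3⟩ := t.2 ⟨B, hB⟩
  refine ⟨h2, ?_⟩
  have h4 := h.sum_ge h2
  have h5 : ((∑ i ∈ T, ε i + 2 * (nonmin c F ε T).card : ℤ) : ℝ) ≤ κ := le_trans (by exact_mod_cast h4) h3
  push_cast at h5 ⊢
  linarith

/-- **Averages.** `T X` exhausts the family. -/
theorem Family.avg (hc : c = ((w : ℝ) + 1) / 2) (h : Family w c S α F ε) {T : ℕ → Finset I}
    (hT : ∀ i, ∀ᶠ X in atTop, i ∈ T X) {δ : ℝ} (h0 : 0 < δ) (h1 : δ < 1) : List.TFAE [
      (∀ i, NoZeros c (F i)) ∧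
        Tendsto (fun X => ((∑ i ∈ T X, (ord c (F i) - ε i) : ℤ) : ℝ) / (T X).card) atTop (𝓝 0),
      ∀ η : ℝ, 0 < η → ∀ᶠ X in atTop, ∃ B : ℝ, ∃ᶠ Y : ℝ in atTop,
        MeanBound δ (excess (joint c S α (T X)) (((∑ i ∈ T X, ε i : ℤ) : ℝ) + η * (T X).card)) B Y,
      ∀ η : ℝ, 0 < η → ∀ᶠ X in atTop, ∃ B : ℝ, ∀ᶠ Y : ℝ in atTop,
        MeanBound δ (excess (joint c S α (T X)) (((∑ i ∈ T X, ε i : ℤ) : ℝ) + η * (T X).card)) B Y] := by
  tfae_have 1 → 3 := by
    rintro ⟨hz, hl⟩ η hη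
    filter_upwards [hl.eventually (gt_mem_nhds hη)] with X hX
    have t : ((∀ i ∈ T X, NoZeros c (F i)) ∧ ((∑ i ∈ T X, ord c (F i) : ℤ) : ℝ) ≤
        ((∑ i ∈ T X, ε i : ℤ) : ℝ) + η * (T X).card) ↔ ∃ B : ℝ, ∀ᶠ Y : ℝ in atTop,
        MeanBound δ (excess (joint c S α (T X)) (((∑ i ∈ T X, ε i : ℤ) : ℝ) + η * (T X).card)) B Y :=
      (h.upper hc (T X) h0 h1 _).out 0 2
    refine t.1 ⟨fun i _ => hz i, ?_⟩
    have h2 : ((∑ i ∈ T X, (ord c (F i) - ε i) : ℤ) : ℝ) ≤ η * (T X).card := by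
      rcases (T X).eq_empty_or_nonempty with h3 | h3
      · rw [h3]; simp
      · have h4 : (0 : ℝ) < (T X).card := by exact_mod_cast Finset.card_pos.2 h3
        exact ((div_lt_iff₀ h4).1 hX).le
    rw [Finset.sum_sub_distrib] at h2
    push_cast at h2 ⊢
    linarith
  tfae_have 3 → 2 := fun h2 η hη => (h2 η hη).mono fun X ⟨B, hB⟩ => ⟨B, hB.frequently⟩
  tfae_have 2 → 1 := by
    intro h2
    have key : ∀ η : ℝ, 0 < η → ∀ᶠ X in atTop, (∀ i ∈ T X, NoZeros c (F i)) ∧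
        0 ≤ ((∑ i ∈ T X, (ord c (F i) - ε i) : ℤ) : ℝ) ∧
        ((∑ i ∈ T X, (ord c (F i) - ε i) : ℤ) : ℝ) ≤ η * (T X).card := by
      intro η hη
      filter_upwards [h2 η hη] with X hX
      have t : ((∀ i ∈ T X, NoZeros c (F i)) ∧ ((∑ i ∈ T X, ord c (F i) : ℤ) : ℝ) ≤
          ((∑ i ∈ T X, ε i : ℤ) : ℝ) + η * (T X).card) ↔ ∃ B : ℝ, ∃ᶠ Y : ℝ in atTop,
          MeanBound δ (excess (joint c S α (T X)) (((∑ i ∈ T X, ε i : ℤ) : ℝ) + η * (T X).card)) B Y :=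
        (h.upper hc (T X) h0 h1 _).out 0 1
      obtain ⟨h3, h4⟩ := t.2 hX
      refine ⟨h3, ?_, ?_⟩
      · have : 0 ≤ ∑ i ∈ T X, (ord c (F i) - ε i) :=
          Finset.sum_nonneg fun i hi => by linarith [(h.le_ord (h3 i hi)).1]
        exact_mod_cast this
      · rw [Finset.sum_sub_distrib]
        push_cast at h4 ⊢
        linarith
    refine ⟨fun i => ?_, ?_⟩
    · obtain ⟨X, hX1, hX2⟩ := ((hT i).and (key 1 one_pos)).exists
      exact hX2.1 i hX1
    · rw [Metric.tendsto_nhds]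
      intro η hη
      filter_upwards [key (η / 2) (by linarith)] with X hX
      rw [Real.dist_eq, sub_zero, abs_of_nonneg (div_nonneg hX.2.1 (Nat.cast_nonneg _))]
      rcases (T X).eq_empty_or_nonempty with h3 | h3
      · rw [h3]
        simpa using hη
      · have h4 : (0 : ℝ) < (T X).card := by exact_mod_cast Finset.card_pos.2 h3
        rw [div_lt_iff₀ h4]
        nlinarith [hX.2.2]
  tfae_finish

/-- the members with a minimal order have density one if the average of `ord - ε` tends to zero -/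
theorem Family.density (h : Family w c S α F ε) {T : ℕ → Finset I} (hne : ∀ᶠ X in atTop, (T X).Nonempty)
    (hz : ∀ i, NoZeros c (F i))
    (hl : Tendsto (fun X => ((∑ i ∈ T X, (ord c (F i) - ε i) : ℤ) : ℝ) / (T X).card) atTop (𝓝 0)) :
    Tendsto (fun X => ((nonmin c F ε (T X)).card : ℝ) / (T X).card) atTop (𝓝 0) := by
  refine squeeze_zero' (Eventually.of_forall fun X => by positivity) ?_ hl
  filter_upwards [hne] with X hX
  have h4 : (0 : ℝ) < (T X).card := by exact_mod_cast Finset.card_pos.2 hX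
  rw [div_le_div_iff_of_pos_right h4]
  have h5 := h.sum_ge (T := T X) fun i _ => hz i
  have h6 : (0 : ℤ) ≤ (nonmin c F ε (T X)).card := by positivity
  have h7 : ((nonmin c F ε (T X)).card : ℤ) ≤ ∑ i ∈ T X, (ord c (F i) - ε i) := by
    rw [Finset.sum_sub_distrib]
    omega
  exact_mod_cast h7

end Pool.Agent.Q18.P
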