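import Mathlib
import Pool.Agent.Q18.P.RS3

/-!
# `GL_2` over a number field through the fourth symmetric power
-/

set_option autoImplicit false
set_option linter.unusedSectionVars false

namespace Pool.Agent.Q18.P

open Filter Topology Set Complex MeasureTheory NumberField IsDedekindDomain
open Pool.Agent.Q12.WN
open Pool.Agent.TH861.GL3 (PL qq two_le_qq summable_qq)

/-- `x + 1/x` is increasing for `x ≥ 1` -/
theorem cosh_mono {x y : ℝ} (hx : 1 ≤ x) (hxy : x ≤ y) : x + x⁻¹ ≤ y + y⁻¹ := by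
  have hx0 : 0 < x := by linarith
  have hy0 : 0 < y := by linarith
  rw [← sub_nonneg]
  have e : y + y⁻¹ - (x + x⁻¹) = (y - x) * (x * y - 1) / (x * y) := by
    field_simp
    ring
  rw [e]
  have : 1 ≤ x * y := by nlinarith
  exact div_nonneg (mul_nonneg (by linarith) (by linarith)) (by positivity)

theorem cosh_lt {x y : ℝ} (hx : 1 ≤ x) (hxy : x < y) : x + x⁻¹ < y + y⁻¹ := by
  have hx0 : 0 < x := by linarith
  have hy0 : 0 < y := by linarith
  rw [← sub_pos]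
  have e : y + y⁻¹ - (x + x⁻¹) = (y - x) * (x * y - 1) / (x * y) := by
    field_simp
    ring
  rw [e]
  have : 1 < x * y := by nlinarith
  exact div_pos (mul_pos (by linarith) (by linarith)) (by positivity)

/-- `|α| + |β| ≤ q^θ + q^{-θ}` if `|α| |β| = 1` and `|log_q |α|| ≤ θ` -/
theorem sum_norm_le {q : ℝ} (hq : 1 < q) {α β : ℂ} (h : ‖α * β‖ = 1) {θ : ℝ} (hθ : |Real.logb q ‖α‖| ≤ θ) :
    ‖α + β‖ ≤ q ^ θ + q ^ (-θ) := by
  have hq0 : 0 < q := by linarith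
  rw [norm_mul] at h
  have hα : 0 < ‖α‖ := by
    rcases (norm_nonneg α).lt_or_eq with h1 | h1
    · exact h1
    · rw [← h1, zero_mul] at h
      exact absurd h zero_ne_one
  have hβ : ‖β‖ = ‖α‖⁻¹ := (eq_inv_of_mul_eq_one_right h)
  set x : ℝ := q ^ |Real.logb q ‖α‖| with hx
  have hx1 : 1 ≤ x := Real.one_le_rpow hq.le (abs_nonneg _)
  have hsum : ‖α‖ + ‖β‖ = x + x⁻¹ := by
    rw [hβ]
    have e : q ^ Real.logb q ‖α‖ = ‖α‖ := Real.rpow_logb hq0 hq.ne' hα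
    rcases le_total 0 (Real.logb q ‖α‖) with h2 | h2
    · rw [hx, abs_of_nonneg h2, e]
    · rw [hx, abs_of_nonpos h2, Real.rpow_neg hq0.le, e, inv_inv, add_comm]
  calc ‖α + β‖ ≤ ‖α‖ + ‖β‖ := norm_add_le _ _
    _ = x + x⁻¹ := hsum
    _ ≤ q ^ θ + (q ^ θ)⁻¹ := cosh_mono hx1 (Real.rpow_le_rpow_of_exponent_le hq.le hθ)
    _ = q ^ θ + q ^ (-θ) := by rw [Real.rpow_neg hq0.le]

theorem sum_norm_lt {q : ℝ} (hq : 1 < q) {α β : ℂ} (h : ‖α * β‖ = 1) {θ : ℝ} (hθ : |Real.logb q ‖α‖| < θ) :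
    ‖α + β‖ < q ^ θ + q ^ (-θ) := by
  have hq0 : 0 < q := by linarith
  refine (sum_norm_le hq h le_rfl).trans_lt ?_
  rw [Real.rpow_neg hq0.le, Real.rpow_neg hq0.le]
  exact cosh_lt (Real.one_le_rpow hq.le (abs_nonneg _)) (Real.rpow_lt_rpow_of_exponent_lt hq hθ)

theorem two_lt {q : ℝ} (hq : 1 < q) {θ : ℝ} (hθ : 0 < θ) : 2 < q ^ θ + q ^ (-θ) := by
  have hq0 : 0 < q := by linarith
  have := cosh_lt (x := 1) (y := q ^ θ) le_rfl (Real.one_lt_rpow hq hθ)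
  rw [Real.rpow_neg hq0.le]
  norm_num at this
  linarith

variable {K : Type*} [Field K] [NumberField K] {S : Finset (HeightOneSpectrum (𝓞 K))}

/-- the parameters of the fourth symmetric power -/
def sym4K (α β : PL S → ℂ) (v : PL S) (i : Fin 5) : ℂ := α v ^ (4 - (i : ℕ)) * β v ^ (i : ℕ)

theorem sum_sym4K (α β : PL S → ℂ) (v : PL S) :
    ∑ i, sym4K α β v i = (α v + β v) ^ 4 - 3 * (α v * β v) * (α v + β v) ^ 2 + (α v * β v) ^ 2 := by
  unfold sym4K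
  simp [Fin.sum_univ_succ]
  ring

theorem logb_sym4K (α β : PL S → ℂ) (v : PL S) :
    2 * |Real.logb (qq v.1 : ℝ) ‖sym4K α β v 0‖| = 8 * |Real.logb (qq v.1 : ℝ) ‖α v‖| := by
  have e1 : sym4K α β v 0 = α v ^ 4 := by
    unfold sym4K
    simp
  rw [e1, norm_pow, Real.logb_pow, abs_mul]
  have e2 : |((4 : ℕ) : ℝ)| = 4 := by norm_num
  rw [e2]
  ring

end Pool.Agent.Q18.P
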