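import Mathlib
import Pool.Agent.Q18.P.Cat

/-! # The point `c + it` on the critical line -/

set_option autoImplicit false

namespace Pool.Agent.Q18.P

open Filter Topology Set Complex NumberField IsDedekindDomain MeasureTheory ComplexConjugate

variable {K : Type} [Field K] [NumberField K] {N : ℕ}

/-- the function `s ↦ F(it + s)` -/
def up (t : ℝ) (F : ℂ → ℂ) (s : ℂ) : ℂ := F ((t : ℂ) * I + s)

/-- the parameters `α_{v,j} q_v^{-it}` -/
noncomputable def twist (t : ℝ) (α : HeightOneSpectrum (𝓞 K) → Fin N → ℂ) (v : HeightOneSpectrum (𝓞 K)) (j : Fin N) : ℂ :=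
  α v j * (norm v : ℂ) ^ (-((t : ℂ) * I))

theorem norm_pos' (v : HeightOneSpectrum (𝓞 K)) : (0 : ℝ) < norm v := by
  have h1 := Pool.Agent.H921R2.TatePole.two_le_nm v
  have h2 : norm v = Pool.Agent.H921R2.TatePole.nm v := norm_eq v
  rw [h2]
  exact_mod_cast lt_of_lt_of_le (by norm_num) h1

theorem norm_cpow_it (v : HeightOneSpectrum (𝓞 K)) (t : ℝ) : ‖(norm v : ℂ) ^ (-((t : ℂ) * I))‖ = 1 := by
  have h := norm_pos' v
  have e1 : (norm v : ℂ) = (((norm v : ℝ)) : ℂ) := by norm_cast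
  rw [e1, Complex.norm_cpow_eq_rpow_re_of_pos h]
  simp

variable {t : ℝ} {i : ℕ} {c : ℝ} {S : Finset (HeightOneSpectrum (𝓞 K))} {α : HeightOneSpectrum (𝓞 K) → Fin N → ℂ}
  {F : ℂ → ℂ}

theorem up_re (s : ℂ) : ((t : ℂ) * I + s).re = s.re := by simp

theorem twist_bdd (h : Bdd i S α) : Bdd i S (twist t α) := by
  intro v hv j
  unfold twist
  rw [norm_mul, norm_cpow_it, mul_one]
  exact h v hv j

theorem twist_factor (v : HeightOneSpectrum (𝓞 K)) (j : Fin N) (s : ℂ) :
    1 - α v j * (norm v : ℂ) ^ (-((t : ℂ) * I + s)) = 1 - twist t α v j * (norm v : ℂ) ^ (-s) := by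
  have hn : (norm v : ℂ) ≠ 0 := by
    have := norm_pos' v
    have h2 : (norm v : ℝ) ≠ 0 := this.ne'
    exact_mod_cast h2
  unfold twist
  rw [neg_add, Complex.cpow_add _ _ hn]
  ring

theorem up_euler (h : Euler c S α F) : Euler c S (twist t α) (up t F) := by
  intro s hs
  have h1 := h ((t : ℂ) * I + s) (by rw [up_re]; exact hs)
  refine h1.congr_fun fun v => ?_
  congr 1
  exact Finset.prod_congr rfl fun j _ => (twist_factor v.1 j s).symm

theorem up_holo (h : Holo c F) : Holo c (up t F) := by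
  obtain ⟨η, C, k, hη, h⟩ := h
  refine ⟨η, C * (1 + |t|) ^ k, k, hη, fun s hs => ?_⟩
  obtain ⟨h1, h2⟩ := h ((t : ℂ) * I + s) (by rw [up_re]; exact hs)
  have hC : 0 ≤ C := by
    have h3 : (0 : ℝ) ≤ C * (1 + ‖(t : ℂ) * I + s‖) ^ k := (norm_nonneg _).trans h2
    by_contra h4
    push Not at h4
    have h5 : 0 < (1 + ‖(t : ℂ) * I + s‖) ^ k := by positivity
    nlinarith
  refine ⟨?_, h2.trans ?_⟩
  · have h3 : DifferentiableAt ℂ (fun z : ℂ => (t : ℂ) * I + z) s := by fun_prop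
    exact DifferentiableAt.comp s h1 h3
  · rw [mul_assoc, ← mul_pow]
    refine mul_le_mul_of_nonneg_left (pow_le_pow_left₀ (by positivity) ?_ k) hC
    have h3 : ‖(t : ℂ) * I + s‖ ≤ |t| + ‖s‖ := by
      refine (norm_add_le _ _).trans_eq ?_
      rw [norm_mul, Complex.norm_I, mul_one, Complex.norm_real, Real.norm_eq_abs]
    have h4 : 0 ≤ |t| * ‖s‖ := by positivity
    nlinarith

theorem up_noZeros : NoZeros c (up t F) ↔ NoZeros c F := by
  refine ⟨fun h s hs h0 => ?_, fun h s hs => h _ (by rw [up_re]; exact hs)⟩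
  refine h (s - (t : ℂ) * I) ?_ ?_
  · rw [Complex.sub_re]
    simpa using hs
  · unfold up
    rw [add_sub_cancel]
    exact h0

theorem up_order (m : ℤ) : Order c (up t F) m ↔ meromorphicOrderAt F ((c : ℂ) + (t : ℂ) * I) = m := by
  unfold Order up
  rw [Pool.Agent.Q18.W.ord_shift F ((t : ℂ) * I) (c : ℂ), add_comm]

/-- the partial Euler product at `c + it` -/
noncomputable def productAt (c t : ℝ) (S : Finset (HeightOneSpectrum (𝓞 K)))
    (α : HeightOneSpectrum (𝓞 K) → Fin N → ℂ) (y : ℝ) : ℝ := product c S (twist t α) y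

theorem laws_at (hc : c = ((i : ℝ) + 1) / 2) (h : Bdd i S α) (hH : Holo c F) (hE : Euler c S α F) {δ : ℝ}
    (h0 : 0 < δ) (h1 : δ < 1) (t : ℝ) : Laws c S (twist t α) (up t F) δ :=
  laws hc (twist_bdd h) (up_holo hH) (up_euler hE) h0 h1

end Pool.Agent.Q18.P
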