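import Mathlib
import Pool.Agent.Q18.P.Cat

/-! # Finite families with signs: the number of members whose central order is not the least one -/

set_option autoImplicit false

namespace Pool.Agent.Q18.P

open Filter Topology Set Complex NumberField IsDedekindDomain MeasureTheory ComplexConjugate

variable {K : Type} [Field K] [NumberField K] {m : ℕ} {N : Fin m → ℕ}

theorem signs {r : (i : Fin m) → HeightOneSpectrum (𝓞 K) → Fin (N i) → ℂ} {S : Finset (HeightOneSpectrum (𝓞 K))}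
    {c : ℝ} {w : ℕ} (hc : c = ((w : ℝ) + 1) / 2) {F : Fin m → ℂ → ℂ} (hP : ∀ i, Bdd w S (r i))
    (hH : ∀ i, Holo c (F i)) (hE : ∀ i, Euler c S (r i) (F i)) (ε : Fin m → ℤ) (hε : ∀ i, ε i = 0 ∨ ε i = 1)
    (hpar : ∀ i, ∀ e : ℤ, Order c (F i) e → 2 ∣ e - ε i) (fine : Fin m → Prop)
    (hfine : ∀ i, Order c (F i) (ε i) → fine i) {δ : ℝ} (h0 : 0 < δ) (h1 : δ < 1) :
    (∀ κ B : ℝ, (∃ᶠ Y : ℝ in atTop, MeanBound δ (excess (fun y => ∏ i, product c S (r i) y) κ) B Y) →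
      (∀ i, NoZeros c (F i)) ∧ (Nat.card {i // ¬ fine i} : ℝ) ≤ (κ - ((∑ i, ε i : ℤ) : ℝ)) / 2 ∧
      (κ < ((∑ i, ε i : ℤ) : ℝ) + 2 → ∀ i, Order c (F i) (ε i))) ∧
    (∀ κ : ℝ, ((∑ i, ε i : ℤ) : ℝ) ≤ κ → κ < ((∑ i, ε i : ℤ) : ℝ) + 2 → List.TFAE [
      (∀ i, NoZeros c (F i)) ∧ ∀ i, Order c (F i) (ε i),
      ∃ B : ℝ, ∃ᶠ Y : ℝ in atTop, MeanBound δ (excess (fun y => ∏ i, product c S (r i) y) κ) B Y,
      ∃ B : ℝ, ∀ᶠ Y : ℝ in atTop, MeanBound δ (excess (fun y => ∏ i, product c S (r i) y) κ) B Y]) ∧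
    (∀ κ : ℝ, List.TFAE [
      (∀ i, NoZeros c (F i)) ∧ ∃ e : Fin m → ℤ, (∀ i, Order c (F i) (e i)) ∧ ((∑ i, e i : ℤ) : ℝ) ≤ κ,
      ∃ B : ℝ, ∃ᶠ Y : ℝ in atTop, MeanBound δ (excess (fun y => ∏ i, product c S (r i) y) κ) B Y,
      ∃ B : ℝ, ∀ᶠ Y : ℝ in atTop, MeanBound δ (excess (fun y => ∏ i, product c S (r i) y) κ) B Y]) := by
  classical
  have hH' : Holo c (fun s => ∏ i, F i s) := holo_prod _ fun i _ => hH i
  have hE' : Euler c S (cat r) (fun s => ∏ i, F i s) := cat_euler hE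
  have L := laws hc (cat_bdd hP) hH' hE' h0 h1
  have e1 : (fun y => ∏ i, product c S (r i) y) = product c S (cat r) := by
    funext y
    rw [product_cat]
  have hz : NoZeros c (fun s => ∏ i, F i s) ↔ ∀ i, NoZeros c (F i) := noZeros_prod
  have hfin : (∀ i, NoZeros c (F i)) → ∃ e : Fin m → ℤ, ∀ i, Order c (F i) (e i) := by
    intro h2
    have := fun i => order_finite (hH i) (h2 i)
    choose e he using this
    exact ⟨e, he⟩
  have hsum : ∀ e : Fin m → ℤ, (∀ i, Order c (F i) (e i)) → Order c (fun s => ∏ i, F i s) (∑ i, e i) :=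
    fun e he => order_prod Finset.univ (fun i _ => hH i) fun i _ => he i
  have huniq : ∀ e e' : ℤ, Order c (fun s => ∏ i, F i s) e → Order c (fun s => ∏ i, F i s) e' → e = e' := by
    intro e e' h2 h'
    unfold Order at h2 h'
    rw [h2] at h'
    exact_mod_cast h'
  have hmod : ∀ (e : Fin m → ℤ), (∀ i, Order c (F i) (e i)) → ∀ i, ε i ≤ e i ∧ 2 ∣ e i - ε i := by
    intro e he i
    have h2 := order_nonneg (hH i) (he i)
    have h4 := hpar i _ (he i)
    rcases hε i with h5 | h5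
    · rw [h5] at h4 ⊢
      exact ⟨h2, h4⟩
    · rw [h5] at h4 ⊢
      exact ⟨by omega, h4⟩
  have hcount : ∀ (e : Fin m → ℤ), (∀ i, Order c (F i) (e i)) →
      (∑ i, ε i) + 2 * Nat.card {i // ¬ fine i} ≤ ∑ i, e i := by
    intro e he
    have hcard : (Nat.card {i // ¬ fine i} : ℤ) = ∑ i : Fin m, if ¬ fine i then (1 : ℤ) else 0 := by
      rw [Finset.sum_boole, Nat.card_eq_fintype_card, Fintype.card_subtype]
    rw [hcard, Finset.mul_sum, ← Finset.sum_add_distrib]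
    refine Finset.sum_le_sum fun i _ => ?_
    have h2 := hmod e he i
    by_cases h3 : fine i
    · rw [if_neg (not_not.2 h3)]
      omega
    · rw [if_pos h3]
      have h4 : e i ≠ ε i := fun h5 => h3 (hfine i (by rw [← h5]; exact he i))
      omega
  have hup : ∀ κ : ℝ, List.TFAE [
      (∀ i, NoZeros c (F i)) ∧ ∃ e : Fin m → ℤ, (∀ i, Order c (F i) (e i)) ∧ ((∑ i, e i : ℤ) : ℝ) ≤ κ,
      ∃ B : ℝ, ∃ᶠ Y : ℝ in atTop, MeanBound δ (excess (fun y => ∏ i, product c S (r i) y) κ) B Y,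
      ∃ B : ℝ, ∀ᶠ Y : ℝ in atTop, MeanBound δ (excess (fun y => ∏ i, product c S (r i) y) κ) B Y] := by
    intro κ
    rw [e1]
    have t := L.upper κ
    have e3 : (NoZeros c (fun s => ∏ i, F i s) ∧ ∃ e : ℤ, Order c (fun s => ∏ i, F i s) e ∧ (e : ℝ) ≤ κ) ↔
        ((∀ i, NoZeros c (F i)) ∧ ∃ e : Fin m → ℤ, (∀ i, Order c (F i) (e i)) ∧ ((∑ i, e i : ℤ) : ℝ) ≤ κ) := by
      rw [hz]
      refine and_congr_right fun hzz => ?_
      constructor
      · rintro ⟨e', he', hle⟩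
        obtain ⟨e, he⟩ := hfin hzz
        have h3 := huniq _ _ he' (hsum e he)
        exact ⟨e, he, by rw [← h3]; exact hle⟩
      · rintro ⟨e, he, hle⟩
        exact ⟨_, hsum e he, hle⟩
    rw [e3] at t
    exact t
  -- all orders are minimal if their sum is less than the least sum plus two
  have hall : ∀ (e : Fin m → ℤ), (∀ i, Order c (F i) (e i)) → ∑ i, e i < (∑ i, ε i) + 2 → ∀ i, e i = ε i := by
    intro e he hlt i
    by_contra hi
    have h2 := hmod e he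
    have h3 : ε i + 2 ≤ e i := by
      have := h2 i
      omega
    have h4 : ∑ j, (ε j + if j = i then (2 : ℤ) else 0) ≤ ∑ j, e j := by
      refine Finset.sum_le_sum fun j _ => ?_
      by_cases h5 : j = i
      · rw [if_pos h5, h5]; exact h3
      · rw [if_neg h5, add_zero]
        exact (h2 j).1
    rw [Finset.sum_add_distrib, Finset.sum_ite_eq' Finset.univ i, if_pos (Finset.mem_univ i)] at h4
    omega
  have lt_of : ∀ (e : Fin m → ℤ) (κ : ℝ), ((∑ i, e i : ℤ) : ℝ) ≤ κ → κ < ((∑ i, ε i : ℤ) : ℝ) + 2 →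
      ∑ i, e i < (∑ i, ε i) + 2 := by
    intro e κ hle hκ
    have h2 : ((∑ i, e i : ℤ) : ℝ) < (((∑ i, ε i) + 2 : ℤ) : ℝ) := by
      push_cast
      push_cast at hle hκ
      linarith
    exact_mod_cast h2
  refine ⟨fun κ B hB => ?_, fun κ hκ1 hκ2 => ?_, hup⟩
  · have t : ((∀ i, NoZeros c (F i)) ∧ ∃ e : Fin m → ℤ, (∀ i, Order c (F i) (e i)) ∧ ((∑ i, e i : ℤ) : ℝ) ≤ κ) ↔
      ∃ B : ℝ, ∃ᶠ Y : ℝ in atTop, MeanBound δ (excess (fun y => ∏ i, product c S (r i) y) κ) B Y := (hup κ).out 0 1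
    obtain ⟨hz', e, he, hle⟩ := t.2 ⟨B, hB⟩
    refine ⟨hz', ?_, fun hκ i => ?_⟩
    · have h2 := hcount e he
      have h3 : (((∑ i, ε i) + 2 * Nat.card {i // ¬ fine i} : ℤ) : ℝ) ≤ κ := by
        refine le_trans ?_ hle
        exact_mod_cast h2
      push_cast at h3 ⊢
      linarith
    · have h4 := hall e he (lt_of e κ hle hκ) i
      rw [← h4]
      exact he i
  · have t := hup κ
    have e3 : ((∀ i, NoZeros c (F i)) ∧ ∃ e : Fin m → ℤ, (∀ i, Order c (F i) (e i)) ∧ ((∑ i, e i : ℤ) : ℝ) ≤ κ) ↔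
        ((∀ i, NoZeros c (F i)) ∧ ∀ i, Order c (F i) (ε i)) := by
      refine and_congr_right fun _ => ?_
      constructor
      · rintro ⟨e, he, hle⟩ i
        have h3 := hall e he (lt_of e κ hle hκ2) i
        have h4 := he i
        rwa [h3] at h4
      · intro h2
        exact ⟨ε, h2, hκ1⟩
    rw [e3] at t
    exact t

end Pool.Agent.Q18.P
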