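import Mathlib
import Pool.Agent.Q18.P.Base
import Pool.Agent.Q18.LF.Split2

/-!
# Quotients of Dedekind zeta functions at `s = 1/2`
-/

set_option autoImplicit false
set_option linter.unusedSectionVars false

namespace Pool.Agent.Q18.P

open Filter Topology Set Complex NumberField IsDedekindDomain MeasureTheory
open Pool.Agent.TH270.MS (LI Pl)
open Pool.Agent.Q5.MS (Pv)
open Pool.Agent.Q18.W (Dw Wm fF)
open Pool.Agent.Q18.LF (IsZeta logZ dz dz_summable)
open Pool.Agent.H541R3.ART Pool.Agent.H302R2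

/-- the roots of the zeta function -/
def ones (E : Type) [Field E] [NumberField E] (_ : HeightOneSpectrum (𝓞 E)) (_ : Fin 1) : ℂ := 1

theorem ones_pure (E : Type) [Field E] [NumberField E] (S : Finset (HeightOneSpectrum (𝓞 E))) :
    Pure 0 S (ones E) := by
  refine ⟨fun v _ j => ?_, fun v _ k => ?_⟩
  · simp [ones]
  · simp [ones]

section zeta

variable {E : Type} [Field E] [NumberField E] {Z : ℂ → ℂ}

theorem zeta_hasProd (h : IsZeta E Z) {s : ℂ} (hs : 1 < s.re) :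
    HasProd (fun v : {v : HeightOneSpectrum (𝓞 E) // v ∉ (∅ : Finset (HeightOneSpectrum (𝓞 E)))} =>
      (∏ j, (1 - ones E v.1 j * (norm v.1 : ℂ) ^ (-s)))⁻¹) (Z s) := by
  have hnorm : ∀ v : HeightOneSpectrum (𝓞 E), ‖(norm v : ℂ) ^ (-s)‖ = (norm v : ℝ) ^ (-s.re) := by
    intro v
    have h2 : 0 < norm v := by
      have := Pool.Agent.H921R2.TatePole.two_le_nm v
      show 0 < Pool.Agent.H921R2.TatePole.nm v
      omega
    rw [Complex.norm_natCast_cpow_of_pos h2, Complex.neg_re]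
  have hlt : ∀ v : HeightOneSpectrum (𝓞 E), ‖(norm v : ℂ) ^ (-s)‖ < 1 := by
    intro v
    rw [hnorm]
    have h2 : (2 : ℝ) ≤ norm v := by exact_mod_cast Pool.Agent.H921R2.TatePole.two_le_nm v
    exact Real.rpow_lt_one_of_one_lt_of_neg (by linarith) (by linarith)
  -- summability over the pairs
  have h1 : Summable fun y : HeightOneSpectrum (𝓞 E) × ℕ =>
      ((Ideal.absNorm y.1.asIdeal : ℂ) ^ (-s)) ^ (y.2 + 1) / ((y.2 : ℂ) + 1) := by
    have h3 : Summable fun v : HeightOneSpectrum (𝓞 E) => (norm v : ℝ) ^ (-s.re) := by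
      have h4 := (ones_pure E ∅).sys.sum s.re hs
      refine (Equiv.summable_iff (Equiv.subtypeUnivEquiv (p := fun v : HeightOneSpectrum (𝓞 E) =>
        v ∉ (∅ : Finset (HeightOneSpectrum (𝓞 E)))) (by simp))).1 ?_
      exact h4
    have h5 : Summable fun k : ℕ => (1 / 2 : ℝ) ^ k := summable_geometric_of_lt_one (by norm_num) (by norm_num)
    refine Summable.of_norm_bounded (h3.mul_of_nonneg h5 (fun v => by positivity) fun k => by positivity) fun y => ?_
    rw [norm_div, norm_pow]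
    have h6 : ‖(Ideal.absNorm y.1.asIdeal : ℂ) ^ (-s)‖ = (norm y.1 : ℝ) ^ (-s.re) := hnorm y.1
    have h2 : (2 : ℝ) ≤ norm y.1 := by exact_mod_cast Pool.Agent.H921R2.TatePole.two_le_nm y.1
    have h7 : (norm y.1 : ℝ) ^ (-s.re) ≤ 1 / 2 := by
      calc (norm y.1 : ℝ) ^ (-s.re) ≤ (norm y.1 : ℝ) ^ (-1 : ℝ) :=
            Real.rpow_le_rpow_of_exponent_le (by linarith) (by linarith)
        _ = (norm y.1 : ℝ)⁻¹ := Real.rpow_neg_one _
        _ ≤ 1 / 2 := by rw [one_div]; exact inv_anti₀ (by norm_num) h2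
    have h8 : 0 ≤ (norm y.1 : ℝ) ^ (-s.re) := by positivity
    have h9 : 1 ≤ ‖((y.2 : ℂ) + 1)‖ := by
      have : ((y.2 : ℂ) + 1) = ((y.2 + 1 : ℕ) : ℂ) := by push_cast; rfl
      rw [this, Complex.norm_natCast]
      exact_mod_cast Nat.le_add_left 1 y.2
    rw [h6, div_le_iff₀ (by linarith), pow_succ]
    have h10 : ((norm y.1 : ℝ) ^ (-s.re)) ^ y.2 ≤ (1 / 2) ^ y.2 := pow_le_pow_left₀ h8 h7 _
    calc ((norm y.1 : ℝ) ^ (-s.re)) ^ y.2 * (norm y.1 : ℝ) ^ (-s.re)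
        ≤ (1 / 2) ^ y.2 * (norm y.1 : ℝ) ^ (-s.re) := mul_le_mul_of_nonneg_right h10 h8
      _ = (norm y.1 : ℝ) ^ (-s.re) * (1 / 2) ^ y.2 * 1 := by ring
      _ ≤ (norm y.1 : ℝ) ^ (-s.re) * (1 / 2) ^ y.2 * ‖((y.2 : ℂ) + 1)‖ :=
          mul_le_mul_of_nonneg_left h9 (by positivity)
  have h2 : ∀ v : HeightOneSpectrum (𝓞 E), HasSum (fun k : ℕ =>
      ((Ideal.absNorm v.asIdeal : ℂ) ^ (-s)) ^ (k + 1) / ((k : ℂ) + 1)) (-log (1 - (norm v : ℂ) ^ (-s))) := by
    intro v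
    have h3 := Complex.hasSum_taylorSeries_neg_log (hlt v)
    have h4 := (hasSum_nat_add_iff' 1).2 h3
    simp only [Finset.range_one, Finset.sum_singleton, pow_zero, Nat.cast_zero, div_zero, sub_zero] at h4
    refine h4.congr_fun fun k => ?_
    push_cast
    rfl
  have h3 : HasSum (fun v : HeightOneSpectrum (𝓞 E) => -log (1 - (norm v : ℂ) ^ (-s))) (logZ E s) :=
    h1.hasSum.prod_fiberwise h2
  have h4 := h3.cexp
  rw [← h.euler s hs] at h4
  have h5 : HasProd (fun v : HeightOneSpectrum (𝓞 E) => (∏ j, (1 - ones E v j * (norm v : ℂ) ^ (-s)))⁻¹) (Z s) := by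
    refine h4.congr_fun fun v => ?_
    show _ = cexp (-log (1 - (norm v : ℂ) ^ (-s)))
    have h6 : 1 - (norm v : ℂ) ^ (-s) ≠ 0 := by
      intro h0
      have := hlt v
      rw [← sub_eq_zero.1 h0, norm_one] at this
      exact lt_irrefl _ this
    rw [Complex.exp_neg, Complex.exp_log h6]
    simp [ones]
  exact (Equiv.hasProd_iff (Equiv.subtypeUnivEquiv (p := fun v : HeightOneSpectrum (𝓞 E) =>
    v ∉ (∅ : Finset (HeightOneSpectrum (𝓞 E)))) (by simp))).2 h5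

theorem zeta_continues (h : IsZeta E Z) : Continues (1 / 2) ∅ (ones E) Z :=
  ⟨fun s _ => h.mero s (Set.mem_univ _), h.mero _ (Set.mem_univ _), fun s hs => zeta_hasProd h (by linarith)⟩

end zeta

/-! ### two systems -/

section pair

variable {X1 X2 : Type} {d1 d2 : ℕ} {N1 : X1 → ℕ} {N2 : X2 → ℕ} {α1 : X1 → Fin d1 → ℂ} {α2 : X2 → Fin d2 → ℂ}
  {Ψ1 Ψ2 : ℂ → ℂ} {P1 P2 : ℝ → ℝ}

/-- the quotient of two Euler products, one-sided -/
theorem pair_one (H1 : Dw N1 α1 Ψ1) (H2 : Dw N2 α2 Ψ2) (hP1 : ∀ x, 0 < P1 x) (hP2 : ∀ x, 0 < P2 x)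
    (hl1 : ∀ x, Real.log (P1 x) = Pv N1 α1 x) (hl2 : ∀ x, Real.log (P2 x) = Pv N2 α2 x) {δ : ℝ} (h0 : 0 < δ) (h1 : δ < 1)
    (hr : ∀ x : ℝ, 0 < x → 0 ≤ meromorphicOrderAt (Ψ1 * Ψ2⁻¹) (x : ℂ)) {κ B : ℝ}
    (h : ∃ᶠ Y : ℝ in atTop, MeanBound δ (excess (fun y => P1 y / P2 y) κ) B Y) :
    (∀ s : ℂ, 0 < s.re → meromorphicOrderAt (Ψ1 * Ψ2⁻¹) s = 0) ∧
      ∃ m1 m2 : ℤ, meromorphicOrderAt Ψ1 0 = m1 ∧ meromorphicOrderAt Ψ2 0 = m2 ∧ ((m1 : ℝ) - m2) ≤ κ := by
  let X : Bool → Type := fun b => match b with | true => X1 | false => X2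
  let dd : Bool → ℕ := fun b => match b with | true => d1 | false => d2
  let N : ∀ b, X b → ℕ := fun b => match b with | true => N1 | false => N2
  let α : ∀ b, X b → Fin (dd b) → ℂ := fun b => match b with | true => α1 | false => α2
  let Ψ : Bool → ℂ → ℂ := fun b => match b with | true => Ψ1 | false => Ψ2
  let P : Bool → ℝ → ℝ := fun b => match b with | true => P1 | false => P2
  let w : Bool → ℤ := fun b => match b with | true => 1 | false => -1
  have hD : ∀ b, Dw (N b) (α b) (Ψ b) := fun b => match b with | true => H1 | false => H2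
  have hP : ∀ b x, 0 < P b x := fun b => match b with | true => hP1 | false => hP2
  have hl : ∀ b x, Real.log (P b x) = Pv (N b) (α b) x := fun b => match b with | true => hl1 | false => hl2
  have e1 : fF Ψ w = Ψ1 * Ψ2⁻¹ := by
    funext s
    show ∏ b, Ψ b s ^ w b = _
    rw [Fintype.prod_bool]
    show Ψ1 s ^ (1 : ℤ) * Ψ2 s ^ (-1 : ℤ) = _
    rw [zpow_one, zpow_neg_one]
    rfl
  have e2 : ∀ y, ∏ b, P b y ^ w b = P1 y / P2 y := by
    intro y
    rw [Fintype.prod_bool]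
    show P1 y ^ (1 : ℤ) * P2 y ^ (-1 : ℤ) = _
    rw [zpow_one, zpow_neg_one, div_eq_mul_inv]
  obtain ⟨f1, m, f2, f3⟩ := Pool.Agent.Q18.W.fam_one hD w hP hl h0 h1 (κ := κ) (B := B) (by rw [e1]; exact hr)
    (by simp only [e2]; exact h)
  rw [e1] at f1
  refine ⟨f1, m true, m false, f2 true, f2 false, ?_⟩
  have e3 : (∑ b, w b * m b : ℤ) = m true - m false := by
    rw [Fintype.sum_bool]
    show 1 * m true + (-1) * m false = _
    ring
  rw [e3] at f3
  push_cast at f3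
  exact f3

end pair

/-! ### the square sum of the orders -/

section heil

variable {G : Type} [Group G] [Finite G] {s₀ : ℂ}

theorem theta_inv_norm (A : ArtinData G s₀) {r : ℕ} (hr : (theta A.ord : G → ℂ) 1 = r) (g : G) :
    ‖theta A.ord g‖ ≤ r := by
  have := A.isHeilbronn.norm_le g
  rw [hr] at this
  simpa using this

/-- `∑_χ n_χ² ≤ r²` -/
theorem sum_sq (A : ArtinData G s₀) {r : ℕ} (hr : (theta A.ord : G → ℂ) 1 = r) :
    ∑ χ ∈ irrF G, (A.ord χ) ^ 2 ≤ (r : ℤ) ^ 2 := by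
  classical
  have : Fintype G := Fintype.ofFinite G
  have h1 : ∑ g : G, theta A.ord g * theta A.ord g⁻¹ = ((∑ χ ∈ irrF G, (A.ord χ) ^ 2 : ℤ) : ℂ) * Nat.card G := by
    have h2 : ∀ g : G, theta A.ord g * theta A.ord g⁻¹ = ∑ χ ∈ irrF G, (A.ord χ : ℂ) * (theta A.ord g * χ g⁻¹) := by
      intro g
      conv_lhs => rw [show theta A.ord g⁻¹ = ∑ χ ∈ irrF G, (A.ord χ : ℂ) * χ g⁻¹ from rfl]
      rw [Finset.mul_sum]
      exact Finset.sum_congr rfl fun χ _ => by ring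
    rw [Finset.sum_congr rfl fun g _ => h2 g, Finset.sum_comm]
    push_cast
    rw [Finset.sum_mul]
    refine Finset.sum_congr rfl fun χ hχ => ?_
    rw [← Finset.mul_sum, theta_pair A.ord (mem_irrF.1 hχ)]
    ring
  have h2 : ‖∑ g : G, theta A.ord g * theta A.ord g⁻¹‖ ≤ (r : ℝ) ^ 2 * Nat.card G := by
    refine (norm_sum_le _ _).trans ?_
    refine (Finset.sum_le_sum (g := fun _ => (r : ℝ) ^ 2) fun g _ => ?_).trans ?_
    · rw [norm_mul, sq]
      exact mul_le_mul (theta_inv_norm A hr g) (theta_inv_norm A hr _) (norm_nonneg _) (Nat.cast_nonneg _)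
    · rw [Finset.sum_const, Finset.card_univ, nsmul_eq_mul, Nat.card_eq_fintype_card, mul_comm]
  rw [h1, norm_mul, Complex.norm_intCast, Complex.norm_natCast] at h2
  have h3 : (0 : ℝ) < Nat.card G := by exact_mod_cast Nat.card_pos
  have h4 := le_of_mul_le_mul_right h2 h3
  have h5 := (le_abs_self _).trans h4
  exact_mod_cast h5

end heil

end Pool.Agent.Q18.P
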